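import Mathlib

/-!
Project HC (MP_925021_gt): the scalar function behind the preserved region.
-/

set_option autoImplicit false

namespace Helper35.HC

/-- `w³ s² · (G + xG' - xL - y pL + E x y q + y²(E q(p-q) - W) - δG)` for `G = c + Kx + D/(1+Bx)`,
`L = G - xG'`, `w = 1 + Bx`, `s = 1 + E(p+q)`, `y = G/s`. -/
noncomputable def scN (K E D B c δ x p q W : ℝ) : ℝ :=
  (1 + B * x) * (((c + 2 * K * x) * (1 + B * x) ^ 2 + D)
      - x * (c * (1 + B * x) ^ 2 + D * (1 + 2 * B * x))) * (1 + E * (p + q)) ^ 2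
    - p * (c * (1 + B * x) ^ 2 + D * (1 + 2 * B * x)) * ((c + K * x) * (1 + B * x) + D)
      * (1 + E * (p + q))
    + E * x * q * ((c + K * x) * (1 + B * x) + D) * (1 + B * x) ^ 2 * (1 + E * (p + q))
    + ((c + K * x) * (1 + B * x) + D) ^ 2 * (1 + B * x) * (E * q * (p - q) - W)
    - δ * ((c + K * x) * (1 + B * x) + D) * (1 + B * x) ^ 2 * (1 + E * (p + q)) ^ 2

end Helper35.HC
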