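import Mathlib
import Pool.Agent.Helper35.HC.Bx.Bx1_0
import Pool.Agent.Helper35.HC.Bx.Bx1_1
import Pool.Agent.Helper35.HC.Bx.Bx1_2
import Pool.Agent.Helper35.HC.Bx.Bx1_3
import Pool.Agent.Helper35.HC.Bx.Bx1_4
import Pool.Agent.Helper35.HC.Bx.Bx1_5
import Pool.Agent.Helper35.HC.Bx.Bx1_6
import Pool.Agent.Helper35.HC.Bx.Bx1_7
import Pool.Agent.Helper35.HC.Bx.Bx1_8
import Pool.Agent.Helper35.HC.Bx.Bx1_9
import Pool.Agent.Helper35.HC.Bx.Bx1_10
import Pool.Agent.Helper35.HC.Bx.Bx1_11
import Pool.Agent.Helper35.HC.Bx.Bx1_12
import Pool.Agent.Helper35.HC.Bx.Bx1_13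
import Pool.Agent.Helper35.HC.Bx.Bx1_14
import Pool.Agent.Helper35.HC.Bx.Bx1_15
import Pool.Agent.Helper35.HC.Bx.Bx1_16
import Pool.Agent.Helper35.HC.Bx.Bx2_0
import Pool.Agent.Helper35.HC.Bx.Bx2_1
import Pool.Agent.Helper35.HC.Bx.Bx2_2
import Pool.Agent.Helper35.HC.Bx.Bx2_3
import Pool.Agent.Helper35.HC.Bx.Bx2_4
import Pool.Agent.Helper35.HC.Bx.Bx2_5
import Pool.Agent.Helper35.HC.Bx.Bx2_6
import Pool.Agent.Helper35.HC.Bx.Bx2_7
import Pool.Agent.Helper35.HC.Bx.Bx2_8
import Pool.Agent.Helper35.HC.Bx.Bx2_9

/-!
Project HC (MP_925021_gt): the scalar inequality.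
-/

set_option autoImplicit false
set_option maxHeartbeats 4000000

namespace Helper35.HC

theorem scN_anti {K E D B c δ x p q W W' : ℝ} (hB : 0 ≤ B) (hx : 0 ≤ x) (h : W ≤ W') :
    scN K E D B c δ x p q W' ≤ scN K E D B c δ x p q W := by
  unfold scN
  have h1 : 0 ≤ ((c + K * x) * (1 + B * x) + D) ^ 2 * (1 + B * x) := by positivity
  nlinarith [mul_nonneg h1 (sub_nonneg.2 h)]

theorem sc1 (x p u : ℝ) (hx : 0 ≤ x) (hp0 : 0 ≤ p) (hp1 : p ≤ 1) (hu0 : 1/2 ≤ u) (hu1 : u ≤ 1) :
    0 ≤ scN (1/2) (13/10) (43/100) 5 (77/100) (1/100) x p (p*u^2)
      (3*(p*u) - p + 4*(13/10)*(p*(p*u^2))) ∨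
    0 ≤ scN (1/2) (13/10) (43/100) 5 (77/100) (1/100) x p (p*u^2)
      (4/3 + 8*(13/10)/3*(p*u)) := by
  rcases le_total p (1/2) with hs | hs
  · exact Or.inl (bx1_16 x p u (by linarith) (by linarith) (by linarith) (by linarith) (by linarith))
  · rcases le_total x (1/4) with hs | hs
    · rcases le_total u (3/4) with hs | hs
      · exact Or.inl (bx1_15 x p u (by linarith) (by linarith) (by linarith) (by linarith) (by linarith) (by linarith))
      · rcases le_total p (3/4) with hs | hs
        · exact Or.inl (bx1_14 x p u (by linarith) (by linarith) (by linarith) (by linarith) (by linarith) (by linarith))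
        · rcases le_total u (7/8) with hs | hs
          · rcases le_total p (7/8) with hs | hs
            · exact Or.inl (bx1_13 x p u (by linarith) (by linarith) (by linarith) (by linarith) (by linarith) (by linarith))
            · exact Or.inr (bx1_12 x p u (by linarith) (by linarith) (by linarith) (by linarith) (by linarith) (by linarith))
          · exact Or.inr (bx1_11 x p u (by linarith) (by linarith) (by linarith) (by linarith) (by linarith) (by linarith))
    · rcases le_total p (3/4) with hs | hs
      · exact Or.inl (bx1_10 x p u (by linarith) (by linarith) (by linarith) (by linarith) (by linarith))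
      · rcases le_total x (3/4) with hs | hs
        · rcases le_total u (7/8) with hs | hs
          · rcases le_total u (3/4) with hs | hs
            · exact Or.inl (bx1_9 x p u (by linarith) (by linarith) (by linarith) (by linarith) (by linarith) (by linarith))
            · rcases le_total p (7/8) with hs | hs
              · exact Or.inl (bx1_8 x p u (by linarith) (by linarith) (by linarith) (by linarith) (by linarith) (by linarith))
              · exact Or.inr (bx1_7 x p u (by linarith) (by linarith) (by linarith) (by linarith) (by linarith) (by linarith))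
          · exact Or.inr (bx1_6 x p u (by linarith) (by linarith) (by linarith) (by linarith) (by linarith) (by linarith))
        · rcases le_total x (3/2) with hs | hs
          · rcases le_total u (7/8) with hs | hs
            · rcases le_total u (3/4) with hs | hs
              · exact Or.inl (bx1_5 x p u (by linarith) (by linarith) (by linarith) (by linarith) (by linarith) (by linarith))
              · exact Or.inl (bx1_4 x p u (by linarith) (by linarith) (by linarith) (by linarith) (by linarith) (by linarith))
            · exact Or.inr (bx1_3 x p u (by linarith) (by linarith) (by linarith) (by linarith) (by linarith) (by linarith))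
          · rcases le_total x (9/4) with hs | hs
            · exact Or.inl (bx1_2 x p u (by linarith) (by linarith) (by linarith) (by linarith) (by linarith) (by linarith))
            · exact Or.inl (bx1_1 x p u (by linarith) (by linarith) (by linarith) (by linarith) (by linarith))

theorem sc2 (x p u : ℝ) (hx : 0 ≤ x) (hp0 : 0 ≤ p) (hp1 : p ≤ 1) (hu0 : 1/2 ≤ u) (hu1 : u ≤ 1) :
    0 ≤ scN (1/4) (3/5) (9/25) 6 (39/100) (1/100) x p (p*u^2)
      (3*(p*u) - p + 4*(3/5)*(p*(p*u^2))) ∨
    0 ≤ scN (1/4) (3/5) (9/25) 6 (39/100) (1/100) x p (p*u^2)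
      (4/3 + 8*(3/5)/3*(p*u)) := by
  rcases le_total p (1/2) with hs | hs
  · exact Or.inl (bx2_9 x p u (by linarith) (by linarith) (by linarith) (by linarith) (by linarith))
  · rcases le_total x (1/4) with hs | hs
    · rcases le_total u (3/4) with hs | hs
      · exact Or.inl (bx2_8 x p u (by linarith) (by linarith) (by linarith) (by linarith) (by linarith) (by linarith))
      · rcases le_total p (3/4) with hs | hs
        · exact Or.inl (bx2_7 x p u (by linarith) (by linarith) (by linarith) (by linarith) (by linarith) (by linarith))
        · exact Or.inr (bx2_6 x p u (by linarith) (by linarith) (by linarith) (by linarith) (by linarith) (by linarith))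
    · rcases le_total u (3/4) with hs | hs
      · exact Or.inl (bx2_5 x p u (by linarith) (by linarith) (by linarith) (by linarith) (by linarith))
      · rcases le_total p (3/4) with hs | hs
        · exact Or.inl (bx2_4 x p u (by linarith) (by linarith) (by linarith) (by linarith) (by linarith))
        · rcases le_total x (3/4) with hs | hs
          · exact Or.inr (bx2_3 x p u (by linarith) (by linarith) (by linarith) (by linarith) (by linarith) (by linarith))
          · rcases le_total u (7/8) with hs | hs
            · exact Or.inl (bx2_2 x p u (by linarith) (by linarith) (by linarith) (by linarith) (by linarith))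
            · exact Or.inr (bx2_1 x p u (by linarith) (by linarith) (by linarith) (by linarith) (by linarith))

end Helper35.HC
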