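import Mathlib
import Pool.Agent.Helper35.HC.ScA

/-!
Project HC (MP_925021_gt): the scalar inequality, final form.
-/

set_option autoImplicit false
set_option maxHeartbeats 4000000

namespace Helper35.HC

/-- the two sets of constants of the region `μ² + (E/n)|a|² ≤ λ G(x)`, `G x = c + Kx + D/(1+Bx)` -/
def HK (n : ℕ) (K E D B c : ℝ) : Prop :=
  (n ≤ 6 ∧ K = 1 / 2 ∧ E = 13 / 10 ∧ D = 43 / 100 ∧ B = 5 ∧ c = 77 / 100) ∨
    (7 ≤ n ∧ K = 1 / 4 ∧ E = 3 / 5 ∧ D = 9 / 25 ∧ B = 6 ∧ c = 39 / 100)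

theorem scW {n : ℕ} {K E D B c : ℝ} (hn : 3 ≤ n) (hK : HK n K E D B c) (x p q α β : ℝ)
    (hx : 0 ≤ x) (hq : 0 ≤ q) (hqα : q ≤ α) (hαp : α ≤ p) (hp1 : p ≤ 1) (hα : 2 / (n : ℝ) ≤ α)
    (hβ : 0 ≤ β) (hαβ : α * β = p * q) :
    0 ≤ scN K E D B c (1 / 100) x p q
      (2 * min (2 / (n : ℝ)) β + 8 * E / n * min α β - (p - α)) := by
  have hn0 : (0 : ℝ) < n := by positivity
  have hn3 : (3 : ℝ) ≤ n := by exact_mod_cast hn
  have hα0 : 0 < α := lt_of_lt_of_le (by positivity) hα
  have hp0 : 0 < p := lt_of_lt_of_le hα0 hαp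
  have hE0 : 0 ≤ E := by rcases hK with h | h <;> simp [h.2.2.1] <;> norm_num
  have hB0 : 0 ≤ B := by rcases hK with h | h <;> simp [h.2.2.2.2.1]
  obtain ⟨u, hu0, hu1, hqu⟩ : ∃ u : ℝ, 0 ≤ u ∧ u ≤ 1 ∧ q = p * u ^ 2 := by
    refine ⟨Real.sqrt (q / p), Real.sqrt_nonneg _, ?_, ?_⟩
    · rw [show (1 : ℝ) = Real.sqrt 1 by simp]
      apply Real.sqrt_le_sqrt
      rw [div_le_one hp0]
      linarith
    · rw [Real.sq_sqrt (by positivity)]
      field_simp
  subst hqu
  set r : ℝ := p * u with hr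
  have hr0 : 0 ≤ r := by positivity
  have hr2 : α * β = r ^ 2 := by rw [hαβ, hr]; ring
  have h2n : 2 / (n : ℝ) ≤ 2 / 3 := by
    apply div_le_div_of_nonneg_left (by norm_num) (by norm_num) hn3
  -- second bound
  have hmin : min α β ≤ r := by
    by_contra hcon
    push Not at hcon
    have h1 : r < α := lt_of_lt_of_le hcon (min_le_left _ _)
    have h2 : r < β := lt_of_lt_of_le hcon (min_le_right _ _)
    nlinarith
  have hmin0 : 0 ≤ min α β := le_min hα0.le hβ
  have hE8 : 8 * E / n ≤ 4 * E * α := by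
    have : 8 * E / n = 4 * E * (2 / n) := by ring
    rw [this]
    exact mul_le_mul_of_nonneg_left hα (by positivity)
  have hE8' : 8 * E / n ≤ 8 * E / 3 := by
    apply div_le_div_of_nonneg_left (by positivity) (by norm_num) hn3
  have hW2 : 2 * min (2 / (n : ℝ)) β + 8 * E / n * min α β - (p - α) ≤ 4 / 3 + 8 * E / 3 * r := by
    have h1 : min (2 / (n : ℝ)) β ≤ 2 / 3 := le_trans (min_le_left _ _) h2n
    have h2 : 8 * E / n * min α β ≤ 8 * E / 3 * r :=
      mul_le_mul hE8' hmin hmin0 (by positivity)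
    linarith
  have hW1 : (u ≤ 1 / 2 → 2 * min (2 / (n : ℝ)) β + 8 * E / n * min α β - (p - α)
        ≤ 2 * (p * u ^ 2) + 4 * E * (p * (p * u ^ 2))) ∧
      (1 / 2 ≤ u → 2 * min (2 / (n : ℝ)) β + 8 * E / n * min α β - (p - α)
        ≤ 3 * (p * u) - p + 4 * E * (p * (p * u ^ 2))) := by
    rcases le_total β α with hba | hba
    · have hm : min α β = β := min_eq_right hba
      have h1 : min (2 / (n : ℝ)) β ≤ β := min_le_right _ _
      have h2 : 8 * E / n * min α β ≤ 4 * E * (p * (p * u ^ 2)) := by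
        rw [hm]
        calc 8 * E / n * β ≤ 4 * E * α * β := mul_le_mul_of_nonneg_right hE8 hβ
          _ = 4 * E * (p * (p * u ^ 2)) := by rw [mul_assoc, hαβ]
      have hrα : r ≤ α := by
        by_contra hcon
        push Not at hcon
        nlinarith
      constructor
      · intro hu
        have h3 : 2 * (p * u ^ 2) ≤ α := by
          have : 2 * (p * u ^ 2) ≤ r := by rw [hr]; nlinarith [mul_nonneg hp0.le hu0]
          linarith
        have h4 : 2 * β + α - p ≤ 2 * (p * u ^ 2) := by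
          by_contra hcon
          push Not at hcon
          have h5 : 0 < α * (2 * β + α - p - 2 * (p * u ^ 2)) := mul_pos hα0 (by linarith)
          nlinarith [mul_nonneg (sub_nonneg.2 hαp) (sub_nonneg.2 h3)]
        linarith
      · intro hu
        have h3 : α ≤ 2 * r := by rw [hr]; nlinarith
        have h4 : 2 * β + α ≤ 3 * r := by
          by_contra hcon
          push Not at hcon
          have h5 : 0 < α * (2 * β + α - 3 * r) := mul_pos hα0 (by linarith)
          nlinarith [mul_nonneg (sub_nonneg.2 hrα) (sub_nonneg.2 h3)]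
        have : 3 * (p * u) = 3 * r := by rw [hr]
        linarith
    · have hm : min α β = α := min_eq_left hba
      have hαr : α ≤ r := by rw [← hm]; exact hmin
      have h1 : min (2 / (n : ℝ)) β ≤ α := le_trans (min_le_left _ _) hα
      have h2 : 8 * E / n * min α β ≤ 4 * E * (p * (p * u ^ 2)) := by
        rw [hm]
        have h3 : 8 * E / n * α ≤ 4 * E * α * α := mul_le_mul_of_nonneg_right hE8 hα0.le
        have h4 : α * α ≤ r ^ 2 := by nlinarith
        have h5 : r ^ 2 = p * (p * u ^ 2) := by rw [hr]; ring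
        rw [← h5]
        nlinarith [mul_le_mul_of_nonneg_left h4 hE0]
      have h3r : 2 * min (2 / (n : ℝ)) β + 8 * E / n * min α β - (p - α)
          ≤ 3 * (p * u) - p + 4 * E * (p * (p * u ^ 2)) := by
        have : 3 * (p * u) = 3 * r := by rw [hr]
        linarith
      refine ⟨fun hu => le_trans h3r ?_, fun _ => h3r⟩
      have : 3 * (p * u) - p ≤ 2 * (p * u ^ 2) := by
        nlinarith [mul_nonneg hp0.le (mul_nonneg (sub_nonneg.2 hu) (sub_nonneg.2 hu1))]
      linarith
  have hqα' := hqα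
  rcases hK with ⟨_, rfl, rfl, rfl, rfl, rfl⟩ | ⟨_, rfl, rfl, rfl, rfl, rfl⟩
  · rcases le_total u (1 / 2) with hu | hu
    · refine le_trans ?_ (scN_anti hB0 hx (hW1.1 hu))
      exact bx1_0 x p u hx hp0.le hp1 hu0 hu
    · rcases sc1 x p u hx hp0.le hp1 hu hu1 with h | h
      · exact le_trans h (scN_anti hB0 hx (hW1.2 hu))
      · exact le_trans h (scN_anti hB0 hx hW2)
  · rcases le_total u (1 / 2) with hu | hu
    · refine le_trans ?_ (scN_anti hB0 hx (hW1.1 hu))
      exact bx2_0 x p u hx hp0.le hp1 hu0 hu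
    · rcases sc2 x p u hx hp0.le hp1 hu hu1 with h | h
      · exact le_trans h (scN_anti hB0 hx (hW1.2 hu))
      · exact le_trans h (scN_anti hB0 hx hW2)

/-- at `p = q = 0` -/
theorem sc0 {n : ℕ} {K E D B c : ℝ} (hK : HK n K E D B c) (x : ℝ) (hx : 0 ≤ x) :
    0 ≤ scN K E D B c (1 / 100) x 0 0 0 := by
  rcases hK with ⟨_, rfl, rfl, rfl, rfl, rfl⟩ | ⟨_, rfl, rfl, rfl, rfl, rfl⟩
  · have := bx1_0 x 0 0 hx (le_refl _) zero_le_one (le_refl _) (by norm_num)
    simpa using this
  · have := bx2_0 x 0 0 hx (le_refl _) zero_le_one (le_refl _) (by norm_num)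
    simpa using this

end Helper35.HC
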