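import Mathlib
import Pool.Agent.Helper35.HC.ScB

/-!
Project HC (MP_925021_gt): the scalar form of the reaction inequality.
-/

set_option autoImplicit false
set_option maxHeartbeats 4000000

namespace Helper35.HC

/-- `G x = c + Kx + D/(1+Bx)` -/
noncomputable def Gx (K D B c x : ℝ) : ℝ := c + K * x + D / (1 + B * x)
/-- `G'` -/
noncomputable def Gd (K D B x : ℝ) : ℝ := K - D * B / (1 + B * x) ^ 2
/-- `G''` -/
noncomputable def Gdd (D B x : ℝ) : ℝ := 2 * D * B ^ 2 / (1 + B * x) ^ 3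

theorem HK.pos {n : ℕ} {K E D B c : ℝ} (hK : HK n K E D B c) :
    0 < K ∧ 0 < E ∧ 0 < D ∧ 0 < B ∧ 0 < c ∧ K < E := by
  rcases hK with ⟨_, rfl, rfl, rfl, rfl, rfl⟩ | ⟨_, rfl, rfl, rfl, rfl, rfl⟩ <;> norm_num

theorem Gx_pos {n : ℕ} {K E D B c : ℝ} (hK : HK n K E D B c) {x : ℝ} (hx : 0 ≤ x) :
    0 < Gx K D B c x := by
  obtain ⟨h1, h2, h3, h4, h5, h6⟩ := hK.pos
  unfold Gx
  positivity

theorem Gd_le {K D B x : ℝ} (hD : 0 < D) (hB : 0 < B) (hx : 0 ≤ x) : Gd K D B x ≤ K := by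
  unfold Gd
  have : 0 ≤ D * B / (1 + B * x) ^ 2 := by positivity
  linarith

/-- scalar reaction inequality -/
theorem rcS {n : ℕ} {K E D B c : ℝ} (hn : 3 ≤ n) (hK : HK n K E D B c) (l x y p q α β M1 Mg : ℝ)
    (hl0 : 0 < l) (hl1 : l ≤ 1) (hx : 0 ≤ x) (hy : 0 < y)
    (hq : 0 ≤ q) (hqα : q ≤ α) (hαp : α ≤ p) (hp1 : p ≤ 1) (hα : 2 / (n : ℝ) ≤ α)
    (hβ : 0 ≤ β) (hαβ : α * β = p * q) (hM1 : M1 ≤ x) (hMg : Mg ≤ p * x)
    (hyG : y * (1 + E * (p + q)) = l * Gx K D B c x) :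
    y ^ 2 * α + y * M1 + 2 * y ^ 2 * min (2 / (n : ℝ)) β + E * y ^ 2 * (p ^ 2 + q ^ 2)
        + 8 * E / n * y ^ 2 * min α β + (E - l * Gd K D B x) * (y * Mg)
      ≤ l * Gx K D B c x + l * Gd K D B x * (x * (1 + x)) - 1 / 100 * (l * Gx K D B c x) := by
  obtain ⟨hK0, hE0, hD0, hB0, hc0, hKE⟩ := hK.pos
  have hG := Gx_pos hK hx
  have hGd := Gd_le (K := K) hD0 hB0 hx
  set G := Gx K D B c x with hGdef
  set G' := Gd K D B x with hG'def
  have hEG : 0 ≤ E - l * G' := by
    rcases le_or_gt G' 0 with h | h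
    · have : l * G' ≤ 0 := mul_nonpos_of_nonneg_of_nonpos hl0.le h
      linarith
    · have : l * G' ≤ 1 * G' := mul_le_mul_of_nonneg_right hl1 h.le
      linarith
  have hp0 : 0 ≤ p := by
    have : 0 < α := lt_of_lt_of_le (by positivity) hα
    linarith
  set W := 2 * min (2 / (n : ℝ)) β + 8 * E / n * min α β with hW
  have hs : 0 < 1 + E * (p + q) := by positivity
  set s := 1 + E * (p + q) with hsdef
  have hw : 0 < 1 + B * x := by positivity
  set y1 := G / s with hy1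
  have hyy1 : y = l * y1 := by
    rw [hy1]; field_simp; linarith
  -- the two values
  have hT1 : 0 ≤ G + x * G' - x * (G - x * G') + E * x * y1 * q - y1 * p * (G - x * G')
      + y1 ^ 2 * (E * q * (p - q) - (W - (p - α))) - 1 / 100 * G := by
    have h := scW hn hK x p q α β hx hq hqα hαp hp1 hα hβ hαβ
    have key : scN K E D B c (1 / 100) x p q (W - (p - α))
        = (1 + B * x) ^ 3 * s ^ 2 * (G + x * G' - x * (G - x * G') + E * x * y1 * q
          - y1 * p * (G - x * G')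
          + y1 ^ 2 * (E * q * (p - q) - (W - (p - α))) - 1 / 100 * G) := by
      rw [hy1, hGdef, hG'def, hsdef]
      unfold scN Gx Gd
      field_simp
      ring
    rw [← hW, key] at h
    exact nonneg_of_mul_nonneg_right h (by positivity)
  have hT0 : 0 ≤ G + x * G' - x * (G - x * G') - 1 / 100 * G := by
    have h := sc0 hK x hx
    have key : scN K E D B c (1 / 100) x 0 0 0
        = (1 + B * x) ^ 3 * (G + x * G' - x * (G - x * G') - 1 / 100 * G) := by
      rw [hGdef, hG'def]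
      unfold scN Gx Gd
      field_simp
      ring
    rw [key] at h
    exact nonneg_of_mul_nonneg_right h (by positivity)
  have hy10 : 0 ≤ y1 := by positivity
  have hcomb : 0 ≤ (1 - l) * (G + x * G' - x * (G - x * G') - 1 / 100 * G)
      + (1 - l) * (E * x * y1 * q)
      + l * (G + x * G' - x * (G - x * G') + E * x * y1 * q - y1 * p * (G - x * G')
      + y1 ^ 2 * (E * q * (p - q) - (W - (p - α))) - 1 / 100 * G) := by
    have h1 : 0 ≤ 1 - l := by linarith
    positivity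
  have hmul := mul_nonneg hl0.le hcomb
  have hb1 : y * M1 ≤ y * x := mul_le_mul_of_nonneg_left hM1 hy.le
  have hb2 : (E - l * G') * (y * Mg) ≤ (E - l * G') * (y * (p * x)) :=
    mul_le_mul_of_nonneg_left (mul_le_mul_of_nonneg_left hMg hy.le) hEG
  have hid : l * G + l * G' * (x * (1 + x)) - 1 / 100 * (l * G)
      - (y ^ 2 * α + y * x + y ^ 2 * W + E * y ^ 2 * (p ^ 2 + q ^ 2)
        + (E - l * G') * (y * (p * x)))
      = l * ((1 - l) * (G + x * G' - x * (G - x * G') - 1 / 100 * G)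
      + (1 - l) * (E * x * y1 * q)
      + l * (G + x * G' - x * (G - x * G') + E * x * y1 * q - y1 * p * (G - x * G')
      + y1 ^ 2 * (E * q * (p - q) - (W - (p - α))) - 1 / 100 * G)) := by
    have e1 : G = y1 * s := by rw [hy1]; field_simp
    rw [hyy1, e1, hsdef]
    ring
  have hWexp : y ^ 2 * W = 2 * y ^ 2 * min (2 / (n : ℝ)) β + 8 * E / n * y ^ 2 * min α β := by
    rw [hW]; ring
  nlinarith [hb1, hb2, hid, hmul, hWexp]

end Helper35.HC
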