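import Mathlib
import Pool.Agent.Helper35.HSF.StH
import Pool.Agent.Helper35.HC.ScC

/-!
# Project HC (MP_925021_gt): codimension two in spheres, all dimensions `n ≥ 3`, sharp constant `1/3`, definitions

Flows are rescaled to `ℝ^(n+3)`: `|F(·,t)|² = rr n t = 1 - 2nt`, `∂_t F = HH`.  Everything of the projects PI,
PI2, CL, MS, HSF is proved and may be used.

Algebra: `A_ij` (vector valued, symmetric) is the second fundamental form in an orthonormal tangent frame,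
`A_ij = K_ij ξ + b_ij η - r δ_ij x₀`, `r = 1/ρ²`, `x₀` the position, `ξ, η` orthonormal normals of `M` in the
sphere; `K, b` symmetric real matrices.
-/

set_option autoImplicit false

namespace Helper35.HC

open Helper35.PI Helper35.PI2 Helper32.CL Helper35.MS Helper35.HSF
open scoped ContDiff Manifold Topology ENNReal BigOperators
open MeasureTheory Set Filter

section Alg

variable {n N : ℕ}

/-- `X(c,d)` -/
noncomputable def bil (X : Fin n → Fin n → ℝ) (c d : Fin n → ℝ) : ℝ :=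
  ∑ i, ∑ j, X i j * (c i * d j)
/-- `A(c,d)` -/
noncomputable def bilV (A : Fin n → Fin n → EE N) (c d : Fin n → ℝ) : EE N :=
  ∑ i, ∑ j, (c i * d j) • A i j
/-- orthonormal pair -/
def OP (c d : Fin n → ℝ) : Prop := ∑ i, c i ^ 2 = 1 ∧ ∑ i, d i ^ 2 = 1 ∧ ∑ i, c i * d i = 0
/-- mean value of the diagonal -/
noncomputable def mt (X : Fin n → Fin n → ℝ) : ℝ := (∑ i, X i i) / n
/-- traceless part -/
noncomputable def tl (X : Fin n → Fin n → ℝ) (i j : Fin n) : ℝ := X i j - if i = j then mt X else 0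
/-- `⟨X°,Y°⟩` -/
noncomputable def ip0 (X Y : Fin n → Fin n → ℝ) : ℝ := ∑ i, ∑ j, tl X i j * tl Y i j
/-- squared norm of the commutator -/
noncomputable def cq (X Y : Fin n → Fin n → ℝ) : ℝ :=
  ∑ i, ∑ j, (∑ k, (X i k * Y k j - Y i k * X k j)) ^ 2
/-- linear combination of matrices -/
def lc (a b : ℝ) (X Y : Fin n → Fin n → ℝ) (i j : Fin n) : ℝ := a * X i j + b * Y i j

/-- `A(e_k,c)` -/
noncomputable def Av (A : Fin n → Fin n → EE N) (c : Fin n → ℝ) (k : Fin n) : EE N :=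
  ∑ j, c j • A k j
/-- `S(c,d) = Σ_k ⟨A(e_k,c),A(e_k,d)⟩` -/
noncomputable def Sbl (A : Fin n → Fin n → EE N) (c d : Fin n → ℝ) : ℝ :=
  ∑ k, inner ℝ (Av A c k) (Av A d k)
/-- the reaction term of `½|A(P,Q)|²` for an orthonormal pair moving with the flow -/
noncomputable def ReaP (A : Fin n → Fin n → EE N) (P Q : Fin n → ℝ) : ℝ :=
  (∑ i, ∑ j, inner ℝ (bilV A P Q) (A i j) ^ 2)
    - 2 * (∑ i, ∑ j, inner ℝ (Av A P i) (Av A Q j) * inner ℝ (A i j) (bilV A P Q))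
    + 2 * Sbl A P Q * inner ℝ (bilV A P Q) (bilV A P P)
    + (Sbl A P P + Sbl A Q Q) * ‖bilV A P Q‖ ^ 2

/-- the matrices `K, b` at a maximal orthonormal pair `P, Q` -/
structure MXP {n : ℕ} (K b : Fin n → Fin n → ℝ) (P Q : Fin n → ℝ) (μ : ℝ) : Prop where
  sK : SymS K
  sb : SymS b
  op : OP P Q
  KPQ : bil K P Q = μ
  bPQ : bil b P Q = 0
  mu0 : 0 < μ
  mx : ∀ c d, OP c d → bil K c d ^ 2 + bil b c d ^ 2 ≤ μ ^ 2

/-- `A_ij = K_ij ξ + b_ij η - r δ_ij x₀` -/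
structure KB {n N : ℕ} (A : Fin n → Fin n → EE N) (K b : Fin n → Fin n → ℝ) (r : ℝ)
    (ξ η x₀ : EE N) : Prop where
  eq : A = fun i j => K i j • ξ + b i j • η - (if i = j then r else 0) • x₀
  r0 : 0 < r
  nx : ‖x₀‖ ^ 2 = 1 / r
  nξ : ‖ξ‖ = 1
  nη : ‖η‖ = 1
  ξη : (inner ℝ ξ η : ℝ) = 0
  ξx : (inner ℝ ξ x₀ : ℝ) = 0
  ηx : (inner ℝ η x₀ : ℝ) = 0

/-- `θ = |A|² - |H|²/n` -/
noncomputable def thA2 (A : Fin n → Fin n → EE N) : ℝ := XX A - YY A / n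
/-- `α₂ = |A|² - Z/|H|²`: the part of `|A|²` orthogonal to `H` -/
noncomputable def al2 (A : Fin n → Fin n → EE N) : ℝ := XX A - ZZ A / YY A

/-- the pinching used in `ℝ^N`: `P1`, `P3`, and `P2` where `|H|² ≥ κ₀` -/
structure PinA (n : ℕ) {N : ℕ} (κ₀ δ : ℝ) (A : Fin n → Fin n → EE N) : Prop where
  p1 : thA2 A ≤ (1 - δ) * (2 * ((n : ℝ) - 1) / (n * (n + 2))) * YY A
  p3 : δ * YY A * thA2 A - 1 / δ * YY A * al2 A ≤ AAH A - Sq A
  p2 : κ₀ ≤ YY A → Sq A - ZZ A / n - thA2 A * (ZZ A / YY A) ≤ -(δ * YY A * al2 A)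

end Alg

section Flow

variable {n N : ℕ} {M : Type} [TopologicalSpace M] [ChartedSpace (EE n) M]

/-- `A(c,d)` on `M_t` -/
noncomputable def Ab (F : M → ℝ → EE N) (q : M) (t : ℝ) (c d : Fin n → ℝ) : EE N :=
  ∑ i, ∑ j, (c i * d j) • sff (loc (n := n) F q t) (chartAt (EE n) q q) i j
/-- `g(c,d)` on `M_t` -/
noncomputable def gb (F : M → ℝ → EE N) (q : M) (t : ℝ) (c d : Fin n → ℝ) : ℝ :=
  inner ℝ (tv F q t c) (tv F q t d)

/-- values of `|A(P,Q)|²`, `P, Q` orthonormal -/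
def PSN (n : ℕ) {N : ℕ} {M : Type} [TopologicalSpace M] [ChartedSpace (EE n) M]
    (F : M → ℝ → EE N) (q : M) (t : ℝ) : Set ℝ :=
  {z | ∃ c d : Fin n → ℝ, gb F q t c c = 1 ∧ gb F q t d d = 1 ∧ gb F q t c d = 0 ∧
    z = ‖Ab F q t c d‖ ^ 2}

/-- flow of codimension two in the shrinking sphere -/
structure SFl (n : ℕ) {M : Type} [TopologicalSpace M] [ChartedSpace (EE n) M] (J : Set ℝ)
    (F : M → ℝ → EE (n + 3)) : Prop where
  mcf : IsMCFJ (n := n) J F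
  r0 : ∀ t ∈ J, 0 < rr n t
  sph : ∀ q, ∀ t ∈ J, ‖F q t‖ ^ 2 = rr n t

/-- `x = ρ²|HH|²/n² - 1`, the squared mean curvature in the unit sphere divided by `n²` -/
noncomputable def xN (n : ℕ) {N : ℕ} {M : Type} [TopologicalSpace M] [ChartedSpace (EE n) M]
    (F : M → ℝ → EE N) (q : M) (t : ℝ) : ℝ :=
  rr n t * ‖HH (n := n) F q t‖ ^ 2 / n ^ 2 - 1

/-- the region: `ρ²(|A(P,Q)|² + (E/n) θ) < λ G(x)` -/
def RgN (n : ℕ) {N : ℕ} {M : Type} [TopologicalSpace M] [ChartedSpace (EE n) M]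
    (K E D B c lam : ℝ) (F : M → ℝ → EE N) (t : ℝ) : Prop :=
  ∀ q, ∀ z ∈ PSN n F q t, rr n t * (z + E / n * thN n F q t) < lam * Gx K D B c (xN n F q t)

/-- `|∇^⊥H|²` of an immersion -/
noncomputable def hsq (f : EE n → EE N) (x : EE n) : ℝ :=
  ∑ i, ∑ j, (gram f x)⁻¹ i j * inner ℝ (nrm f x (fderiv ℝ (mcv f) x (ee i)))
    (nrm f x (fderiv ℝ (mcv f) x (ee j)))

/-- `|∇^⊥H|²` on `M_t` -/
noncomputable def eH (n : ℕ) {N : ℕ} {M : Type} [TopologicalSpace M] [ChartedSpace (EE n) M]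
    (F : M → ℝ → EE N) (q : M) (t : ℝ) : ℝ :=
  hsq (loc (n := n) F q t) (chartAt (EE n) q q)

/-- the situation in `ℝ^N` -/
structure PDat (n : ℕ) {N : ℕ} {M : Type} [TopologicalSpace M] [ChartedSpace (EE n) M] (T : ℝ)
    (F : M → ℝ → EE N) (ts κ₀ δ : ℝ) : Prop where
  fl : IsMCFJ (n := n) (Ioo 0 T) F
  T1 : T ≤ 1
  ts0 : ts ∈ Ioo 0 T
  δ0 : 0 < δ
  δ1 : δ < 1
  Y1 : ∀ t ∈ Ioo 0 T, ∀ q, 1 ≤ ‖HH (n := n) F q t‖ ^ 2
  P : ∀ t ∈ Ico ts T, ∀ q, ∀ (L : EE n →ₗᵢ[ℝ] EE N) (u : EE n × ℝ → EE N) (θ : EE n × ℝ → M),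
    GCh n F q t L u θ → PinA n κ₀ δ (jgg u (0, t))
  unb : ∀ C t₀ : ℝ, t₀ < T → ∃ t ∈ Ioo 0 T, t₀ < t ∧ ∃ q, C < ‖HH (n := n) F q t‖ ^ 2

end Flow

end Helper35.HC
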