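import Mathlib
import Pool.Agent.Helper35.HC.Defs

/-!
Project HC (MP_925021_gt), module statements, part A: algebra of the second fundamental form in codimension two.

Every module proves `theorem hX : StX` from the listed hypotheses (any statements of PI, PI2, CL, MS, HSF may be
used as well).  COMPLETE proofs in the docstrings.  Proved scalar inequalities: `scW`, `sc0`, `rcS`, `HK.pos`, `Gx_pos`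
(`Helper35/HC/ScB.lean`, `ScC.lean`), `sGR, sINI, sP1, sP2, sP3` (`ScD.lean`).
-/

set_option autoImplicit false

namespace Helper35.HC

open Helper35.PI Helper35.PI2 Helper32.CL Helper35.MS Helper35.HSF
open scoped ContDiff Manifold Topology ENNReal BigOperators
open MeasureTheory Set Filter

/-- SPR. Symmetric matrices whose eigenvalues differ by at most `2s`.

Proof. Orthonormal eigenbasis `e_1..e_n` of `X`, eigenvalues `λ_i` (`Matrix.IsHermitian.eigenvectorBasis`); for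
`i ≠ j` `(e_i,e_j)` is an `OP`, so `|λ_i - λ_j| ≤ 2s` and all `λ_i` lie in `[z-s,z+s]`, `z = (max + min)/2`.
`ip0 X X = |X|² - (tr X)²/n = Σλ_i² - (Σλ_i)²/n ≤ Σ(λ_i - z)² ≤ ns²` (`n z² - 2zΣλ_i + (Σλ_i)²/n ≥ 0`). The
commutator does not change if `Y` is replaced by `Y°`; in the eigenbasis `([X,Y°])_ij = (λ_i-λ_j)Y°_ij`, so
`cq X Y = Σ(λ_i-λ_j)²(Y°_ij)² ≤ 4s² ip0 Y Y` (the sum of squares of the entries of a matrix does not depend on the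
orthonormal basis). `cq Y X = cq X Y`: the entries change the sign. -/
def StSPR : Prop := ∀ n : ℕ, 2 ≤ n → ∀ (X : Fin n → Fin n → ℝ) (s : ℝ), SymS X → 0 ≤ s →
    (∀ c d, OP c d → bil X c c - bil X d d ≤ 2 * s) →
    ip0 X X ≤ n * s ^ 2 ∧ ∀ Y : Fin n → Fin n → ℝ, SymS Y →
      cq X Y ≤ 4 * s ^ 2 * ip0 Y Y ∧ cq Y X = cq X Y

/-- SPL (hSPR : StSPR). All unit combinations have spread `≤ 2μ`.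

Proof. For an `OP` `c, d` the pair `u = (c+d)/√2, v = (c-d)/√2` is an `OP` and for symmetric `X`
`X(u,v) = ½(X(c,c) - X(d,d))`. With `X = aK + a'b`, `a² + a'² = 1`, Cauchy-Schwarz: `X(u,v)² ≤ K(u,v)² + b(u,v)² ≤ μ²`, so
`X(c,c) - X(d,d) ≤ 2μ`. Norm and commutator: SPR. For the last statement: `Y = -a'K + ab` has
`[aK + a'b, -a'K + ab] = (a² + a'²)[K,b]`, so `cq K b = cq (lc a a' K b) (lc (-a') a K b) ≤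
4μ² ip0 Y Y` (SPR). -/
def StSPL : Prop := ∀ n : ℕ, 2 ≤ n → ∀ (K b : Fin n → Fin n → ℝ) (μ : ℝ), SymS K → SymS b →
    0 ≤ μ → (∀ c d, OP c d → bil K c d ^ 2 + bil b c d ^ 2 ≤ μ ^ 2) →
    ∀ a a' : ℝ, a ^ 2 + a' ^ 2 = 1 →
    (∀ c d, OP c d → bil (lc a a' K b) c c - bil (lc a a' K b) d d ≤ 2 * μ) ∧
    ip0 (lc a a' K b) (lc a a' K b) ≤ n * μ ^ 2 ∧
    cq K b ≤ 4 * μ ^ 2 * ip0 (lc (-a') a K b) (lc (-a') a K b)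

/-- PXE (hSPL : StSPL). The matrix `K` at a maximal pair.

Proof. (1) For a unit `w ⟂ P, Q` and real `t`, `((P+tw)/√(1+t²), Q)` is an `OP`: `(μ + tK(w,Q))² ≤ μ²(1+t²)` for all
`t`, so `K(w,Q) = 0`; likewise `K(w,P) = 0` (symmetry). (2) `((P+tQ)/√(1+t²), (Q-tP)/√(1+t²))` is an `OP`:
`(μ(1-t²) + t(K(Q,Q)-K(P,P)))² ≤ μ²(1+t²)²` for all `t`, so `K(P,P) = K(Q,Q) = k₀`. (3) Every vector `v` is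
`⟨v,P⟩P + ⟨v,Q⟩Q + w`, `w ⟂ P,Q`; so `K(v,P) = k₀⟨v,P⟩ + μ⟨v,Q⟩`, `K(v,Q) = k₀⟨v,Q⟩ + μ⟨v,P⟩`; take `v = e_i`. (4) With
`p = (P+Q)/√2`, `q = (P-Q)/√2`: `K(p,p) = k₀+μ`, `K(q,q) = k₀-μ`. For a unit `z ⟂ P,Q`: SPL (`a = 1, a' = 0`):
`K(z,z) - K(q,q) ≤ 2μ`, `K(p,p) - K(z,z) ≤ 2μ`: `k₀-μ ≤ K(z,z) ≤ k₀+μ`. For `w = αP + βQ + z`:
`K(w,w) = k₀(α²+β²) + 2μαβ + K(z,z)` and `|2αβ| ≤ α²+β²`. (5) For the traceless part `X = K°` and the orthonormal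
pair `p, q`: `ip0 K K = |X|² ≥ X(p,p)² + X(q,q)²` (expand `Σ_ij(X_ij - X(p,p)p_ip_j - X(q,q)q_iq_j)² ≥ 0`), and
`X(p,p) - X(q,q) = 2μ`, so it is `≥ 2μ²`. -/
def StPXE : Prop := ∀ n : ℕ, 2 ≤ n → ∀ (K b : Fin n → Fin n → ℝ) (P Q : Fin n → ℝ) (μ : ℝ),
    MXP K b P Q μ → ∀ k₀ : ℝ, k₀ = bil K P P →
    bil K Q Q = k₀ ∧ (∀ i, ∑ j, K i j * P j = k₀ * P i + μ * Q i) ∧
    (∀ i, ∑ j, K i j * Q j = k₀ * Q i + μ * P i) ∧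
    (∀ w : Fin n → ℝ, (k₀ - μ) * (∑ i, w i ^ 2) ≤ bil K w w ∧
      bil K w w ≤ (k₀ + μ) * (∑ i, w i ^ 2)) ∧
    2 * μ ^ 2 ≤ ip0 K K

/-- PXR (hPXE : StPXE)(hSPL : StSPL). The reaction term at a maximal pair.

Proof. `⟨A_ij,A_kl⟩ = K_ijK_kl + b_ijb_kl + rδ_ijδ_kl`. `bilV A P Q = μξ` (`b(P,Q) = 0`, `⟨P,Q⟩ = 0`),
`⟨bilV A P Q,A_ij⟩ = μK_ij`, `⟨Av A P i, Av A Q j⟩ = (KP)_i(KQ)_j + (bP)_i(bQ)_j + rP_iQ_j`,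
`Sbl A c d = ⟨Kc,Kd⟩ + ⟨bc,bd⟩ + r⟨c,d⟩`, `⟨bilV A P Q,bilV A P P⟩ = μk₀`. PXE: `KP = k₀P+μQ`, `KQ = k₀Q+μP`. So
`ReaP = μ²|K|² - 2μ(⟨KP,K(KQ)⟩ + ⟨bP,K(bQ)⟩ + rμ) + 2μk₀(⟨KP,KQ⟩ + ⟨bP,bQ⟩) + μ²(|KP|²+|KQ|²+|bP|²+|bQ|²+2r)`;
`⟨KP,KQ⟩ = 2k₀μ`, `|KP|² = |KQ|² = k₀²+μ²`, `⟨KP,K(KQ)⟩ = μ(3k₀²+μ²)`: the terms without `b` sum to `μ²|K|²`. With
`p = (P+Q)/√2, q = (P-Q)/√2` the terms with `b` are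
`μ[(k₀+μ)|bp|² - K(bp,bp)] + μ[K(bq,bq) - (k₀-μ)|bq|²]`. For `v = bp`, `v' = v - ⟨v,p⟩p`: `Kp = (k₀+μ)p`, so
`(k₀+μ)|v|² - K(v,v) = (k₀+μ)|v'|² - K(v',v') ≤ 2μ|v'|²` (PXE (4)). `r_p := |v'|² = |bp|² - b(p,p)²`; if `v' ≠ 0`,
`e = v'/|v'| ⟂ p`, `b(p,e) = |v'|` and `(p,e)` is an `OP`: `r_p ≤ μ²`. The same for `q` (`r_q ≤ μ²`). Let
`Y = b° - tK°`, `t = ip0 K b/ip0 K K` (`ip0 K K ≥ 2μ² > 0`): `|Y|² = ip0 b b - (ip0 K b)²/ip0 K K`, and `Yp` differs from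
`bp` by a multiple of `p`, so `r_p = |Yp|² - Y(p,p)² ≤ |Yp|²`, `r_q ≤ |Yq|²`, `|Yp|² + |Yq|² ≤ |Y|²` (Bessel). So the
`b`-terms are `≤ 2μ²(r_p + r_q) ≤ 2μ² min(2μ², |Y|²)`. -/
def StPXR : Prop := ∀ n N : ℕ, 2 ≤ n → ∀ (K b : Fin n → Fin n → ℝ) (P Q : Fin n → ℝ) (μ : ℝ),
    MXP K b P Q μ → ∀ (A : Fin n → Fin n → EE N) (r : ℝ) (ξ η x₀ : EE N),
    KB A K b r ξ η x₀ →
    ‖bilV A P Q‖ ^ 2 = μ ^ 2 ∧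
    ReaP A P Q ≤ μ ^ 2 * (∑ i, ∑ j, K i j ^ 2)
      + 2 * μ ^ 2 * min (2 * μ ^ 2) (ip0 b b - ip0 K b ^ 2 / ip0 K K)

/-- SQG. Splitting off the trace, any codimension.

Proof. `A = a + δm`, `Σa_ii = 0`, `v = Σ⟨a_ij,m⟩²`, `κ = |m|²`. First sum of `Sq`: `⟨A_ij,A_kl⟩ = ⟨a_ij,a_kl⟩ +
δ_ij⟨m,a_kl⟩ + δ_kl⟨a_ij,m⟩ + δ_ijδ_klκ`, squares: `Σ⟨a,a⟩² + 2nv + n²κ²` (all mixed sums vanish, `a` traceless). The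
second and third sums of `Sq A` are both changed by `4Σ_il s_il⟨m,a_li⟩ + 2κΣ|a|² + 4v + nκ²`, `s_ik = Σ_j⟨a_ij,a_jk⟩`, so
their difference does not change. `zz A i j = n(⟨a_ij,m⟩ + δ_ijκ)`, `ZZ A = n²(v + nκ²)`. Bound: each of the three sums
of `Sq a` is at most `(XX a)²` in absolute value (Cauchy-Schwarz: `|s_ik| ≤ Σ_j‖a_ij‖‖a_jk‖`, `Σ s_ik² ≤ (Σ‖a‖²)²`;
third sum `≤ Σ‖a_ij‖‖a_kl‖‖a_jk‖‖a_li‖ ≤ (Σ‖a‖²)²`), so `Sq a ≤ 5(XX a)²`, and `v ≤ κ XX a`. Last line: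
`XX a = thA2 A ≥ 0`; Cauchy-Schwarz for `zz`. -/
def StSQG : Prop := ∀ n N : ℕ, 1 ≤ n → ∀ (A : Fin n → Fin n → EE N), SymV A →
    ∀ (m : EE N) (a : Fin n → Fin n → EE N), m = (1 / (n : ℝ)) • Hv A →
    a = (fun i j => A i j - (if i = j then (1 : ℝ) else 0) • m) → ∀ v : ℝ,
    v = (∑ i, ∑ j, (inner ℝ (a i j) m : ℝ) ^ 2) →
    Hv a = 0 ∧ SymV a ∧ YY A = n ^ 2 * ‖m‖ ^ 2 ∧ XX a = thA2 A ∧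
    Sq A = Sq a + 2 * n * v + n ^ 2 * ‖m‖ ^ 4 ∧ ZZ A = n ^ 2 * (v + n * ‖m‖ ^ 4) ∧
    |Sq a| ≤ 5 * XX a ^ 2 ∧ Sq A - ZZ A / n ≤ 5 * XX A * thA2 A ∧ 0 ≤ thA2 A ∧
    0 ≤ ZZ A ∧ ZZ A ≤ XX A * YY A ∧ YY A ^ 2 / n ≤ ZZ A

/-- SQB (hSQG : StSQG). The invariants in codimension two.

Proof. `Hv A = n(m₁ξ + m₂η - r x₀)`, so `m = m₁ξ + m₂η - r x₀`, `|m|² = m₁²+m₂²+r` and `a_ij = K°_ijξ + b°_ijη`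
(`SQG`). `⟨a_ij,m⟩ = m₁K°_ij + m₂b°_ij`. `Sq a`: first sum `ip0 K K² + ip0 b b² + 2ip0 K b²`; second minus third sum:
`tr (K°²+b°²)² - tr K°⁴ - tr b°⁴ - 2tr(K°b°K°b°) = 2tr(K°²b°²) - 2tr(K°b°K°b°) = cq K b` (`cq` does not change if
`K, b` are replaced by `K°, b°`), with the factor `2`. -/
def StSQB : Prop := ∀ n N : ℕ, 1 ≤ n → ∀ (A : Fin n → Fin n → EE N) (K b : Fin n → Fin n → ℝ)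
    (r : ℝ) (ξ η x₀ : EE N), SymS K → SymS b → KB A K b r ξ η x₀ →
    ∀ v : ℝ, v = mt K ^ 2 * ip0 K K + 2 * mt K * mt b * ip0 K b + mt b ^ 2 * ip0 b b →
    Hv A = (n : ℝ) • (mt K • ξ + mt b • η - r • x₀) ∧
    YY A = n ^ 2 * (mt K ^ 2 + mt b ^ 2 + r) ∧ thA2 A = ip0 K K + ip0 b b ∧
    ZZ A = n ^ 2 * (v + n * (mt K ^ 2 + mt b ^ 2 + r) ^ 2) ∧
    Sq A - ZZ A / n = ip0 K K ^ 2 + ip0 b b ^ 2 + 2 * ip0 K b ^ 2 + 2 * cq K b + n * v ∧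
    (∑ i, ∑ j, K i j ^ 2) = ip0 K K + n * mt K ^ 2 ∧ ip0 K b ^ 2 ≤ ip0 K K * ip0 b b

/-- GRM. Symmetric `2 × 2` matrices.

Proof. `R = √((α-β')²/4 + g²)`, `p = (α+β')/2 + R`, `q = (α+β')/2 - R`: `p + q = α + β'`, `pq = αβ' - g² ≥ 0`,
`(p-α)(α-q) = g² ≥ 0` and `q ≤ p`, so `q ≤ α ≤ p` (`R ≥ |α-β'|/2`), `q ≥ 0` as `pq ≥ 0`, `p ≥ α > 0`. The form
`p(m₁²+m₂²) - αm₁² - 2gm₁m₂ - β'm₂²` has diagonal entries `p-α, p-β' ≥ 0` and determinant `(p-α)(p-β')-g² = 0`, so it is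
`≥ 0` and vanishes at some unit vector `(a,a')`. -/
def StGRM : Prop := ∀ α g β' : ℝ, 0 < α → g ^ 2 ≤ α * β' → ∃ p q : ℝ, 0 ≤ q ∧ q ≤ α ∧ α ≤ p ∧
    p + q = α + β' ∧ p * q = α * β' - g ^ 2 ∧
    (∀ m₁ m₂ : ℝ, α * m₁ ^ 2 + 2 * g * m₁ * m₂ + β' * m₂ ^ 2 ≤ p * (m₁ ^ 2 + m₂ ^ 2)) ∧
    ∃ a a' : ℝ, a ^ 2 + a' ^ 2 = 1 ∧ p = α * a ^ 2 + 2 * g * a * a' + β' * a' ^ 2

/-- RCT (hPXR : StPXR)(hPXE : StPXE)(hSPL : StSPL)(hSQB : StSQB)(hGRM : StGRM). The reaction inequality.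

Proof. `y = μ²/r`, `α = ip0 K K/(nμ²) ≥ 2/n`, `g = ip0 K b/(nμ²)`, `β' = ip0 b b/(nμ²)`; GRM: `p, q`; `β = pq/α =
(ip0 b b - (ip0 K b)²/ip0 K K)/(nμ²) ≥ 0`. `p ≤ 1`: `p = ip0 X X/(nμ²)` for `X = lc a a' K b` and SPL. `thA2 A =
nμ²(p+q)`, so the hypothesis reads `y(1 + E(p+q)) = l G(x)`. `M₁ = m₁²/r ≤ x`, `Mg = v/(nμ²r) ≤ p x` (SQB, GRM). SPL:
`cq K b ≤ 4μ² ip0 b b-type`: with `(a,a') = (0,1)`: `cq K b ≤ 4μ² ip0 K K`; and `cq K b = cq K (b - tK) ≤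
4μ²(ip0 b b - (ip0 K b)²/ip0 K K)`, `t = ip0 K b/ip0 K K` (SPR-type bound for `K`: use SPL with `a = 1, a' = 0` for the
spread and hSPR), so `cq K b ≤ 4μ²·nμ² min(α,β)`. PXR: `ReaP ≤ μ²(ip0 K K + n m₁²) + 2μ²min(2μ², nμ²β)`. Divide the left
side of the claim by `n r²` (SQB, `κ = m₁²+m₂²+r = r(1+x)`): it is at most
`y²α + yM₁ + 2y²min(2/n,β) + E y²(p²+q²) + (8E/n)y²min(α,β) + E y Mg - lG - lG'((1+x)² - (1+x) + yMg)`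
(`ip0 K K² + ip0 b b² + 2ip0 K b² = (nμ²)²(α²+β'²+2g²) = (nμ²)²(p²+q²)`), which is `≤ -(1/100) l G` by `rcS`. -/
def StRCT : Prop := ∀ n N : ℕ, 3 ≤ n → ∀ (cK E D B c : ℝ), HK n cK E D B c →
    ∀ (K b : Fin n → Fin n → ℝ) (P Q : Fin n → ℝ) (μ : ℝ), MXP K b P Q μ →
    ∀ (A : Fin n → Fin n → EE N) (r : ℝ) (ξ η x₀ : EE N), KB A K b r ξ η x₀ →
    ∀ l x : ℝ, 0 < l → l ≤ 1 → x = (mt K ^ 2 + mt b ^ 2) / r →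
    (μ ^ 2 + E / n * thA2 A) / r = l * Gx cK D B c x →
    ReaP A P Q + E / n * (Sq A - ZZ A / n) - n * r * (μ ^ 2 + E / n * thA2 A)
        - l * Gd cK D B x * (ZZ A / n ^ 2 - n * r * (YY A / n ^ 2))
      ≤ -(n / 100) * r ^ 2 * (l * Gx cK D B c x)

/-- TRV. The normal plane.

Proof. `V = (range L ⊕ ℝx₀)^⊥` has dimension `(n+3) - (n+1) = 2` (`x₀ ≠ 0`, `x₀ ⟂ range L`), and
`B_ij = A_ij + rδ_ijx₀ ∈ V` (`⟨A_ij,x₀⟩ = -δ_ij = -rδ_ij|x₀|²`). (1) Any orthonormal basis `ξ, η` of `V`: `K_ij = ⟨A_ij,ξ⟩`,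
`b_ij = ⟨A_ij,η⟩`. (2) `bilV A P Q = bilV B P Q ∈ V` (`⟨P,Q⟩ = 0`), `μ = ‖bilV A P Q‖ > 0`: `ξ = bilV A P Q/μ`, `η ∈ V` a unit
vector orthogonal to `ξ`. `K(P,Q) = μ`, `b(P,Q) = 0`, and for every `OP` `c,d`
`K(c,d)² + b(c,d)² = ‖bilV A c d‖²`. -/
def StTRV : Prop := ∀ n : ℕ, 1 ≤ n → ∀ (A : Fin n → Fin n → EE (n + 3)) (r : ℝ)
    (L : EE n →ₗᵢ[ℝ] EE (n + 3)) (x₀ : EE (n + 3)), SymV A → 0 < r → ‖x₀‖ ^ 2 = 1 / r →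
    (∀ v, (inner ℝ (L v) x₀ : ℝ) = 0) → (∀ i j v, (inner ℝ (A i j) (L v) : ℝ) = 0) →
    (∀ i j, (inner ℝ (A i j) x₀ : ℝ) = -(if i = j then 1 else 0)) →
    (∃ (K b : Fin n → Fin n → ℝ) (ξ η : EE (n + 3)), SymS K ∧ SymS b ∧ KB A K b r ξ η x₀ ∧
      (∀ c d, OP c d → ‖bilV A c d‖ ^ 2 = bil K c d ^ 2 + bil b c d ^ 2) ∧
      ∀ c : Fin n → ℝ, ∑ i, c i ^ 2 = 1 →
        ‖bilV A c c + r • x₀‖ ^ 2 = bil K c c ^ 2 + bil b c c ^ 2) ∧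
    ∀ (P Q : Fin n → ℝ) (μ : ℝ), OP P Q → (∀ c d, OP c d → ‖bilV A c d‖ ^ 2 ≤ ‖bilV A P Q‖ ^ 2) →
      0 < μ → μ ^ 2 = ‖bilV A P Q‖ ^ 2 →
      ∃ (K b : Fin n → Fin n → ℝ) (ξ η : EE (n + 3)), KB A K b r ξ η x₀ ∧ MXP K b P Q μ

/-- TPA (hRCT : StRCT)(hTRV : StTRV)(hSQB : StSQB)(hSPL : StSPL)(hT3 : StT3). The touching point.

Proof. `μ = ‖bilV A P Q‖`. If `μ = 0`: by TRV (1) and SPL (`μ = 0`, `(a,a') = (1,0), (0,1)`) `thA2 A = ip0 K K + ip0 b b = 0`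
and the equation contradicts `l G > 0`. So `μ > 0`; TRV (2): `K, b, ξ, η`. SQB: `x = (m₁²+m₂²)/r ≥ 0`,
`Hv A + n r x₀ = n(m₁ξ+m₂η)` has norm squared `n² r x`. `hX - hY/n = -2(tq T - eq2 T/n) + 2(Sq A - ZZ A/n)`,
`hY = -2eq2 T + 2ZZ A`. Reaction terms: `(2/r)·(RCT) ≤ -(n/50) r l G`. Gradient terms: drop `-2Σ‖..‖²`;
`gY_k = 2⟨Hv A,et T k⟩ = 2⟨Hv A + n r x₀, et T k⟩` (`et T k ⟂ x₀`), so `Σ gY_k² ≤ 4n² r x eq2 T`, and the rest is at most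
`(2 eq2 T/(n² r))(-2E(n-1)/(n+2) + l(G' + 2xG'')) ≤ 0` (T3: `tq - eq2/n ≥ (2(n-1)/(n(n+2))) eq2`; `sGR`). -/
def StTPA : Prop := ∀ n : ℕ, 3 ≤ n → ∀ (cK E D B c : ℝ), HK n cK E D B c →
    ∀ (A : Fin n → Fin n → EE (n + 3)) (T : Fin n → Fin n → Fin n → EE (n + 3)) (r : ℝ)
    (L : EE n →ₗᵢ[ℝ] EE (n + 3)) (x₀ : EE (n + 3)), SymV A → Sym3V T → 0 < r → ‖x₀‖ ^ 2 = 1 / r →
    (∀ v, (inner ℝ (L v) x₀ : ℝ) = 0) → (∀ i j v, (inner ℝ (A i j) (L v) : ℝ) = 0) →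
    (∀ i j, (inner ℝ (A i j) x₀ : ℝ) = -(if i = j then 1 else 0)) →
    (∀ i j k, (inner ℝ (T i j k) x₀ : ℝ) = 0) →
    ∀ (P Q : Fin n → ℝ), OP P Q → (∀ c d, OP c d → ‖bilV A c d‖ ^ 2 ≤ ‖bilV A P Q‖ ^ 2) →
    ∀ l x : ℝ, 0 < l → l ≤ 1 → x = YY A / (n ^ 2 * r) - 1 →
    (‖bilV A P Q‖ ^ 2 + E / n * thA2 A) / r = l * Gx cK D B c x →
    0 ≤ x ∧
    1 / r * ((-2 * (∑ m, ‖∑ i, ∑ j, (P i * Q j) • T i j m‖ ^ 2) + 2 * ReaP A P Q)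
          + E / n * (hX A T - hY A T / n))
        - 2 * n * (‖bilV A P Q‖ ^ 2 + E / n * thA2 A)
        - l * Gd cK D B x * (1 / r * (hY A T / n ^ 2) - 2 * n * (YY A / n ^ 2))
        + l * Gdd D B x * (1 / r ^ 2 * ((∑ k, gY A T k ^ 2) / n ^ 4))
      ≤ -(n / 50) * r * (l * Gx cK D B c x)

/-- INA (hTRV : StTRV)(hSQB : StSQB). Initial values.

Proof. TRV (1): `K(c,c)² + b(c,c)² = ‖bilV A c c + r x₀‖² ≤ τ r` for unit `c`. (i) `OP P Q`; `u_± = (P±Q)/√2`: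
`A(u_±,u_±) + r x₀ = s ± bilV A P Q`, `s = ½(A(P,P)+A(Q,Q)) + r x₀`; parallelogram: `‖s‖² + ‖bilV A P Q‖² ≤ τ r`. (ii)
For a unit vector `(a,a')` let `X = lc a a' K b`, `Y = lc (-a') a K b`, `e_i` an orthonormal eigenbasis of `X`:
`Σ_i(X(e_i,e_i)² + Y(e_i,e_i)²) ≤ nτr`, `Σ X(e_i,e_i)² = |X|² = ip0 X X + n mt X²`, `Σ Y(e_i,e_i)² ≥ n mt Y²`
(`Σ Y(e_i,e_i) = tr Y`), `mt X² + mt Y² = mt K² + mt b²`: `ip0 X X ≤ n(τ - x)r`, `x = (mt K²+mt b²)/r`. With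
`(a,a') = (1,0), (0,1)`: `thA2 A ≤ 2n(τ-x)r`, and `x ≤ τ`. SQB: `x = YY A/(n²r) - 1`. -/
def StINA : Prop := ∀ n : ℕ, 2 ≤ n → ∀ (A : Fin n → Fin n → EE (n + 3)) (r τ : ℝ)
    (L : EE n →ₗᵢ[ℝ] EE (n + 3)) (x₀ : EE (n + 3)), SymV A → 0 < r → ‖x₀‖ ^ 2 = 1 / r →
    (∀ v, (inner ℝ (L v) x₀ : ℝ) = 0) → (∀ i j v, (inner ℝ (A i j) (L v) : ℝ) = 0) →
    (∀ i j, (inner ℝ (A i j) x₀ : ℝ) = -(if i = j then 1 else 0)) →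
    (∀ c : Fin n → ℝ, ∑ i, c i ^ 2 = 1 → ‖bilV A c c + r • x₀‖ ^ 2 ≤ τ * r) →
    ∀ x : ℝ, x = YY A / (n ^ 2 * r) - 1 →
    0 ≤ x ∧ x ≤ τ ∧ thA2 A ≤ 2 * n * ((τ - x) * r) ∧
      ∀ P Q, OP P Q → ‖bilV A P Q‖ ^ 2 ≤ τ * r

/-- MXE. A maximal pair exists.

Proof. `n ≥ 2`: the set of `OP`s is a nonempty (`e_0, e_1`) compact subset of `(Fin n → ℝ)²` (closed, and
`|c_i|, |d_i| ≤ 1`), and `(c,d) ↦ ‖bilV A c d‖²` is continuous. -/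
def StMXE : Prop := ∀ n N : ℕ, 2 ≤ n → ∀ (A : Fin n → Fin n → EE N),
    ∃ P Q, OP P Q ∧ ∀ c d, OP c d → ‖bilV A c d‖ ^ 2 ≤ ‖bilV A P Q‖ ^ 2

/-- PI1 (hSPL : StSPL)(hSQB : StSQB)(hGRM : StGRM). The form of `P2`.

Proof. If `ip0 K K = 0` exchange `K` and `b` (or treat directly); if `ip0 K K = ip0 b b = 0`, both sides are `0`. GRM for
`α = ip0 K K > 0`, `g = ip0 K b`, `β' = ip0 b b`: `p ≥ q`, and with the unit vector `(a,a')` there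
`ip0 X X = p`, `X = lc a a' K b`, `ip0 Y Y = q`, `Y = lc (-a') a K b` (`ip0 X X + ip0 Y Y = p+q`); SPL:
`cq K b ≤ 4μ²q`. `κ = m₁²+m₂²+r`, `α₁ = v/κ ≤ p(m₁²+m₂²)/κ ≤ p`, `θ = p + q`, `al2 A = θ - α₁ ≥ q ≥ 0` (SQB:
`ZZ/YY = v/κ + nκ`, `XX = θ + nκ`). `Sq A - ZZ A/n - θ ZZ/YY = (p²+q²) + 2cq + nv - θ(α₁+nκ) = (p+q)² - 2pq + 2cq -
θα₁ - nκ(θ-α₁) ≤ θ(θ-α₁) + 8μ²q - nκ al2 ≤ (θ + 8μ²)al2 - nκ al2`, `nκ = YY/n`. -/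
def StPI1 : Prop := ∀ n N : ℕ, 2 ≤ n → ∀ (A : Fin n → Fin n → EE N) (K b : Fin n → Fin n → ℝ)
    (r μ : ℝ) (ξ η x₀ : EE N), SymS K → SymS b → KB A K b r ξ η x₀ → 0 ≤ μ →
    (∀ c d, OP c d → bil K c d ^ 2 + bil b c d ^ 2 ≤ μ ^ 2) →
    0 ≤ al2 A ∧ thA2 A ≤ 2 * n * μ ^ 2 ∧
    Sq A - ZZ A / n - thA2 A * (ZZ A / YY A) ≤ (8 * μ ^ 2 + thA2 A - YY A / n) * al2 A

/-- PI2 (hSPL : StSPL)(hSQB : StSQB)(hSPR : StSPR). Convexity in the direction of `H`.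

Proof. `|m'|² = m₁²+m₂² = x r`. If `m' = 0` then `⟨A(w,w),m⟩ = r = κ` for unit `w`. Otherwise `(a,a') = m'/|m'|`,
`X = lc a a' K b`; for a unit `w`: `⟨A(w,w),m⟩ = m₁K(w,w) + m₂b(w,w) + r = |m'|X(w,w) + r = |m'|X°(w,w) + κ`
(`mt X = |m'|`). Let `t = -X°(w,w)`, suppose `t > 0`. Complete `w` to an orthonormal basis `w = e_1, .., e_n`:
`Σ_j X°(e_j,e_j) = 0` and `X°(e_j,e_j) - X°(w,w) ≤ 2μ` (SPL) for `j ≥ 2`, so `t ≤ (n-1)(2μ - t)`, i.e.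
`μ ≥ nt/(2(n-1))`; and `ip0 X X ≥ t² + (Σ_{j≥2}X°(e_j,e_j))²/(n-1) = t²n/(n-1)`; `thA2 A ≥ ip0 X X` (it is
`ip0 X X + ip0 Y Y`). So `c₃t² ≤ μ² + (E/n)thA2 A ≤ r G`, `c₃ = n²/(4(n-1)²) + E/(n-1)`, and
`(|m'|t)² ≤ x r·rG/c₃ ≤ (1-ε)²r²(1+x)² = ((1-ε)κ)²`: `⟨A(w,w),m⟩ ≥ εκ`. Multiply by `n` (`Hv A = n m`), `κ = YY/n²`. -/
def StPI2 : Prop := ∀ n N : ℕ, 3 ≤ n → ∀ (A : Fin n → Fin n → EE N) (K b : Fin n → Fin n → ℝ)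
    (r μ E G x ε : ℝ) (ξ η x₀ : EE N), SymS K → SymS b → KB A K b r ξ η x₀ → 0 ≤ μ →
    (∀ c d, OP c d → bil K c d ^ 2 + bil b c d ^ 2 ≤ μ ^ 2) → 0 ≤ E → 0 ≤ ε → ε ≤ 1 →
    x = (mt K ^ 2 + mt b ^ 2) / r → μ ^ 2 + E / n * thA2 A ≤ r * G →
    x * G ≤ (1 - ε) ^ 2 * ((n : ℝ) ^ 2 / (4 * (n - 1) ^ 2) + E / (n - 1)) * (1 + x) ^ 2 →
    ∀ w : Fin n → ℝ, ε / n * YY A * (∑ i, w i ^ 2) ≤ inner ℝ (bilV A w w) (Hv A)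

/-- PI3 (hALK : StALK)(hSQG : StSQG). The form of `P3`, any codimension.

Proof. `h = |Hv A|`, `ν = Hv A/h`, `k_ij = ⟨A_ij,ν⟩`, `B_ij = A_ij - k_ijν ⟂ ν`; `tr k = h`, `Σ B_ii = 0`,
`|k|² = ZZ/YY`, `|B|² = al2 A`. ALK with `K = k`, `T = 0`, `H = h`, `ε' = ε/n` (`k(w,w) ≥ ε' h|w|²`):
`nε'²h²(|k|² - h²/n) ≤ h tr k³ - |k|⁴`, `|k|² - h²/n = thA2 A - al2 A`. `AAH A = h(tr k³ + Σ⟨B_kl,B_km⟩k_ml)` and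
`Σ⟨B_kl,B_km⟩k_ml ≥ 0` (`k ≥ 0`: it is `Σ_k k(B_k·,B_k·)`, componentwise in an orthonormal basis of `EE N`).
`Sq A ≤ |k|⁴ + C|k|²|B|² + C|B|⁴`: expand `⟨A_ij,A_kl⟩ = k_ijk_kl + ⟨B_ij,B_kl⟩`; in the first sum the mixed term is
`2Σ k_ijk_kl⟨B_ij,B_kl⟩ = 2‖Σk_ijB_ij‖² ≤ 2|k|²|B|²`; in second minus third sum the pure `k` terms cancel
(`tr k⁴ - tr k⁴`), all others are `≤ |k|²|B|²` or `|B|⁴` in absolute value: `Sq A ≤ |k|⁴ + 12|k|²|B|² + 5|B|⁴`. With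
`|k|², |B|² ≤ XX A ≤ 2YY A`: `AAH - Sq ≥ nε'²YY(θ - al2) - 40 YY al2` and `δ = min(nε'²,1)/50 `: `nε'²θ ≥ δθ`,
`nε'² + 40 ≤ 1/δ` (`nε'² ≤ 1` as `ε ≤ 1`, `n ≥ 2`). -/
def StPI3 : Prop := ∀ n N : ℕ, 2 ≤ n → ∀ ε : ℝ, 0 < ε → ε ≤ 1 → ∃ δ : ℝ, 0 < δ ∧ δ < 1 ∧
    ∀ (A : Fin n → Fin n → EE N), SymV A → 0 < YY A → thA2 A ≤ YY A →
    (∀ w : Fin n → ℝ, ε / n * YY A * (∑ i, w i ^ 2) ≤ inner ℝ (bilV A w w) (Hv A)) →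
    ∀ δ' : ℝ, 0 < δ' → δ' ≤ δ →
    δ' * YY A * thA2 A - 1 / δ' * YY A * al2 A ≤ AAH A - Sq A

/-- PIA (hPI1 : StPI1)(hPI2 : StPI2)(hPI3 : StPI3)(hMXE : StMXE)(hTRV : StTRV)(hSQB : StSQB)(hPXE : StPXE). From the
region to `PinA`.

Proof. MXE: `P, Q`, `μ = ‖bilV A P Q‖`, `f = μ² + (E/n)θ < r l G(x) ≤ rG(x)`; TRV gives `K, b` with `SymS`, `KB` and
`K(c,d)² + b(c,d)² = ‖bilV A c d‖² ≤ μ²` for all `OP`s. `κ = r(1+x)`, `YY = n²κ`. P1: `θ ≤ 2nμ²` (PI1), so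
`θ(1+2E)/(2n) ≤ f ≤ rG` and `sP1`: `θ ≤ (9/10)(2(n-1)/(n(n+2)))YY`. P3: `sP3` gives `ε`, PI2, PI3 (`θ ≤ YY`). P2: if `μ > 0`,
`θ ≥ ip0 K K ≥ 2μ²` for the `K` of TRV (2) (PXE); so `2μ² ≤ θ ≤ 2nμ²` and
`8μ² + θ ≤ max(10/(1+2E/n), (8+2n)/(1+2E)) f` (linear in `(μ²,θ)` on this cone); if `μ = 0`, `θ = 0`. `sP2`: (i) if
`x ≥ X₀`, or (ii) if `l ≤ l₀`: `8μ²+θ ≤ (n-δ₁)κ`, and PI1: `Sq - ZZ/n - θZZ/YY ≤ -δ₁κ al2 = -(δ₁/n²)YY al2`. In case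
(i) with `r ≤ R`: `YY ≥ κ₀ = n²R(1+X₀)` implies `x ≥ X₀`. `δ` is the minimum of `1/10`, `δ₁/n²`, the `δ` of PI3. -/
def StPIA : Prop := ∀ n : ℕ, 3 ≤ n → ∀ (cK E D B c : ℝ), HK n cK E D B c →
    ∃ δ l₀ : ℝ, 0 < δ ∧ δ < 1 ∧ 0 < l₀ ∧ ∀ R : ℝ, 0 < R → ∃ κ₀ : ℝ,
    ∀ (A : Fin n → Fin n → EE (n + 3)) (r l : ℝ) (L : EE n →ₗᵢ[ℝ] EE (n + 3)) (x₀ : EE (n + 3)),
    SymV A → 0 < r → ‖x₀‖ ^ 2 = 1 / r → (∀ v, (inner ℝ (L v) x₀ : ℝ) = 0) →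
    (∀ i j v, (inner ℝ (A i j) (L v) : ℝ) = 0) →
    (∀ i j, (inner ℝ (A i j) x₀ : ℝ) = -(if i = j then 1 else 0)) → 0 < l → l ≤ 1 →
    (∀ P Q, OP P Q → (‖bilV A P Q‖ ^ 2 + E / n * thA2 A) / r
      < l * Gx cK D B c (YY A / (n ^ 2 * r) - 1)) →
    (r ≤ R → PinA n κ₀ δ A) ∧ (l ≤ l₀ → ∀ κ₁ : ℝ, PinA n κ₁ δ A)

end Helper35.HC
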