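import Mathlib
import Pool.Agent.Helper35.HC.StA

/-!
Project HC (MP_925021_gt), module statements, part B: the region is preserved by the flow, pinching in `ℝ^N`.

Every module proves `theorem hX : StX` from the listed hypotheses (any statements of PI, PI2, CL, MS, HSF may be
used as well).  COMPLETE proofs in the docstrings.  `ρ² = rr n t`.
-/

set_option autoImplicit false

namespace Helper35.HC

open Helper35.PI Helper35.PI2 Helper32.CL Helper35.MS Helper35.HSF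
open scoped ContDiff Manifold Topology ENNReal BigOperators
open MeasureTheory Set Filter

/-- GCP (hI2J)(hI3J)(hNR)(hG2). Two vectors at once in a graph chart.

Proof. `sff` is symmetric (`dv2` of a smooth map is), so `Ab F q t` is symmetric and bilinear and `Ab c c = An c`. For
`z` near `(0,t₀)`, `z.2 ∈ J` and `tv F (θ z) z.2` is injective (`IsImmJ.imm`). `GCh.fs`: for every `U` there is `c(U)`, unique
by injectivity, with `tv c(U) = ΣU_i f_i` and `An c(U) = Σ U_iU_j sff_ij`; uniqueness gives `c(U+V) = c(U) + c(V)`, and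
polarisation `2Ab(c(U),c(V)) = An(c(U)+c(V)) - An c(U) - An c(V) = 2ΣU_iV_j sff_ij` (`sff` symmetric). The second part: the
same with `GCh.fs'` (`L` is injective: `U(c)` is unique and linear). Third part: the first part at `z = (0,t₀)`
(`θ (0,t₀) = p₀`, G2: `dv1 = L e_i`, and `sff (grf ..) 0 i j = jgg u (0,t₀) i j` as `jgg u ⟂ range L`, G1, NR). -/
def StGCP : Prop := ∀ (n N : ℕ) (M : Type) [TopologicalSpace M] [ChartedSpace (EE n) M]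
    [IsManifold (𝓡 n) ∞ M] (J : Set ℝ) (F : M → ℝ → EE N), IsImmJ (n := n) J F →
    ∀ (p₀ : M) (t₀ : ℝ), t₀ ∈ J → ∀ (L : EE n →ₗᵢ[ℝ] EE N) (u : EE n × ℝ → EE N)
      (θ : EE n × ℝ → M), GCh n F p₀ t₀ L u θ →
    (∀ᶠ z in 𝓝 ((0 : EE n), t₀), ∀ U V : Fin n → ℝ, ∃ c d : Fin n → ℝ,
      tv F (θ z) z.2 c = ∑ i, U i • dv1 (grf (F p₀ t₀) L u z.2) z.1 i ∧
      tv F (θ z) z.2 d = ∑ i, V i • dv1 (grf (F p₀ t₀) L u z.2) z.1 i ∧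
      Ab F (θ z) z.2 c d = ∑ i, ∑ j, (U i * V j) • sff (grf (F p₀ t₀) L u z.2) z.1 i j) ∧
    (∀ c d : Fin n → ℝ, ∃ U V : Fin n → ℝ, tv F p₀ t₀ c = ∑ i, U i • L (ee i) ∧
      tv F p₀ t₀ d = ∑ i, V i • L (ee i) ∧ Ab F p₀ t₀ c d = bilV (jgg u (0, t₀)) U V) ∧
    ∀ U V : Fin n → ℝ, ∃ c d : Fin n → ℝ, tv F p₀ t₀ c = ∑ i, U i • L (ee i) ∧
      tv F p₀ t₀ d = ∑ i, V i • L (ee i) ∧ Ab F p₀ t₀ c d = bilV (jgg u (0, t₀)) U V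

/-- GSJ (hG1)(hG2)(hG5)(hG6)(hSM)(hJA)(hJB)(hJD). Jets of `|A(P,Q)|²` for a moving orthonormal pair.

Proof. `R_ijkl = Rf i j k l`, `g_ij = Gf i j`; `a = g(P,P)`, `b = g(P,Q)`, `c = g(Q,Q)`: at the centre `a = c = 1`,
`b = 0`; `jg g_ij = 0`, `jh g_ij = -2Σ_k⟨A_ik,A_jk⟩` (`g_ij = δ_ij + ⟨u_i,u_j⟩`, G2, G3). The numerator is
`R_PQPQ - 2(b/a)R_PQPP + (b/a)²R_PPPP` (multilinear, `‖·‖²` expanded; `R` symmetric). Up to second order `(b/a)²` vanishes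
at the centre (`b = 0`, `jg b = 0`) and `jh(b/a) = jh b = -2Sbl A P Q`, `jg(b/a) = 0`. Denominator: value `1`, `jg = 0`,
`jh = jh a + jh c = -2(Sbl A P P + Sbl A Q Q)`. So `jh β = jh R_PQPQ + 4 Sbl A P Q⟨A_PQ,A_PP⟩ +
2(Sbl A P P + Sbl A Q Q)‖A_PQ‖²`, and G6 (multiplied by `P_iQ_jP_kQ_l` and summed): `jh R_PQPQ = -2Σ_m‖T_PQm‖² +
2Σ_ab⟨A_PQ,A_ab⟩² - 4Σ_ab⟨A_aP,A_bQ⟩⟨A_ab,A_PQ⟩`. Sum: `-2Σ‖T_PQm‖² + 2ReaP A P Q`. -/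
def StGSJ : Prop := ∀ (n N : ℕ) (x₀ : EE N) (L : EE n →ₗᵢ[ℝ] EE N) (u : EE n × ℝ → EE N)
    (t₀ : ℝ), GraphSol x₀ L u t₀ →
    ∀ (A : Fin n → Fin n → EE N) (T : Fin n → Fin n → Fin n → EE N),
    A = jgg u (0, t₀) → T = jggg u (0, t₀) → ∀ P Q : Fin n → ℝ, OP P Q →
    ∀ (g : (Fin n → ℝ) → (Fin n → ℝ) → EE n × ℝ → ℝ) (β : EE n × ℝ → ℝ),
    g = (fun c d z => inner ℝ (∑ i, c i • dv1 (grf x₀ L u z.2) z.1 i)
      (∑ i, d i • dv1 (grf x₀ L u z.2) z.1 i)) →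
    β = (fun z => ‖bilV (fun i j => sff (grf x₀ L u z.2) z.1 i j) P Q
        - (g P Q z / g P P z) • bilV (fun i j => sff (grf x₀ L u z.2) z.1 i j) P P‖ ^ 2
      / (g P P z * g Q Q z - g P Q z ^ 2)) →
    ContDiffAt ℝ 2 β (0, t₀) ∧ β (0, t₀) = ‖bilV A P Q‖ ^ 2 ∧
    jh β (0, t₀) = -2 * (∑ m, ‖∑ i, ∑ j, (P i * Q j) • T i j m‖ ^ 2) + 2 * ReaP A P Q

/-- PBR (hGCP : StGCP)(hGSJ : StGSJ)(hG1)(hG2). Barrier.

Proof. GCP (second part) gives `P, Q` with `tv c₀ = ΣP_iL e_i` etc.; `L` is an isometry, so `OP P Q` (`gb c₀ c₀ = ΣP_i²`,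
...). `β` from GSJ. Membership: for `z` near the centre `a = g P P z > 0`, `ac - b² > 0`; the vectors `U = P/√a`,
`V = (Q - (b/a)P)/√(c - b²/a)` are orthonormal for `g(z)` and `A(U,V)` has squared norm `β z`; GCP (first part) gives
coordinates `c, d` at `θ z` with `gb c c = 1`, `gb d d = 1`, `gb c d = 0`, `‖Ab c d‖² = β z`. Third claim: GCP, third
part, and `L` isometry. -/
def StPBR : Prop := ∀ (n N : ℕ) (M : Type) [TopologicalSpace M] [ChartedSpace (EE n) M]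
    [IsManifold (𝓡 n) ∞ M] (J : Set ℝ) (F : M → ℝ → EE N), IsImmJ (n := n) J F →
    ∀ (p₀ : M) (t₀ : ℝ), t₀ ∈ J → ∀ (L : EE n →ₗᵢ[ℝ] EE N) (u : EE n × ℝ → EE N)
      (θ : EE n × ℝ → M), GCh n F p₀ t₀ L u θ →
    ∀ (A : Fin n → Fin n → EE N) (T : Fin n → Fin n → Fin n → EE N),
    A = jgg u (0, t₀) → T = jggg u (0, t₀) →
    (∀ z₀ ∈ PSN n F p₀ t₀, ∃ (P Q : Fin n → ℝ) (β : EE n × ℝ → ℝ), OP P Q ∧
      z₀ = ‖bilV A P Q‖ ^ 2 ∧ ContDiffAt ℝ 2 β (0, t₀) ∧ β (0, t₀) = z₀ ∧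
      (∀ᶠ z in 𝓝 ((0 : EE n), t₀), β z ∈ PSN n F (θ z) z.2) ∧
      jh β (0, t₀) = -2 * (∑ m, ‖∑ i, ∑ j, (P i * Q j) • T i j m‖ ^ 2) + 2 * ReaP A P Q) ∧
    (∀ P Q : Fin n → ℝ, OP P Q → ‖bilV A P Q‖ ^ 2 ∈ PSN n F p₀ t₀) ∧
    ∀ c : Fin n → ℝ, ∑ i, c i ^ 2 = 1 → ∃ c' : Fin n → ℝ, gn F p₀ t₀ c' = 1 ∧
      An F p₀ t₀ c' = bilV A c c

/-- SPJ (hG1)(hG2)(hG7)(hG8)(hG9)(hG10)(hSM)(hGH). Jets of a graph in the shrinking sphere.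

Proof. Near `(0,t₀)` `f z = x₀ + L z.1 + u z` satisfies `⟨f,f⟩ = rr n z.2` (`GCh.eq`), `f_i = L e_i + u_i` (G2).
Differentiate in space at the centre: `⟨f,f_i⟩ = 0`: `⟨x₀,L e_i⟩ = 0`; twice: `⟨f_i,f_j⟩ + ⟨f,u_ij⟩ = 0`:
`⟨x₀,A_ij⟩ = -δ_ij`; three times: `⟨f_ik,f_j⟩ + ⟨f_i,f_jk⟩ + ⟨f_k,f_ij⟩ + ⟨f,u_ijk⟩ = 0`, the first three vanish at the
centre (`u_ij ⟂ L`): `⟨x₀,T_ijk⟩ = 0` (compare `Helper89/MS/M_SPH.lean`, and `StNUJ` in HSF). Values: `GCh.hH` at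
`(0,t₀)` with G7, G8, G9, G10. `⟨HH,F⟩ = Σ⟨A_ii,x₀⟩ = -n`, so `n² ≤ ‖HH‖² rr`. -/
def StSPJ : Prop := ∀ (n : ℕ), 1 ≤ n → ∀ (M : Type) [TopologicalSpace M] [ChartedSpace (EE n) M]
    [IsManifold (𝓡 n) ∞ M] (J : Set ℝ) (F : M → ℝ → EE (n + 3)), SFl n J F →
    ∀ (p₀ : M) (t₀ : ℝ), t₀ ∈ J → ∀ (L : EE n →ₗᵢ[ℝ] EE (n + 3)) (u : EE n × ℝ → EE (n + 3))
      (θ : EE n × ℝ → M), GCh n F p₀ t₀ L u θ →
    ∀ (A : Fin n → Fin n → EE (n + 3)) (T : Fin n → Fin n → Fin n → EE (n + 3)),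
    A = jgg u (0, t₀) → T = jggg u (0, t₀) →
    SymV A ∧ Sym3V T ∧ (∀ i j v, (inner ℝ (A i j) (L v) : ℝ) = 0) ∧
    (∀ v, (inner ℝ (L v) (F p₀ t₀) : ℝ) = 0) ∧
    (∀ i j, (inner ℝ (A i j) (F p₀ t₀) : ℝ) = -(if i = j then 1 else 0)) ∧
    (∀ i j k, (inner ℝ (T i j k) (F p₀ t₀) : ℝ) = 0) ∧ ‖F p₀ t₀‖ ^ 2 = rr n t₀ ∧
    AA (n := n) F p₀ t₀ = XX A ∧ HH (n := n) F p₀ t₀ = Hv A ∧ ZF (n := n) F p₀ t₀ = ZZ A ∧
    thN n F p₀ t₀ = thA2 A ∧ xN n F p₀ t₀ = YY A / (n ^ 2 * (1 / rr n t₀)) - 1 ∧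
    0 ≤ xN n F p₀ t₀ ∧ (n : ℝ) ^ 2 ≤ rr n t₀ * ‖HH (n := n) F p₀ t₀‖ ^ 2

/-- TPR (hPBR : StPBR)(hSPJ : StSPJ)(hTPA : StTPA)(hGCH : StGCH)(hG7)(hG8)(hMP)(hJA)(hJB)(hC1). No touching.

Proof. `L` (C1), chart `u, θ` (GCH), `A, T`. PBR for `z₀`: `P, Q, β`. If all values in `PSN` near `(x₀,t₀)`, times `≤ t₀`,
satisfy `≤`, then at the point itself every `z ∈ PSN n F x₀ t₀` is `≤ z₀`, so by PBR (second part) `P, Q` is maximal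
for `A`. `Φ z = rr n z.2 (β z + (E/n) thN(θ z)) - lam z.2 · Gx(xN(θ z))`; near the centre `thN(θ z) = Xf z - Yf z/n`,
`xN(θ z) = rr n z.2 · Yf z/n² - 1` (`GCh.hH`), `C²`; `Gx` is smooth for `x ≥ 0` (near `xN x₀ t₀ ≥ 0`). `Φ (0,t₀) = 0`,
`Φ ≤ 0` for `z` near, `z.2 ≤ t₀` (`GCh.ct`, membership of `β z`). MP: `0 ≤ jh Φ`. `jh (a(z.2) ψ) = a jh ψ + a'ψ`,
`jh Gx(x) = Gd jh x - Gdd Σ(jg x)²`, `jh Xf = hX`, `jh Yf = hY`, `jg Yf = gY`: `jh Φ` is the left side of TPA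
(`r = 1/rr n t₀`, `l = lam t₀`) minus `lam' Gx`, hence `≤ -((n/50)(1/rr)lam + lam')Gx < 0`. Contradiction. -/
def StTPR : Prop := ∀ (n : ℕ), 3 ≤ n → ∀ (cK E D B c : ℝ), HK n cK E D B c →
    ∀ (M : Type) [TopologicalSpace M] [ChartedSpace (EE n) M]
    [IsManifold (𝓡 n) ∞ M] (J : Set ℝ) (F : M → ℝ → EE (n + 3)), SFl n J F →
    ∀ (x₀ : M) (t₀ : ℝ), t₀ ∈ J → ∀ (lam : ℝ → ℝ) (lam' : ℝ), ContDiffAt ℝ 2 lam t₀ →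
    HasDerivAt lam lam' t₀ → 0 < lam t₀ → lam t₀ ≤ 1 → -(n / 50) * (lam t₀ / rr n t₀) < lam' →
    ∀ z₀ ∈ PSN n F x₀ t₀,
    rr n t₀ * (z₀ + E / n * thN n F x₀ t₀) = lam t₀ * Gx cK D B c (xN n F x₀ t₀) →
    ¬ (∀ᶠ p : M × ℝ in 𝓝 (x₀, t₀), p.2 ≤ t₀ → ∀ z ∈ PSN n F p.1 p.2,
      rr n p.2 * (z + E / n * thN n F p.1 p.2) ≤ lam p.2 * Gx cK D B c (xN n F p.1 p.2))

/-- CPP (hI2J)(hI3J)(hI4J)(hSM)(hFR)(hNR). The values form a compact set and are continuous in time.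

Proof. As CPZ (`Helper14/HSF/M_CPZ.lean`), second case. `M` compact, first countable. A sequence `(q_k,t_k,z_k)` with
`z_k = ‖Ab F q_k t_k c_k d_k‖²`: pass to `q_k → q`, `t_k → t ∈ [t₁,t₂]`. In the chart at `q` (`f(y,s) = F (symm y) s`,
`y_k → y = chart q`) the tangent vectors `tv c_k`, `tv d_k` have coordinates `c'_k, d'_k` (transition map), and
`Ab F q_k t_k c_k d_k = Σ c'_id'_j sff (loc F q t_k) y_k i j` (`sff` transforms as a tensor, `StIA`-type formula). The Gram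
matrix of `f` at `(y_k,t_k)` converges to a positive definite one and `g(c'_k,c'_k) = g(d'_k,d'_k) = 1`, so they are
bounded; take limits. The limit values lie in `PSN n F q t`; so the set is sequentially compact (it lies in
`M × [t₁,t₂] × [0,C]`) and compact. (2) `q` fixed, `z = ‖Ab c d‖²` at `t₀`: in the preferred chart at `q`,
`g_s(c,d) = gb F q s c d` and `sff` are continuous in `s` near `t₀`; `c_s = c/√g_s(c,c)`, `d_s = (d - g_s(c_s,d)c_s)/√(..)`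
(Gram-Schmidt) are continuous in `s`, orthonormal, equal to `c, d` at `t₀`; `w s = ‖Ab F q s c_s d_s‖²`. -/
def StCPP : Prop := ∀ (n N : ℕ) (M : Type) [TopologicalSpace M] [T2Space M] [CompactSpace M]
    [ChartedSpace (EE n) M] [IsManifold (𝓡 n) ∞ M] (J : Set ℝ) (F : M → ℝ → EE N),
    IsImmJ (n := n) J F →
    (∀ t₁ t₂ : ℝ, Icc t₁ t₂ ⊆ J →
      IsCompact {p : (M × ℝ) × ℝ | p.1.2 ∈ Icc t₁ t₂ ∧ p.2 ∈ PSN n F p.1.1 p.1.2}) ∧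
    ∀ q, ∀ t₀ ∈ J, ∀ z ∈ PSN n F q t₀, ∃ w : ℝ → ℝ, ContinuousAt w t₀ ∧ w t₀ = z ∧
      ∀ᶠ s in 𝓝 t₀, w s ∈ PSN n F q s

/-- PRG (hTPR : StTPR)(hCPP : StCPP)(hSMF : StSMF)(hSPJ : StSPJ)(hGCH)(hC1). The region is preserved.

Proof. `λ(t) = l₁ (rr n t/rr n t₁)^(1/200)` is smooth, `0 < λ ≤ l₁ < 1`, `λ' = -(n/100)λ/rr > -(n/50)λ/rr`. `xN ≥ 0`
(SPJ in any graph chart). Suppose the claim fails: the set `Γ` of all `(q,t,z)`, `t ∈ [t₁,t₂]`, `z ∈ PSN n F q t`,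
`rr(z + (E/n)thN) ≥ λ Gx(xN)` is nonempty, compact (CPP; the functions are continuous, SMF; `Gx` continuous on
`x ≥ 0`). Let `t₀` be the minimal time in `Γ`; `t₀ > t₁` by hypothesis. For `t < t₀` strict inequality holds; at `t₀` `≤`
for all `q, z` by the second part of CPP (limit `s ↑ t₀`). So equality holds at the point of `Γ` with time `t₀`, and
`≤` holds for all `(p,t)`, `t ∈ [t₁,t₀]`; `t₁ < t₀`: contradiction to TPR. -/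
def StPRG : Prop := ∀ (n : ℕ), 3 ≤ n → ∀ (cK E D B c : ℝ), HK n cK E D B c →
    ∀ (M : Type) [TopologicalSpace M] [T2Space M] [CompactSpace M] [ChartedSpace (EE n) M]
    [IsManifold (𝓡 n) ∞ M] (J : Set ℝ) (F : M → ℝ → EE (n + 3)), SFl n J F →
    ∀ t₁ t₂ : ℝ, t₁ ≤ t₂ → Icc t₁ t₂ ⊆ J → ∀ l₁ : ℝ, 0 < l₁ → l₁ < 1 →
    RgN n cK E D B c l₁ F t₁ →
    ∀ t ∈ Icc t₁ t₂, RgN n cK E D B c (l₁ * (rr n t / rr n t₁) ^ (1 / 200 : ℝ)) F t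

/-- RPD (hPRG : StPRG)(hPIA : StPIA)(hPBR : StPBR)(hSPJ : StSPJ)(hSQG : StSQG)(hGCH)(hC1). Pinching in `ℝ^(n+3)`.

Proof. PRG on `[t₁,t]` for all `t < T`: `RgN (λ(t))`, `λ(t) ≤ l₁`. At `(q,t)` with any chart `GCh n F q t L u θ`: SPJ gives the
hypotheses of PIA with `r = 1/rr n t`, `x₀ = F q t`, and `‖bilV A P Q‖² ∈ PSN` for `OP P Q` (PBR), so
`(‖bilV A P Q‖² + (E/n)thA2 A)/r < λ(t) Gx(YY A/(n²r) - 1)`. `δ, l₀` from PIA. Case `2nT < 1`: `r ≤ R = 1/rr n T`, `κ₀` for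
this `R`, `ts = t₁`. `unb`: `AA = thN + ‖HH‖²/n ≤ 2‖HH‖²` on `[t₁,T)` (PinA.p1 in a graph chart; GCH, C1), so `‖HH‖²` is
unbounded near `T`. Case `2nT = 1`: `λ(t) → 0` as `t → T`; `ts` with `λ(ts) ≤ l₀` (`λ` is decreasing), any `κ₀`, e.g.
`0`; `unb`: `‖HH‖² ≥ n²/rr n t → ∞` (SPJ; `M` nonempty). `Y1`: `‖HH‖² ≥ n²/rr ≥ 1` (`0 < rr ≤ 1` for `t ≥ 0`). `T ≤ 1`. -/
def StRPD : Prop := ∀ (n : ℕ), 3 ≤ n → ∀ (cK E D B c : ℝ), HK n cK E D B c →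
    ∀ (M : Type) [TopologicalSpace M] [T2Space M] [CompactSpace M] [Nonempty M]
    [ChartedSpace (EE n) M] [IsManifold (𝓡 n) ∞ M] (T : ℝ) (F : M → ℝ → EE (n + 3)),
    SFl n (Ioo 0 T) F → 2 * n * T ≤ 1 → ∀ t₁ l₁ : ℝ, t₁ ∈ Ioo 0 T → 0 < l₁ → l₁ < 1 →
    RgN n cK E D B c l₁ F t₁ →
    (2 * n * T = 1 ∨ ∀ C t₀ : ℝ, t₀ < T → ∃ t ∈ Ioo 0 T, t₀ < t ∧ ∃ q, C < AA (n := n) F q t) →
    ∃ ts κ₀ δ : ℝ, PDat n T F ts κ₀ δ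

/-- INT (hINA : StINA)(hPBR : StPBR)(hSPJ : StSPJ)(hGCH)(hC1). The region at the initial time.

Proof. Let `z ∈ PSN n F q t`; chart `L, u, θ` (C1, GCH), `A`. PBR: `z = ‖bilV A P Q‖²`, `OP P Q`. INA with `r = 1/rr n t`,
`x₀ = F q t`: for unit `c`, PBR (third part): `bilV A c c + r x₀ = An F q t c' + (1/rr)F`, `gn c' = 1`, so its squared
norm is `≤ τ/rr = τ r`. `x = xN` (SPJ). So `rr(z + (E/n)thN) ≤ τ + 2E(τ - x) < (1/3 + 2τ) Gx(x)` (`sINI`, ScD). -/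
def StINT : Prop := ∀ (n : ℕ), 3 ≤ n → ∀ (cK E D B c : ℝ), HK n cK E D B c →
    ∀ (M : Type) [TopologicalSpace M] [ChartedSpace (EE n) M]
    [IsManifold (𝓡 n) ∞ M] (J : Set ℝ) (F : M → ℝ → EE (n + 3)), SFl n J F →
    ∀ (t τ : ℝ), t ∈ J → τ < 1 / 3 →
    (∀ q, ∀ c : Fin n → ℝ, gn F q t c = 1 →
      rr n t * ‖An F q t c + (1 / rr n t) • F q t‖ ^ 2 ≤ τ) →
    RgN n cK E D B c (1 / 3 + 2 * τ) F t

end Helper35.HC
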