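import Mathlib
import Pool.Agent.Helper35.HC.StB

/-!
Project HC (MP_925021_gt), module statements, part C: evolution of `|∇^⊥H|²`, the pointwise package, any
codimension.

Every module proves `theorem hX : StX` from the listed hypotheses (any statements of PI, PI2, CL, MS, HSF may be
used as well).  COMPLETE proofs in the docstrings.
-/

set_option autoImplicit false

namespace Helper35.HC

open Helper35.PI Helper35.PI2 Helper32.CL Helper35.MS Helper35.HSF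
open scoped ContDiff Manifold Topology ENNReal BigOperators
open MeasureTheory Set Filter

section DefsC

variable {n N : ℕ}

/-- tangential coefficients of `w = ∂_t u`: `w = H + Σ V_m f_m` -/
noncomputable def Vg (x₀ : EE N) (L : EE n →ₗᵢ[ℝ] EE N) (u : EE n × ℝ → EE N) (m : Fin n)
    (z : EE n × ℝ) : ℝ := ∑ j, GIf x₀ L u m j z * inner ℝ (jt u z) (jg u z j)

/-- `D_i = ∂_i w - Σ V_m u_im`, whose normal part is `∇^⊥_i H` -/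
noncomputable def Dg (x₀ : EE N) (L : EE n →ₗᵢ[ℝ] EE N) (u : EE n × ℝ → EE N) (i : Fin n)
    (z : EE n × ℝ) : EE N := jg (jt u) z i - ∑ m, Vg x₀ L u m z • jgg u z i m

end DefsC

/-- GIT (hG0)(hG1)(hG2)(hGH)(hSM). Mixed derivative of the inverse metric.

Proof. `Gf i j = δ_ij + ⟨u_i,u_j⟩` near `(0,t₀)` (G2). At the centre `u_i = 0`, so `jg (jt Gf) k = ⟨jg u_i k, jt u_j⟩ +
⟨jt u_i, jg u_j k⟩ = ⟨A_ki,et T j⟩ + ⟨et T i,A_kj⟩` (`jt u_j = jg (jt u) j = et T j`: partial derivatives commute, and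
the proof of GH). `Σ_j GIf i j · Gf j k = δ_ik` near the centre; differentiate in `t` and then in `z.1`; at the centre
`G = GI = 1` and all first derivatives vanish, so `jg (jt GIf) k = -jg (jt Gf) k`. -/
def StGIT : Prop := ∀ (n N : ℕ) (x₀ : EE N) (L : EE n →ₗᵢ[ℝ] EE N) (u : EE n × ℝ → EE N)
    (t₀ : ℝ), GraphSol x₀ L u t₀ →
    ∀ (A : Fin n → Fin n → EE N) (T : Fin n → Fin n → Fin n → EE N),
    A = jgg u (0, t₀) → T = jggg u (0, t₀) → ∀ i j k : Fin n,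
    jg (fun z => jt (GIf x₀ L u i j) z) (0, t₀) k
      = -((inner ℝ (A k i) (et T j) : ℝ) + inner ℝ (et T i) (A k j))

/-- JHW (hGIT : StGIT)(hG0)(hG1)(hG2)(hGH)(hSM)(hJA). Jets of `w = ∂_t u`.

Proof. Near `(0,t₀)`: `w = jt u = ΣGIf a b · u_ab` (`pde`), orthogonal to `range L` (`perp` differentiated), the same
for `jg w i`. Value and first derivatives at the centre: GH's proof (`GI = 1`, `∂GI = 0`). `jh u = jt u - Σu_aa =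
Σ(GIf a b - δ_ab)u_ab` near the centre; the partial derivatives of the smooth `u` commute near the centre, so
`jh (jg w i) = ∂_i∂_t(jh u) = ∂_i∂_t Σ(GIf a b - δ_ab)u_ab`; at the centre `GIf - δ`, its `t`- and `z.1`-derivatives
vanish (G0), so it is `Σ jg (jt GIf a b) i · A_ab = -Σ(⟨A_ia,et T b⟩ + ⟨et T a,A_ib⟩)A_ab`; `A` symmetric. -/
def StJHW : Prop := ∀ (n N : ℕ) (x₀ : EE N) (L : EE n →ₗᵢ[ℝ] EE N) (u : EE n × ℝ → EE N)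
    (t₀ : ℝ), GraphSol x₀ L u t₀ →
    ∀ (A : Fin n → Fin n → EE N) (T : Fin n → Fin n → Fin n → EE N),
    A = jgg u (0, t₀) → T = jggg u (0, t₀) →
    ContDiffAt ℝ ∞ (jt u) (0, t₀) ∧ jt u (0, t₀) = Hv A ∧
    (∀ᶠ z in 𝓝 ((0 : EE n), t₀), ∀ v, (inner ℝ (jt u z) (L v) : ℝ) = 0) ∧
    ∀ i, ContDiffAt ℝ ∞ (fun z => jg (jt u) z i) (0, t₀) ∧ jg (jt u) (0, t₀) i = et T i ∧
      (∀ᶠ z in 𝓝 ((0 : EE n), t₀), ∀ v, (inner ℝ (jg (jt u) z i) (L v) : ℝ) = 0) ∧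
      jh (fun z => jg (jt u) z i) (0, t₀)
        = (-2 : ℝ) • ∑ a, ∑ b, (inner ℝ (A a i) (et T b) : ℝ) • A a b

/-- VMJ (hJHW : StJHW)(hG0)(hG1)(hG2)(hG3)(hG5)(hJA)(hJB). Jets of `V_m`.

Proof. At the centre `GI = 1`, `∂GI = 0`, `u_j = 0`, so only the factor `⟨w,u_m⟩` counts up to second order:
`jg⟨w,u_m⟩ l = ⟨w,u_ml⟩ = ⟨Hv A,A_ml⟩`, `jh⟨w,u_m⟩ = ⟨jh w,u_m⟩ + ⟨w,jh u_m⟩ - 2Σ_k⟨w_k,u_mk⟩ = -2Σ_k⟨et T k,A_mk⟩`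
(`jh u_m = 0`, G3). (`jh (GI_mj ⟨w,u_j⟩) = GI jh⟨w,u_j⟩ + jh GI·0 - 2Σ ∂GI·∂..`.) -/
def StVMJ : Prop := ∀ (n N : ℕ) (x₀ : EE N) (L : EE n →ₗᵢ[ℝ] EE N) (u : EE n × ℝ → EE N)
    (t₀ : ℝ), GraphSol x₀ L u t₀ →
    ∀ (A : Fin n → Fin n → EE N) (T : Fin n → Fin n → Fin n → EE N),
    A = jgg u (0, t₀) → T = jggg u (0, t₀) → ∀ m : Fin n,
    ContDiffAt ℝ ∞ (Vg x₀ L u m) (0, t₀) ∧ Vg x₀ L u m (0, t₀) = 0 ∧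
    (∀ l, jg (Vg x₀ L u m) (0, t₀) l = inner ℝ (Hv A) (A m l)) ∧
    jh (Vg x₀ L u m) (0, t₀) = -2 * ∑ k, inner ℝ (et T k) (A m k)

/-- DIJ (hVMJ : StVMJ)(hJHW : StJHW)(hG1)(hG2)(hG3)(hJA)(hJB). Jets of `D_i`.

Proof. `D_i = w_i - ΣV_mu_im`, `V_m = 0` at the centre: value `et T i`; `jh (V_m u_im) = (jh V_m)u_im + 0 -
2Σ_l(∂_lV_m)∂_lu_im` (product rule componentwise), `∂_lu_im = T_lim`. Orthogonality to `range L`: `w_i, u_im ⟂ range L`. -/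
def StDIJ : Prop := ∀ (n N : ℕ) (x₀ : EE N) (L : EE n →ₗᵢ[ℝ] EE N) (u : EE n × ℝ → EE N)
    (t₀ : ℝ), GraphSol x₀ L u t₀ →
    ∀ (A : Fin n → Fin n → EE N) (T : Fin n → Fin n → Fin n → EE N),
    A = jgg u (0, t₀) → T = jggg u (0, t₀) → ∀ i : Fin n,
    ContDiffAt ℝ ∞ (Dg x₀ L u i) (0, t₀) ∧ Dg x₀ L u i (0, t₀) = et T i ∧
    (∀ᶠ z in 𝓝 ((0 : EE n), t₀), ∀ v, (inner ℝ (Dg x₀ L u i z) (L v) : ℝ) = 0) ∧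
    jh (Dg x₀ L u i) (0, t₀)
      = (-2 : ℝ) • (∑ a, ∑ b, (inner ℝ (A a i) (et T b) : ℝ) • A a b)
        + (2 : ℝ) • (∑ m, (∑ k, (inner ℝ (et T k) (A m k) : ℝ)) • A i m)
        + (2 : ℝ) • (∑ m, ∑ l, (inner ℝ (Hv A) (A m l) : ℝ) • T l i m)

/-- HSJ (hDIJ : StDIJ)(hJHW : StJHW)(hG0)(hG1)(hG2)(hG5)(hGH)(hNR)(hFR)(hSM)(hJA)(hJB). The heat operator of
`|∇^⊥H|²` in a graph chart.

Proof. Near `(0,t₀)`: `H = mcv = nrm (jt u) = w - Σ_mV_mf_m` (`w ⟂ L`, so `⟨w,f_j⟩ = ⟨w,u_j⟩`), `f_m = L e_m + u_m`;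
`∂_kH = w_k - Σ(∂_kV_m)f_m - ΣV_mu_km`, so `nrm ∂_kH = nrm D_k` (`nrm f_m = 0`, NR), and
`hsq = Σ_kl GI_kl(⟨D_k,D_l⟩ - Σ_ab GI_ab⟨D_k,u_a⟩⟨D_l,u_b⟩)` (`⟨nrm v,nrm v'⟩ = ⟨v,v'⟩ - ΣGI_ab⟨v,f_a⟩⟨v',f_b⟩`, `D ⟂ L`).
At the centre (`GI = 1`, `∂GI = 0`, `jh GI_kl = 2S_kl`, `S_kl = Σ_m⟨A_km,A_lm⟩`, `u_a = 0`, `∂_mu_a = A_am`), with
`h_k = et T k`: value `Σ‖h_k‖² = eq2 T`,
`jh hsq = 2ΣS_kl⟨h_k,h_l⟩ + 2Σ⟨jh D_k,h_k⟩ - 2Σ_mk‖∂_mD_k‖² + 2Σ_kam⟨h_k,A_am⟩²`. Estimate (Cauchy-Schwarz, `X = XX A`,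
`q = eq2 T ≤ n tq T`, `‖Hv A‖² ≤ nX`): first term `≤ 2Xq`; DIJ: `2Σ⟨jh D_k,h_k⟩ ≤ 4Xq + 4Xq + 4‖Hv A‖√X√q√(tq T)`,
last term `≤ 2Xq`; sum `≤ 12Xq + 4nX tq T ≤ 16n X tq T`. -/
def StHSJ : Prop := ∀ (n N : ℕ), 1 ≤ n → ∀ (x₀ : EE N) (L : EE n →ₗᵢ[ℝ] EE N)
    (u : EE n × ℝ → EE N) (t₀ : ℝ), GraphSol x₀ L u t₀ →
    ∀ (A : Fin n → Fin n → EE N) (T : Fin n → Fin n → Fin n → EE N),
    A = jgg u (0, t₀) → T = jggg u (0, t₀) →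
    ContDiffAt ℝ 2 (fun z : EE n × ℝ => hsq (grf x₀ L u z.2) z.1) (0, t₀) ∧
    hsq (grf x₀ L u t₀) 0 = eq2 T ∧
    jh (fun z : EE n × ℝ => hsq (grf x₀ L u z.2) z.1) (0, t₀) ≤ 16 * n * (XX A * tq T)

/-- HSI (hI1)(hFR)(hNR)(hSM). Invariance of `hsq` under reparametrisation.

Proof. As IA (file of `StIA`): `J_ka = ⟨e_a,Dφ e_k⟩`; `mcv h = mcv f∘φ` near `x` (I1 at all points near `x`; `LI` is open), so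
`∂_k(mcv h) = ΣJ_ka(∂_a mcv f)(φ x)`; `nrm h x = nrm f (φ x)` (same tangent space, NR); `(gram h)⁻¹` transforms by
`Σ_kl (gram h)⁻¹_kl J_kaJ_lb = (gram f)⁻¹_ab`. Smoothness: SM for `(y,t) ↦ f y`. `hsq ≥ 0` by FR. -/
def StHSI : Prop := ∀ (n N : ℕ) (f h : EE n → EE N) (φ : EE n → EE n) (x : EE n),
    ContDiffAt ℝ ∞ f (φ x) → ContDiffAt ℝ ∞ φ x → h =ᶠ[𝓝 x] (fun y => f (φ y)) → LI h x →
    hsq h x = hsq f (φ x) ∧ 0 ≤ hsq h x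

/-- HSM (hHSI : StHSI)(hI2J)(hI3J)(hSM). `eH` on `M × J`.

Proof. In the source of the chart at `p₀`, `loc F q t` near `chart q q` is `loc F p₀ t ∘ (transition map)`: HSI. So
`eH F (symm y) s = hsq (loc F p₀ s) y`, which is smooth in `(y,s)`: `gram⁻¹, mcv` are smooth in `(y,s)` (SM), `dv1` too,
the `y`-derivative of the smooth `mcv` is smooth, and `nrm` is built from these. -/
def StHSM : Prop := ∀ (n N : ℕ) (M : Type) [TopologicalSpace M] [ChartedSpace (EE n) M]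
    [IsManifold (𝓡 n) ∞ M] (J : Set ℝ) (F : M → ℝ → EE N), IsImmJ (n := n) J F →
    SmJ n J (eH n F) ∧ (∀ q, ∀ t ∈ J, 0 ≤ eH n F q t) ∧
    ∀ (p₀ q : M) (t : ℝ), t ∈ J → q ∈ (chartAt (EE n) p₀).source →
      eH n F q t = hsq (loc (n := n) F p₀ t) (chartAt (EE n) p₀ q)

/-- GCX (all hypotheses of `Helper33/HSF/M_GCH.lean`)(hHSI : StHSI)(hHSM : StHSM). Graph charts, with `eH`.

Proof. The chart constructed in `Helper33/HSF/M_GCH.lean` (`StGCH`): `θ z = symm (ψ z)`, `grf (·) = f(ψ(·),·)` near the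
centre, `f(y,s) = F (symm y) s`, `ψ` smooth; repeat it. New: for `z` near `(0,t₀)` the functions
`grf (F p₀ t₀) L u z.2` and `f(·,z.2)∘ψ(·,z.2)` agree near `z.1`, `LI` holds, so by HSI and HSM
`hsq (grf ..) z.1 = hsq (loc F p₀ z.2) (ψ z) = eH n F (θ z) z.2`. -/
def StGCX : Prop := ∀ (n N : ℕ) (M : Type) [TopologicalSpace M] [ChartedSpace (EE n) M]
    [IsManifold (𝓡 n) ∞ M] (J : Set ℝ) (F : M → ℝ → EE N), IsMCFJ (n := n) J F →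
    ∀ (p₀ : M) (t₀ : ℝ), t₀ ∈ J → ∀ L : EE n →ₗᵢ[ℝ] EE N,
    LinearMap.range L.toLinearMap = TS (n := n) F p₀ t₀ →
    ∃ (u : EE n × ℝ → EE N) (θ : EE n × ℝ → M), GCh n F p₀ t₀ L u θ ∧
      (∀ φ : M → ℝ → ℝ, SmJ n J φ →
        ContDiffAt ℝ ∞ (fun z : EE n × ℝ => φ (θ z) z.2) (0, t₀) ∧
        jt (fun z : EE n × ℝ => φ (θ z) z.2) (0, t₀) = deriv (fun s => φ p₀ s) t₀ ∧
        jh (fun z : EE n × ℝ => φ (θ z) z.2) (0, t₀) = htN n F φ p₀ t₀ ∧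
        gdM n F t₀ (fun q => φ q t₀) p₀
          = ∑ k, jg (fun z : EE n × ℝ => φ (θ z) z.2) (0, t₀) k • L (ee k)) ∧
      (∀ᶠ z in 𝓝 ((0 : EE n), t₀),
        eH n F (θ z) z.2 = hsq (grf (F p₀ t₀) L u z.2) z.1) ∧
      vfd 1 (grf (F p₀ t₀) L u t₀) 0 = VF n 1 F t₀ p₀ ∧
      dvc (grf (F p₀ t₀) L u t₀) (vfd 1 (grf (F p₀ t₀) L u t₀)) 0
        = dvg (n := n) F (VF n 1 F t₀) p₀ t₀

/-- JPK (hGCX : StGCX)(hHSJ : StHSJ)(hHSM : StHSM)(hG1)(hG7)(hG8)(hG9)(hG10)(hGV)(hMAJ)(hSMR)(hSMF)(hHTR)(hC1)(hFR)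
(hSQG : StSQG). The pointwise package, any codimension. As `Helper2/HSF/M_PKN.lean`.

Proof. Chart from GCX (`L` by C1), `A = jgg u`, `T = jggg u`. Values: `GCh.hH`, G7, G8, G9, G10. `htN AA = hX A T`,
`htN |HH|² = hY A T`, `gdM AA = ΣgX_k L e_k`, `gdM |HH|² = ΣgY_k L e_k` (GCX transfer, G7, G8); `htN eH = jh hsq` (GCX,
HSJ), value `eq2 T`. `htN thN = hX - hY/n`. GV: `VF n 1 F t q = Σ vk 1 A T k L e_k`, and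
`∂_t(2AA - |HH|²) = dvg (VF n 1) + 4hX - hY + 4eq2 - 4AAH`; so `Sd = Σ_k(Σ_l⟨a_kl,et T l⟩)L e_k`, `a_kl = A_kl - δ_klHv/n`,
`‖Sd‖² ≤ thA2 A · eq2 T`, and `dvg Sd = ¼(4ΔAA - Δ|HH|² - dvg VF) - Δ|HH|²/(2n) = ½ΔthN + ½hX + eq2 - AAH`
`= ½ΔthN + (1-1/n)eq2 - (tq - eq2/n) - (AAH - Sq)`. `gdM thN = Σ_k 2Σ_ij⟨a_ij,T°_ijk⟩L e_k`, `T°_ijk = T_ijk -
δ_ij et T k/n`, `|T°|² = tq - eq2/n`: Cauchy-Schwarz; `gY_k = 2⟨Hv A,et T k⟩`. Regularity of `Sd`: MAJ, SMR (as in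
M_PKN). -/
def StJPK : Prop := ∀ (n N : ℕ), 1 ≤ n → ∀ (M : Type) [TopologicalSpace M]
    [ChartedSpace (EE n) M] [IsManifold (𝓡 n) ∞ M] (J : Set ℝ) (F : M → ℝ → EE N),
    IsMCFJ (n := n) J F →
    (∀ t ∈ J, ContMDiff (𝓡 n) 𝓘(ℝ, EE N) 1 (Sd n F t) ∧
      (∀ q, (inner ℝ (HH (n := n) F q t) (Sd n F t q) : ℝ) = 0)) ∧
    ∀ (q : M) (t : ℝ), t ∈ J → ∃ (L : EE n →ₗᵢ[ℝ] EE N) (u : EE n × ℝ → EE N)
      (θ : EE n × ℝ → M) (A : Fin n → Fin n → EE N) (T : Fin n → Fin n → Fin n → EE N),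
      GCh n F q t L u θ ∧ A = jgg u (0, t) ∧ T = jggg u (0, t) ∧ SymV A ∧ Sym3V T ∧
      AA (n := n) F q t = XX A ∧ HH (n := n) F q t = Hv A ∧ ZF (n := n) F q t = ZZ A ∧
      thN n F q t = thA2 A ∧ eH n F q t = eq2 T ∧
      htN n F (thN n F) q t = -2 * (tq T - eq2 T / n) + 2 * (Sq A - ZZ A / n) ∧
      htN n F (fun q t => ‖HH (n := n) F q t‖ ^ 2) q t = -2 * eq2 T + 2 * ZZ A ∧
      htN n F (eH n F) q t ≤ 16 * n * (XX A * tq T) ∧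
      dvg (n := n) F (Sd n F t) q t = 1 / 2 * lapN n F (thN n F) q t
        + (1 - 1 / (n : ℝ)) * eq2 T - (tq T - eq2 T / n) - (AAH A - Sq A) ∧
      ‖Sd n F t q‖ ^ 2 ≤ thN n F q t * eq2 T ∧
      ‖gdM n F t (fun q => thN n F q t) q‖ ^ 2 ≤ 4 * thN n F q t * (tq T - eq2 T / n) ∧
      ‖gdM n F t (fun q => ‖HH (n := n) F q t‖ ^ 2) q‖ ^ 2
        ≤ 4 * ‖HH (n := n) F q t‖ ^ 2 * eq2 T

/-- PKD (hJPK : StJPK)(hSQG : StSQG)(hT3 : StT3). The package under the pinching.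

Proof. JPK at `(q,t)`; `PDat.P` for its chart: `PinA n κ₀ δ A`. `G = tq T - eq2 T/n`, `R = Sq A - ZZ A/n`, `Z = AAH A - Sq A`,
`a = al2 A`, `w = ZZ A/YY A`; `YY A = ‖HH‖² ≥ 1`, `XX A = thA2 A + YY A/n`. SQG: `0 ≤ thA2`, `YY/n ≤ w ≤ XX ≤ 2YY` (`thA2 ≤ YY`
by p1, `2(n-1)/(n(n+2)) ≤ 1`), `0 ≤ a = XX - w ≤ thA2`, `R ≤ 5XX thA2 ≤ 10 YY thA2`. T3: `tq ≥ (3/(n+2))eq2`, so
`G ≥ (2(n-1)/(n(n+2)))eq2`, i.e. `eq2 ≤ (n(n+2)/(2(n-1)))G`, and `tq = G + eq2/n ≤ 4G` (`n ≥ 2`: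
`(n+2)/(2(n-1)) ≤ 2`); `htN eH ≤ 16n·2YY·4G`. `C = 128n`. -/
def StPKD : Prop := ∀ n : ℕ, 2 ≤ n → ∀ (N : ℕ) (M : Type) [TopologicalSpace M]
    [ChartedSpace (EE n) M] [IsManifold (𝓡 n) ∞ M] (T : ℝ) (F : M → ℝ → EE N) (ts κ₀ δ : ℝ),
    PDat n T F ts κ₀ δ → ∀ t ∈ Ico ts T, ∀ q, ∀ Y θ e : ℝ, Y = ‖HH (n := n) F q t‖ ^ 2 →
    θ = thN n F q t → e = eH n F q t → ∃ G R Z a w : ℝ, 0 ≤ G ∧ 0 ≤ a ∧ a ≤ θ ∧ 0 ≤ θ ∧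
      θ ≤ (1 - δ) * (2 * ((n : ℝ) - 1) / (n * (n + 2))) * Y ∧ 0 ≤ e ∧
      e ≤ n * (n + 2) / (2 * ((n : ℝ) - 1)) * G ∧ Y / n ≤ w ∧ w ≤ 2 * Y ∧ R ≤ 10 * Y * θ ∧
      w ≤ θ + Y / n ∧ AA (n := n) F q t = θ + Y / n ∧
      htN n F (thN n F) q t = -2 * G + 2 * R ∧
      htN n F (fun q t => ‖HH (n := n) F q t‖ ^ 2) q t = -2 * e + 2 * w * Y ∧
      htN n F (eH n F) q t ≤ 128 * n * (Y * G) ∧
      dvg (n := n) F (Sd n F t) q t = 1 / 2 * lapN n F (thN n F) q t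
        + (1 - 1 / (n : ℝ)) * e - G - Z ∧
      ‖Sd n F t q‖ ^ 2 ≤ θ * e ∧
      ‖gdM n F t (fun q => thN n F q t) q‖ ^ 2 ≤ 4 * θ * G ∧
      ‖gdM n F t (fun q => ‖HH (n := n) F q t‖ ^ 2) q‖ ^ 2 ≤ 4 * Y * e ∧
      δ * Y * θ - 1 / δ * Y * a ≤ Z ∧ (κ₀ ≤ Y → R - θ * w ≤ -(δ * Y * a))

end Helper35.HC
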