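import Mathlib
import Pool.Agent.Helper35.HC.StC

/-!
Project HC (MP_925021_gt), module statements, part D: the `L^p` estimate, decay of `θ` and of `|∇^⊥H|²` relative to
the maximum of `|H|²`.

Every module proves `theorem hX : StX` from the listed hypotheses (any statements of PI, PI2, CL, MS, HSF may be
used as well).  COMPLETE proofs in the docstrings.  `Y = ‖HH‖²`, `θ = thN`, `e = eH = |∇^⊥H|²`.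
-/

set_option autoImplicit false

namespace Helper35.HC

open Helper35.PI Helper35.PI2 Helper32.CL Helper35.MS Helper35.HSF
open scoped ContDiff Manifold Topology ENNReal BigOperators
open MeasureTheory Set Filter

/-- `PDat` and the estimates of part D -/
structure PD2 (n : ℕ) {N : ℕ} {M : Type} [TopologicalSpace M] [ChartedSpace (EE n) M] (T : ℝ)
    (F : M → ℝ → EE N) (ts κ₀ δ t₂ C σ Λ₀ : ℝ) : Prop where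
  d : PDat n T F ts κ₀ δ
  t2 : t₂ ∈ Ioo ts T
  C1 : 1 ≤ C
  σ0 : 0 < σ
  σ1 : σ < 1
  L1 : 1 ≤ Λ₀
  th : ∀ t₀ ∈ Ico t₂ T, ∀ Λ : ℝ, Λ₀ ≤ Λ →
    (∀ t ∈ Icc ts t₀, ∀ q, ‖HH (n := n) F q t‖ ^ 2 ≤ Λ) → ∀ q, thN n F q t₀ ≤ C * Λ ^ (1 - σ)
  eh : ∀ t₀ ∈ Ico t₂ T, ∀ Λ : ℝ, Λ₀ ≤ Λ →
    (∀ t ∈ Icc ts t₀, ∀ q, ‖HH (n := n) F q t‖ ^ 2 ≤ Λ) → ∀ q, eH n F q t₀ ≤ C * Λ ^ (2 - σ)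

/-- EA2. The algebraic inequality behind the `L^p` estimate (compare `StEAL`, HSF).

Proof. `c' = 2(n-1)/(n(n+2))`, `1/c' ≤ 2n` (`n ≥ 2`). If `θ = 0`: `a = 0`, `s = 0`, the left side is `0`. Let `θ > 0`,
`y = a/θ - d/Y`, `z = θ‖y‖`, `g = √(θG)`. Facts: `θe/Y ≤ (1-δ)G` (`θ ≤ (1-δ)c'Y`, `e ≤ G/c'`), `θe ≤ 2ng²`,
`θ²‖d‖²/Y² ≤ 4θ·(θe/Y) ≤ 4g²`, `‖a‖ ≤ 2g`, `‖s - ½a‖ ≤ √(2n)g + g ≤ 2ng`. Gradient terms, `a = θ(y + d/Y)`,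
`p + m = n`: `-p(p-1)‖a‖² - m(m-1)θ²‖d‖²/Y² - 2pmθ⟨a,d⟩/Y = -θ²[p(p-1)‖y‖² + 2p(n-1)⟨y,d⟩/Y + n(n-1)‖d‖²/Y²]
≤ -½p(p-1)z² + 3(n-1)²·4g²` (`2p(n-1)‖y‖‖d‖/Y ≤ ½p(p-1)‖y‖² + (2p/(p-1))(n-1)²‖d‖²/Y²`, `2p/(p-1) ≤ 3`).
`-2pθG - 2mθ²e/Y ≤ -2pθG + 2p(1-δ)θG = -2pδg²`. `(p-1)a + (mθ/Y)d = (p-1)θy + (n-1)θd/Y`, so
`μ⟨..,s-½a⟩ ≤ μ((p-1)z + 2(n-1)g)·2ng ≤ ½p(p-1)z² + 2n²μ²g² + 4n²μg²`; `μθ(1-1/n)e ≤ 2nμg²`, `-μθG ≤ 0`. So all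
terms with derivatives are `≤ g²(-2pδ + 12n² + 2nμ + 4n²μ + 2n²μ²) ≤ 0` for large `p`. Reaction terms:
`2pθR + 2mwθ² - Yθ² - μθZ ≤ 2pθ(R - wθ) + 2nwθ² - Yθ² - μδYθ² + (μ/δ)Yaθ` (`al` plays the role of `α₂`), `2nwθ² ≤
4nYθ²`. `μ = 4n/δ`. In general (`R ≤ 10Yθ`, `w ≥ 0`, `al ≤ θ`) this is `≤ (20p + 4n + μ/δ)Yθ²`. If
`R - θw ≤ -δY al` it is `≤ (-2pδ + μ/δ)Y al θ + (4n - μδ)Yθ² - Yθ² ≤ 0` for `p ≥ μ/(2δ²)`. -/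
def StEA2 : Prop := ∀ (n : ℕ) (δ : ℝ), 2 ≤ n → 0 < δ → δ < 1 → ∃ (p : ℕ) (μ K : ℝ), n < p ∧
    3 ≤ p ∧ 0 < μ ∧ 0 ≤ K ∧ ∀ (V : Type) [NormedAddCommGroup V] [InnerProductSpace ℝ V]
      (a d s : V) (θ Y e G R Z al w m : ℝ), 0 ≤ θ → 0 < Y → 0 ≤ e → 0 ≤ G → 0 ≤ al → al ≤ θ →
      θ ≤ (1 - δ) * (2 * ((n : ℝ) - 1) / (n * (n + 2))) * Y →
      e ≤ n * (n + 2) / (2 * ((n : ℝ) - 1)) * G → ‖s‖ ^ 2 ≤ θ * e → ‖a‖ ^ 2 ≤ 4 * θ * G →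
      ‖d‖ ^ 2 ≤ 4 * Y * e → Y / n ≤ w → w ≤ 2 * Y → R ≤ 10 * Y * θ →
      δ * Y * θ - 1 / δ * Y * al ≤ Z → m = n - p → ∀ E : ℝ,
      E = p * θ * (-2 * G + 2 * R) - p * (p - 1) * ‖a‖ ^ 2
        + θ ^ 2 * (m / Y) * (-2 * e + 2 * w * Y) - m * (m - 1) * θ ^ 2 * ‖d‖ ^ 2 / Y ^ 2
        - 2 * p * m * θ * inner ℝ a d / Y - Y * θ ^ 2
        + μ * θ * ((1 - 1 / (n : ℝ)) * e - G - Z)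
        + μ * inner ℝ (((p : ℝ) - 1) • a + (m * θ / Y) • d) (s - (1 / 2 : ℝ) • a) →
      E ≤ K * Y * θ ^ 2 ∧ (R - θ * w ≤ -(δ * Y * al) → E ≤ 0)

/-- LPH (hEA2 : StEA2)(hPKD : StPKD)(hJPK : StJPK)(hEPW : StEPW)(hHTR : StHTR)(hTDJ : StTDJ)(hFVJ : StFVJ)
(hPRJ : StPRJ)(hMUJ)(hSMR : StSMR)(hSMF)(hI4J). The integral `∫ θ^p Y^(n-p)` is bounded. As `Helper18/HSF/M_EPH.lean`.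

Proof. `J = (0,T)`, `Y ≥ 1` on `J`. EA2: `p, μ, K`; `m = n - p`; `Φ = θ^p Y^m`, `w₀ = θ^(p-1) Y^m`, `X = Sd - ½∇θ` (`C¹`,
`⟨HH,X⟩ = 0`: JPK, SMR), `V = ∇Φ - μw₀X`. For `t ∈ [ts,T)`, with `a = ∇θ`, `d = ∇Y`, `s = Sd` and PKD (HTR, EPW, PRJ):
`htN Φ = Y^m(pθ^(p-1)htN θ - p(p-1)θ^(p-2)|a|²) + θ^p(mY^(m-1)htN Y - m(m-1)Y^(m-2)|d|²) - 2pmθ^(p-1)Y^(m-1)⟨a,d⟩`,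
`dvg(w₀X) = w₀ dvg X + ⟨∇w₀,X⟩`, `dvg X = (1-1/n)e - G - Z`, `∇w₀ = (p-1)θ^(p-2)Y^m a + mθ^(p-1)Y^(m-1)d`, so
`htN Φ - YΦ + μ dvg(w₀X) = θ^(p-2)Y^m·E` (`E` of EA2, its hypotheses are PKD), which is `≤ 0` if `Y ≥ κ₀` and
`≤ KYΦ ≤ K|κ₀|Φ` if `Y ≤ κ₀`. So `∂_tΦ - YΦ ≤ dvg V + K|κ₀|Φ`. TDJ, FVJ: the derivative of `I(t) = ∫Φ dμ_t` is
`∫(∂_tΦ - YΦ) ≤ ∫(dvg V + ⟨HH,V⟩) + K|κ₀|I = K|κ₀|I` for `t ∈ [ts,T)`. So `I(t) ≤ I(ts)exp(K|κ₀|(t-ts))`, `T ≤ 1`. -/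
def StLPH : Prop := ∀ (n : ℕ), 2 ≤ n → ∀ (N : ℕ) (M : Type) [TopologicalSpace M] [T2Space M]
    [CompactSpace M] [MeasurableSpace M] [BorelSpace M] [ChartedSpace (EE n) M]
    [IsManifold (𝓡 n) ∞ M] (T : ℝ) (F : M → ℝ → EE N) (ts κ₀ δ : ℝ) (c : ℕ → M)
    (χ : ℕ → M → ℝ), PU n c χ → PDat n T F ts κ₀ δ →
    ∃ p : ℕ, n < p ∧ 3 ≤ p ∧ ∃ C : ℝ, ∀ t ∈ Ico ts T,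
      ∫ q, thN n F q t ^ p * (‖HH (n := n) F q t‖ ^ 2) ^ ((n : ℝ) - p) ∂muM n F c χ t ≤ C

/-- THL (hLPH : StLPH)(hMVN : StMVN)(hPKD : StPKD)(hHTR : StHTR)(hMUJ)(hV5)(hSMF). Decay of `θ` relative to the maximum
of `Y`. As `Helper26/HSF/M_THD.lean`.

Proof. `M` with its Borel sets and a partition of unity (V5). `p, C₁` from LPH, `C₁ ≥ 1`. `u = θ^p`:
`htN u = pθ^(p-1)htN θ - p(p-1)θ^(p-2)|∇θ|² ≤ 2pθ^(p-1)R ≤ 20pYθ^p` (HTR with `ψ(x) = x^p`, PKD). `t₂ = (ts+T)/2`,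
`Λ₀ = max 1 (1/(t₂-ts))`. Let `t₀ ∈ [t₂,T)`, `Λ ≥ Λ₀`, `Y ≤ Λ` on `[ts,t₀]`, `t₁ = t₀ - 1/Λ ≥ ts`. MVC on `[t₁,t₀]`,
`κ = 20pΛ`, `κ(t₀-t₁) = 20p`: `θ(q,t₀)^p ≤ Cn e^(20p) Λ^(n/2) ∫θ^p dμ_{t₁}` (the exponential is `≤ 1`), and
`θ^p = (θ^pY^(n-p))Y^(p-n) ≤ (θ^pY^(n-p))Λ^(p-n)`. So `θ^p ≤ C₂Λ^(p-n/2)`, `θ ≤ C₃Λ^(1-σ)`, `σ = n/(2p) < 1/2`. -/
def StTHL : Prop := ∀ (n : ℕ), 2 ≤ n → ∀ (N : ℕ) (M : Type) [TopologicalSpace M] [T2Space M]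
    [CompactSpace M] [Nonempty M] [ChartedSpace (EE n) M]
    [IsManifold (𝓡 n) ∞ M] (T : ℝ) (F : M → ℝ → EE N) (ts κ₀ δ : ℝ),
    PDat n T F ts κ₀ δ → ∃ t₂ C σ Λ₀ : ℝ, t₂ ∈ Ioo ts T ∧ 1 ≤ C ∧ 0 < σ ∧ σ < 1 ∧ 1 ≤ Λ₀ ∧
    ∀ t₀ ∈ Ico t₂ T, ∀ Λ : ℝ, Λ₀ ≤ Λ →
    (∀ t ∈ Icc ts t₀, ∀ q, ‖HH (n := n) F q t‖ ^ 2 ≤ Λ) → ∀ q, thN n F q t₀ ≤ C * Λ ^ (1 - σ)

/-- GRB (hTHL : StTHL)(hPKD : StPKD)(hFZP : StFZP)(hHTR : StHTR)(hHSM : StHSM)(hSMF). Decay of `|∇^⊥H|²`.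

Proof. `t₂', C, σ, Λ₀'` from THL; `t₂ = (t₂'+T)/2`, `Λ₀ = max Λ₀' (1/(t₂-t₂'))`. Let `t₀ ∈ [t₂,T)`, `Λ ≥ Λ₀`, `Y ≤ Λ` on
`[ts,t₀]`, `t₁ = t₀ - 1/Λ ≥ t₂'`. THL at every `t ∈ [t₁,t₀]`: `θ(·,t) ≤ b := CΛ^(1-σ)`. `K₁ = 65n`, `B = 20K₁Λb`. FZP on
`[t₁,t₀]` for `u = (t-t₁)e + K₁θ - K₁b - η - (B+η)(t-t₁)`, `η > 0` (HSM: `e = eH` is smooth; HTR): `u(·,t₁) < 0`;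
everywhere on `[t₁,t₀]`, PKD: `htN u ≤ e + (t-t₁)·128nYG + K₁(-2G + 2R) - B - η ≤ 2nG + 128nG - 130nG + 20K₁Λb - B - η < 0`
(`e ≤ 2nG`, `(t-t₁)Y ≤ 1`, `G ≥ 0`, `2R ≤ 20Yθ ≤ 20Λb`). So at `t₀`: `e/Λ ≤ K₁b + η + (B+η)/Λ`, and `η → 0`:
`e ≤ Λ(K₁b + 20K₁b) = 21K₁CΛ^(2-σ)`. -/
def StGRB : Prop := ∀ (n : ℕ), 2 ≤ n → ∀ (N : ℕ) (M : Type) [TopologicalSpace M] [T2Space M]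
    [CompactSpace M] [Nonempty M] [ChartedSpace (EE n) M]
    [IsManifold (𝓡 n) ∞ M] (T : ℝ) (F : M → ℝ → EE N) (ts κ₀ δ : ℝ),
    PDat n T F ts κ₀ δ → ∃ t₂ C σ Λ₀ : ℝ, PD2 n T F ts κ₀ δ t₂ C σ Λ₀

end Helper35.HC
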