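import Mathlib
import Pool.Agent.Helper35.HC.StD

/-!
Project HC (MP_925021_gt), module statements, part E: an almost umbilical submanifold, with almost parallel mean
curvature at the scale of the maximum of `|H|`, is close to a round sphere (one time `t`, any codimension).

Every module proves `theorem hX : StX` from the listed hypotheses (any statements of PI, PI2, CL, MS, HSF may be
used as well).  COMPLETE proofs in the docstrings.  `Y = ‖HH‖²`, `θ = thN`, `e = eH = |∇^⊥H|²`, `Ĥ = HH/‖HH‖`.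
-/

set_option autoImplicit false

namespace Helper35.HC

open Helper35.PI Helper35.PI2 Helper32.CL Helper35.MS Helper35.HSF
open scoped ContDiff Manifold Topology ENNReal BigOperators
open MeasureTheory Set Filter

section DefsE

/-- the derivative at `q` in the preferred chart at `q` -/
noncomputable def cd (n : ℕ) {M V : Type} [TopologicalSpace M] [ChartedSpace (EE n) M]
    [NormedAddCommGroup V] [NormedSpace ℝ V] (u : M → V) (q : M) : EE n →L[ℝ] V :=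
  fderiv ℝ (fun z => u ((chartAt (EE n) q).symm z)) (chartAt (EE n) q q)

variable {N : ℕ} {M : Type} [TopologicalSpace M]

/-- `c = F + (n/|H|²) H`, the centre -/
noncomputable def cF (n : ℕ) [ChartedSpace (EE n) M] (F : M → ℝ → EE N) (q : M) (t : ℝ) :
    EE N := F q t + ((n : ℝ) / ‖HH (n := n) F q t‖ ^ 2) • HH (n := n) F q t
/-- `k = |H|/n` -/
noncomputable def kH (n : ℕ) [ChartedSpace (EE n) M] (F : M → ℝ → EE N) (q : M) (t : ℝ) : ℝ :=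
  ‖HH (n := n) F q t‖ / n
/-- `g_w`: squared norm of the projection of `w` to `T_qM + ℝH` -/
noncomputable def gw (n : ℕ) [ChartedSpace (EE n) M] (F : M → ℝ → EE N) (w : EE N) (q : M)
    (t : ℝ) : ℝ := ‖gdM n F t (fun p => (inner ℝ (F p t) w : ℝ)) q‖ ^ 2
  + (inner ℝ (HH (n := n) F q t) w : ℝ) ^ 2 / ‖HH (n := n) F q t‖ ^ 2

variable {n : ℕ}

/-- the adjoint of a linear isometry: orthogonal projection in coordinates -/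
noncomputable def Pj (L : EE (n + 1) →ₗᵢ[ℝ] EE N) : EE N →L[ℝ] EE (n + 1) :=
  ContinuousLinearMap.adjoint L.toContinuousLinearMap
/-- `Q v = v - L P v` -/
noncomputable def Qj (L : EE (n + 1) →ₗᵢ[ℝ] EE N) (v : EE N) : EE N := v - L (Pj L v)
/-- the tilt `Σ_i g_(Q e_i)` -/
noncomputable def tlt (n : ℕ) {N : ℕ} {M : Type} [TopologicalSpace M] [ChartedSpace (EE n) M]
    (F : M → ℝ → EE N) (L : EE (n + 1) →ₗᵢ[ℝ] EE N) (q : M) (t : ℝ) : ℝ :=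
  ∑ i : Fin N, gw n F (Qj L (ee i)) q t
/-- the good set -/
def K2 (n : ℕ) {N : ℕ} {M : Type} [TopologicalSpace M] [ChartedSpace (EE n) M]
    (F : M → ℝ → EE N) (L : EE (n + 1) →ₗᵢ[ℝ] EE N) (c₀ : EE N) (t l δ : ℝ) : Set M :=
  {q | (1 - δ) * l ≤ kH n F q t ∧ ‖cF n F q t - c₀‖ ≤ δ / l ∧ tlt n F L q t ≤ δ ^ 2}
/-- `F - c₀` projected to `ℝ^(n+1)` and normalised -/
noncomputable def prj (L : EE (n + 1) →ₗᵢ[ℝ] EE N) (c₀ : EE N) (F : M → ℝ → EE N) (t : ℝ)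
    (q : M) : EE (n + 1) := (1 / ‖Pj L (F q t - c₀)‖) • Pj L (F q t - c₀)

end DefsE

/-- data: `‖HH‖ ≤ n l` with equality at `q₀`, `θ ≤ ε²l²`, `|∇^⊥H|² ≤ ε²l⁴` at the time `t` -/
structure SLd (n : ℕ) {N : ℕ} {M : Type} [TopologicalSpace M] [ChartedSpace (EE n) M]
    (J : Set ℝ) (F : M → ℝ → EE N) (t l ε : ℝ) (q₀ : M) : Prop where
  fl : IsMCFJ (n := n) J F
  tJ : t ∈ J
  nz : ∀ q, ∀ s ∈ J, HH (n := n) F q s ≠ 0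
  l0 : 0 < l
  ε0 : 0 ≤ ε
  eq : ‖HH (n := n) F q₀ t‖ = n * l
  mx : ∀ q, ‖HH (n := n) F q t‖ ≤ n * l
  th : ∀ q, thN n F q t ≤ ε ^ 2 * l ^ 2
  eh : ∀ q, eH n F q t ≤ ε ^ 2 * l ^ 4

/-- CDG (hI2J)(hI3J)(hFR)(hNR). Gradients and derivatives in the chart.

Proof. `f = loc F q t`, `y = chart q q`, `f_m = dv1 f y m = cd F q (ee m)`; `LI` (`IsImmJ.imm`), `h = Σh_m ee m`. (1), (2):
definition of `TS`. (3) `gdM φ q = ΣG^km(cd φ q (ee k))f_m` has inner product `cd φ q (ee m)` with `f_m` (`G^{-1}G = 1`);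
linearity. (4) If `cd u q h ≠ 0` let `w = cd u q h/‖cd u q h‖`: `cd (⟨u,w⟩) q h = ⟨cd u q h,w⟩` (differentiability), so
`‖cd u q h‖ = ⟨gdM ⟨u,w⟩ q, cd F q h⟩ ≤ B‖cd F q h‖`. -/
def StCDG : Prop := ∀ (n N : ℕ) (M : Type) [TopologicalSpace M] [ChartedSpace (EE n) M]
    [IsManifold (𝓡 n) ∞ M] (J : Set ℝ) (F : M → ℝ → EE N), IsImmJ (n := n) J F →
    ∀ t ∈ J, ∀ q : M,
    DifferentiableAt ℝ (fun z => F ((chartAt (EE n) q).symm z) t) (chartAt (EE n) q q) ∧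
    (∀ h, cd n (fun p => F p t) q h ∈ TS (n := n) F q t) ∧
    (∀ v ∈ TS (n := n) F q t, ∃ h, cd n (fun p => F p t) q h = v) ∧
    (∀ h, cd n (fun p => F p t) q h = 0 → h = 0) ∧
    (∀ (φ : M → ℝ) (h : EE n),
      cd n φ q h = inner ℝ (gdM n F t φ q) (cd n (fun p => F p t) q h)) ∧
    ∀ (K : ℕ) (u : M → EE K),
      DifferentiableAt ℝ (fun z => u ((chartAt (EE n) q).symm z)) (chartAt (EE n) q q) →
      ∀ B : ℝ, 0 ≤ B →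
      (∀ w : EE K, ‖w‖ ≤ 1 → ‖gdM n F t (fun p => (inner ℝ (u p) w : ℝ)) q‖ ≤ B) →
      ∀ h, ‖cd n u q h‖ ≤ B * ‖cd n (fun p => F p t) q h‖

/-- LPG (hCDG : StCDG). Comparison of increments near a point.

Proof. In the chart, `y = chart q q`, `z` near `y`, `h = z - y`: `ΔF = F(symm z) t - F q t = cd F q h + o(‖h‖)`,
`Δu = cd u q h + o(‖h‖)`; `cd F q` is injective (CDG): `m‖h‖ ≤ ‖cd F q h‖`, `m > 0`. For `ω ≤ m/2` and `z` near `y` both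
errors are `≤ ω‖h‖`: `‖h‖ ≤ (2/m)‖ΔF‖`, `‖cd F q h‖ ≤ (1+2ω/m)‖ΔF‖`, so
`‖Δu‖ ≤ B‖cd F q h‖ + ω‖h‖ ≤ (B(1+2ω/m) + 2ω/m)‖ΔF‖`, and in the second case
`‖Δu‖ ≥ B‖cd F q h‖ - ω‖h‖ ≥ B(‖ΔF‖ - ω‖h‖) - ω‖h‖ ≥ (B - 2(B+1)ω/m)‖ΔF‖`; `ω` small. The chart is a homeomorphism
near `q`. -/
def StLPG : Prop := ∀ (n N : ℕ) (M : Type) [TopologicalSpace M] [ChartedSpace (EE n) M]
    [IsManifold (𝓡 n) ∞ M] (J : Set ℝ) (F : M → ℝ → EE N), IsImmJ (n := n) J F →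
    ∀ t ∈ J, ∀ (V : Type) [NormedAddCommGroup V] [NormedSpace ℝ V] (u : M → V) (q : M),
    DifferentiableAt ℝ (fun z => u ((chartAt (EE n) q).symm z)) (chartAt (EE n) q q) →
    ∀ B η : ℝ, 0 ≤ B → 0 < η →
    ((∀ h, ‖cd n u q h‖ ≤ B * ‖cd n (fun p => F p t) q h‖) →
      ∀ᶠ p in 𝓝 q, ‖u p - u q‖ ≤ (B + η) * ‖F p t - F q t‖) ∧
    ((∀ h, B * ‖cd n (fun p => F p t) q h‖ ≤ ‖cd n u q h‖) →
      ∀ᶠ p in 𝓝 q, (B - η) * ‖F p t - F q t‖ ≤ ‖u p - u q‖)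

/-- DR0 (hGCX : StGCX)(hGH)(hG1)(hG2)(hG3)(hG5)(hG7)(hG8)(hSM)(hNR)(hFR)(hC1)(hI2J)(hI3J)(hSMF)(hHSJ : StHSJ). Gradients of
`⟨F,w⟩`, `⟨HH,w⟩`, `|w^⊤|²`.

Proof. Smoothness: SMF (components of `HH`); in the chart at `p₀`, `‖gdM ⟨F,w⟩‖² = ΣG^kl⟨f_k,w⟩⟨f_l,w⟩` (`gdM ⟨F,w⟩` is the
tangential part of `w`, which does not depend on the chart), smooth in `(y,s)` (I2J, SM). At `(q,t)`: `L` (C1), chart
of GCX, `A = jgg u`, `T = jggg u`; values as in JPK (`thN = thA2 A` by G7, G8, `eH = eq2 T`: GCX and HSJ). Transfer: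
`gdM φ q = Σ_k jg(φ(θ z)z.2)(0,t) k • L e_k` for smooth `φ`. `φ = ⟨F,w⟩`: `F (θ z) z.2 = grf`, `∂_kgrf = L e_k` at the centre.
`φ = ⟨HH,w⟩`: `HH (θ z) z.2 = Hf z` (`GCh.hH`), GH: `jg Hf k = et T k - Σ_a⟨Hv A,A_ak⟩L e_a`. `φ = ‖HH‖²`: G8.
`φ = ‖gdM ⟨F,w⟩‖²`: `gdM ⟨F,w⟩ (θ z)` is the orthogonal projection of `w` to `TS F (θ z) z.2`, the span of the
`f_a = ∂_agrf(z)` (`GCh.ts`), so its squared norm is `ΣGIf_ab⟨w,f_a⟩⟨w,f_b⟩` near the centre; there `GI = 1`, `∂GI = 0` (G0,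
G5), `f_a = L e_a`, `∂_kf_a = A_ak`: `jg k = 2Σ_a⟨L e_a,w⟩⟨A_ak,w⟩`. -/
def StDR0 : Prop := ∀ (n N : ℕ), 1 ≤ n → ∀ (M : Type) [TopologicalSpace M]
    [ChartedSpace (EE n) M] [IsManifold (𝓡 n) ∞ M] (J : Set ℝ) (F : M → ℝ → EE N),
    IsMCFJ (n := n) J F →
    (∀ w : EE N, SmJ n J (fun q t => (inner ℝ (HH (n := n) F q t) w : ℝ)) ∧
      SmJ n J (fun q t => ‖gdM n F t (fun p => (inner ℝ (F p t) w : ℝ)) q‖ ^ 2)) ∧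
    ∀ (q : M) (t : ℝ), t ∈ J → ∃ (L : EE n →ₗᵢ[ℝ] EE N) (A : Fin n → Fin n → EE N)
      (T : Fin n → Fin n → Fin n → EE N), SymV A ∧ Sym3V T ∧
      (∀ i j v, (inner ℝ (A i j) (L v) : ℝ) = 0) ∧
      LinearMap.range L.toLinearMap = TS (n := n) F q t ∧
      AA (n := n) F q t = XX A ∧ HH (n := n) F q t = Hv A ∧
      thN n F q t = thA2 A ∧ eH n F q t = eq2 T ∧
      gdM n F t (fun p => ‖HH (n := n) F p t‖ ^ 2) q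
        = ∑ k, (2 * (inner ℝ (Hv A) (et T k) : ℝ)) • L (ee k) ∧
      ∀ w : EE N,
      gdM n F t (fun p => (inner ℝ (F p t) w : ℝ)) q
        = ∑ k, (inner ℝ (L (ee k)) w : ℝ) • L (ee k) ∧
      gdM n F t (fun p => (inner ℝ (HH (n := n) F p t) w : ℝ)) q
        = ∑ k, ((inner ℝ (et T k) w : ℝ)
          - ∑ a, (inner ℝ (Hv A) (A a k) : ℝ) * inner ℝ (L (ee a)) w) • L (ee k) ∧
      gdM n F t (fun q => ‖gdM n F t (fun p => (inner ℝ (F p t) w : ℝ)) q‖ ^ 2) q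
        = ∑ k, (2 * ∑ a, (inner ℝ (L (ee a)) w : ℝ) * inner ℝ (A a k) w) • L (ee k)

/-- DRV (hDR0 : StDR0)(hEPW : StEPW)(hHTR : StHTR)(hSMF). Gradients of `c`, `|H|`, `g_w`.

Proof. `Y = ‖HH‖² > 0` is smooth; `⟨c,w⟩ = ⟨F,w⟩ + nY⁻¹⟨HH,w⟩`, `kH = Y^(1/2)/n`, `gw = |w^⊤|² + Y⁻¹⟨HH,w⟩²` (EPW for powers of
`Y`, HTR products): smooth; all components of `cF` are. With DR0 at `(q,t)`, `w_k = ⟨L e_k,w⟩`, `H = Hv A`,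
`A_ak = a_ak + δ_akH/n` (`Σ|a_ak|² = θ`), `e_k = et T k`, `Σ‖e_k‖² = e`; `‖Σx_kL e_k‖² = Σx_k²`.
`∂_k⟨c,w⟩ = w_k + (n/Y)(⟨e_k,w⟩ - Σ_a⟨H,A_ak⟩w_a) - (2n/Y²)⟨H,w⟩⟨H,e_k⟩ = (n/Y)⟨e_k,w - 2⟨Ĥ,w⟩Ĥ⟩ - (n/Y)Σ_a⟨H,a_ak⟩w_a`
(`Σ_a⟨H,A_ak⟩w_a = Σ_a⟨H,a_ak⟩w_a + (Y/n)w_k`); the reflection `w - 2⟨Ĥ,w⟩Ĥ` has norm `≤ 1`, `Σw_a² ≤ 1`: Cauchy-Schwarz and
the triangle inequality in `ℝ^n`. `∂_kY = 2⟨H,e_k⟩`, `‖gdM kH‖ = ‖gdM Y‖/(2n√Y) ≤ √e/n`.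
`∂_kgw = 2Σ_aw_a⟨w,A_ak⟩ + (2/Y)⟨H,w⟩(⟨e_k,w⟩ - Σ_a⟨H,A_ak⟩w_a) - (2/Y²)⟨H,w⟩²⟨H,e_k⟩
= 2Σ_aw_a⟨w',a_ak⟩ + (2/Y)⟨H,w⟩⟨w',e_k⟩`, `w' = w - ⟨Ĥ,w⟩Ĥ`, `‖w'‖ ≤ 1`, `|⟨H,w⟩| ≤ √Y`. -/
def StDRV : Prop := ∀ (n N : ℕ), 1 ≤ n → ∀ (M : Type) [TopologicalSpace M]
    [ChartedSpace (EE n) M] [IsManifold (𝓡 n) ∞ M] (J : Set ℝ) (F : M → ℝ → EE N),
    IsMCFJ (n := n) J F → (∀ q, ∀ s ∈ J, HH (n := n) F q s ≠ 0) →
    SmV n J (cF n F) ∧ SmJ n J (kH n F) ∧ (∀ w : EE N, SmJ n J (gw n F w)) ∧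
    ∀ q, ∀ t ∈ J, 0 ≤ thN n F q t ∧ 0 ≤ eH n F q t ∧
      ‖gdM n F t (fun p => kH n F p t) q‖ ≤ Real.sqrt (eH n F q t) / n ∧
      ∀ w : EE N, ‖w‖ ≤ 1 →
      ‖gdM n F t (fun p => (inner ℝ (cF n F p t) w : ℝ)) q‖
        ≤ n * Real.sqrt (eH n F q t) / ‖HH (n := n) F q t‖ ^ 2
          + n * Real.sqrt (thN n F q t) / ‖HH (n := n) F q t‖ ∧
      ‖gdM n F t (fun p => gw n F w p t) q‖
        ≤ 2 * Real.sqrt (thN n F q t) + 2 * Real.sqrt (eH n F q t) / ‖HH (n := n) F q t‖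

/-- DRB (hDRV : StDRV)(hCDG : StCDG). The derivatives where `2k ≥ l`.

Proof. `‖HH‖ ≥ n l/2`, `√θ ≤ εl`, `√e ≤ εl²`, `n ≥ 2`. DRV: `‖gdM ⟨c,w⟩‖ ≤ 4ε/n + 2ε ≤ 4ε`; CDG (4). `|cd kH h| =
|⟨gdM kH,cd F h⟩| ≤ (εl²/n)‖cd F h‖`; `‖gdM gw‖ ≤ 2εl + 4εl/n ≤ 4εl`, `‖Q e_i‖ ≤ 1` (`L P` is the orthogonal projection to
`range L`: `P L = 1`), sum over `i`. Differentiability: smooth at the fixed time. -/
def StDRB : Prop := ∀ (n N : ℕ), 2 ≤ n → ∀ (M : Type) [TopologicalSpace M]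
    [ChartedSpace (EE n) M] [IsManifold (𝓡 n) ∞ M] (J : Set ℝ) (F : M → ℝ → EE N)
    (t l ε : ℝ) (q₀ : M), SLd n J F t l ε q₀ → ∀ L : EE (n + 1) →ₗᵢ[ℝ] EE N,
    Continuous (fun q => kH n F q t) ∧ Continuous (fun q => cF n F q t) ∧
    Continuous (fun q => tlt n F L q t) ∧
    ∀ q : M,
    DifferentiableAt ℝ (fun z => kH n F ((chartAt (EE n) q).symm z) t) (chartAt (EE n) q q) ∧
    DifferentiableAt ℝ (fun z => cF n F ((chartAt (EE n) q).symm z) t) (chartAt (EE n) q q) ∧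
    DifferentiableAt ℝ (fun z => tlt n F L ((chartAt (EE n) q).symm z) t)
      (chartAt (EE n) q q) ∧
    (l ≤ 2 * kH n F q t → ∀ h : EE n,
      ‖cd n (fun p => kH n F p t) q h‖ ≤ ε * l ^ 2 * ‖cd n (fun p => F p t) q h‖ ∧
      ‖cd n (fun p => cF n F p t) q h‖ ≤ 4 * ε * ‖cd n (fun p => F p t) q h‖ ∧
      ‖cd n (fun p => tlt n F L p t) q h‖
        ≤ 4 * N * ε * l * ‖cd n (fun p => F p t) q h‖)

/-- PIE (hCDG : StCDG)(hI2J). Pointwise estimates in the good set.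

Proof. `Q` is the orthogonal projection to `(range L)^⊥`. (1) `v = cd F q h ∈ TS`: `⟨v,w⟩ = ⟨v,gdM ⟨F,w⟩⟩` for all `w`
(CDG for `φ = ⟨F,w⟩`); `‖Q v‖² = Σ_i⟨Q v,e_i⟩² = Σ_i⟨v,Q e_i⟩² ≤ ‖v‖²Σ_i‖gdM ⟨F,Q e_i⟩‖² ≤ ‖v‖²δ²`; for `HH`:
`Σ_i⟨HH,Q e_i⟩² ≤ ‖HH‖²·tlt`. (2) `k = kH ∈ [(1-δ)l,l]`, `Ĥ = HH/‖HH‖`; `F - c₀ = -(1/k)Ĥ + (c - c₀)` (`(n/‖HH‖²)HH =
(1/k)Ĥ`), `‖c-c₀‖ ≤ δ/l`; `‖P Ĥ‖² = 1 - ‖Q Ĥ‖² ≥ 1 - δ²`, so `1 - δ ≤ ‖P Ĥ‖ ≤ 1`. `R = ‖P(F-c₀)‖ ≤ 1/k + δ/l ≤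
(1/l)(1/(1-δ) + δ) ≤ (1+3δ)/l`, `R ≥ (1-δ)/k - δ/l ≥ (1-2δ)/l`. (4) `‖Q(F-c₀)‖ ≤ δ/k + δ/l ≤ 3δ/l`,
`F - c₀ = L P(F-c₀) + Q(F-c₀)`, `P(F-c₀) = R·prj`, `|R - 1/l| ≤ 3δ/l`. (3) `x(q) = P(F q t - c₀)` is differentiable in the
chart, `cd x h = P v`; `cd prj h = (1/R)(P v - ⟨P v,prj⟩prj)`. `⟨v,Ĥ⟩ = 0`; `⟨P v,x⟩ = ⟨v,L P(F-c₀)⟩ = ⟨v,F-c₀⟩ -
⟨v,Q(F-c₀)⟩`, `|⟨v,F-c₀⟩| = |⟨v,c-c₀⟩| ≤ δ‖v‖/l`, `|⟨v,Q(F-c₀)⟩| = |⟨Q v,F-c₀⟩| ≤ δ‖v‖(1/k + δ/l) ≤ 2δ‖v‖/l`; so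
`|⟨P v,prj⟩| ≤ 3δ‖v‖/(l R) ≤ 4δ‖v‖`, `‖P v‖ ≥ (1-δ)‖v‖`, `‖cd prj h‖ ≥ (1/R)(1-5δ)‖v‖ ≥ l(1-5δ)/(1+3δ)‖v‖ ≥ (l/2)‖v‖`
(`δ ≤ 1/20`). -/
def StPIE : Prop := ∀ (n N : ℕ), 2 ≤ n → ∀ (M : Type) [TopologicalSpace M]
    [ChartedSpace (EE n) M] [IsManifold (𝓡 n) ∞ M] (J : Set ℝ) (F : M → ℝ → EE N)
    (t l ε : ℝ) (q₀ : M), SLd n J F t l ε q₀ → ∀ (L : EE (n + 1) →ₗᵢ[ℝ] EE N) (c₀ : EE N)
    (δ : ℝ), 0 < δ → δ ≤ 1 / 20 → ∀ q ∈ K2 n F L c₀ t l δ,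
    (∀ v ∈ TS (n := n) F q t, ‖Qj L v‖ ≤ δ * ‖v‖) ∧
    ‖Qj L (HH (n := n) F q t)‖ ≤ δ * ‖HH (n := n) F q t‖ ∧
    |l * ‖Pj L (F q t - c₀)‖ - 1| ≤ 3 * δ ∧
    ‖F q t - c₀ - (1 / l) • L (prj L c₀ F t q)‖ ≤ 6 * δ / l ∧
    DifferentiableAt ℝ (fun z => prj L c₀ F t ((chartAt (EE n) q).symm z))
      (chartAt (EE n) q q) ∧
    ∀ h, l / 2 * ‖cd n (fun p => F p t) q h‖ ≤ ‖cd n (prj L c₀ F t) q h‖

/-- KLP. Inverse function theorem on manifolds, at one point. The proof of `Helper95/HSF/M_KLO.lean` (it is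
pointwise: copy it, `f` smooth on an open set `W ∋ x`). -/
def StKLP : Prop := ∀ (n : ℕ) (M N : Type) [TopologicalSpace M] [ChartedSpace (EE n) M]
    [IsManifold (𝓡 n) ∞ M] [TopologicalSpace N] [ChartedSpace (EE n) N]
    [IsManifold (𝓡 n) ∞ N] (f : M → N) (W : Set M), IsOpen W →
    ContMDiffOn (𝓡 n) (𝓡 n) ∞ f W → ∀ x ∈ W,
    Function.Injective (mfderiv (𝓡 n) (𝓡 n) f x) →
    IsLocalDiffeomorphAt (𝓡 n) (𝓡 n) ∞ f x ∧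
    ∃ e : OpenPartialHomeomorph M N, x ∈ e.source ∧ EqOn f e e.source

/-- PIL (hPIE : StPIE)(hKLP : StKLP)(hCDG : StCDG). The projection to the sphere.

Proof. `π q = ⟨prj q,_⟩` where `x(q) = P(F q t - c₀) ≠ 0` (an open set, containing `K2` by PIE (3)), any point elsewhere. It
is smooth there (`ContMDiff.codRestrict_sphere`; as in `Helper76/HSF/M_KDF.lean`). Injective derivative at `q ∈ K2`:
if `mfderiv π q` vanishes on a vector, so does the derivative of `coe ∘ π = prj`, i.e. `cd prj q h = 0`, so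
`cd F q h = 0` (PIE, last statement) and `h = 0` (CDG). KLP. -/
def StPIL : Prop := ∀ (n N : ℕ), 2 ≤ n → ∀ (M : Type) [TopologicalSpace M]
    [ChartedSpace (EE n) M] [IsManifold (𝓡 n) ∞ M] (J : Set ℝ) (F : M → ℝ → EE N)
    (t l ε : ℝ) (q₀ : M), SLd n J F t l ε q₀ → ∀ (L : EE (n + 1) →ₗᵢ[ℝ] EE N) (c₀ : EE N)
    (δ : ℝ), 0 < δ → δ ≤ 1 / 20 → ∃ π : M → Metric.sphere (0 : EE (n + 1)) 1,
    ∀ q ∈ K2 n F L c₀ t l δ, ((π q : EE (n + 1)) = prj L c₀ F t q) ∧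
      ContMDiffAt (𝓡 n) (𝓡 n) ∞ π q ∧ IsLocalDiffeomorphAt (𝓡 n) (𝓡 n) ∞ π q ∧
      ∃ e : OpenPartialHomeomorph M (Metric.sphere (0 : EE (n + 1)) 1),
        q ∈ e.source ∧ EqOn π e e.source

/-- LFT. Lifting of paths (topology).

Proof. Let `A` be the set of `s ∈ [0,b]` with a continuous lift on `[0,s]` with values in `K`, starting at `q₀`. (U) Two
lifts on `[0,s]` agree: the set of agreement is closed (`M` is T2), contains `0` and is open in `[0,s]` (at `r` both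
values are `q ∈ e.source`; near `r` both lifts are in `e.source`, `e f = γ = e f'`, `e` is injective there). (O) If
`s ∈ A`, `s < b`, `f` the lift, `q = f s`, `e` at `q`: `γ s = e q ∈ e.target`, so for `r ≥ s` near `s`, `γ r ∈ e.target`,
`e.symm (γ r) → q` as `r → s`, so it lies in `K` by hypothesis; `f` on `[0,s]`, `e.symm ∘ γ` on `[s,s+ω]` is a lift:
`s + ω ∈ A`. (C) `s* = sup A`; by (U) there is a lift `f` on `[0,s*)`, `K`-valued. `M` compact, `K` closed: `f(s)` has a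
cluster point `q* ∈ K` as `s → s*-`; `e` at `q*`. `π = e` near `q*`, so `e(f s) = γ s` frequently, `e q* = γ s*` (`S` is
T2). There is `ω > 0` with `γ((s*-ω,s*]) ⊆ e.target`; `ψ = e.symm ∘ γ` is continuous there, `ψ s* = q*`. For some `s'` in
`(s*-ω,s*)` `f s' ∈ e.source`, so `f s' = ψ s'`; as in (U) `f = ψ` on `[s',s*)`. So `f` extends by `q*`: `s* ∈ A`. By (O)
`s* = b`. -/
def StLFT : Prop := ∀ (M S : Type) [TopologicalSpace M] [T2Space M] [CompactSpace M]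
    [TopologicalSpace S] [T2Space S] (K : Set M) (π : M → S), IsClosed K →
    (∀ q ∈ K, ∃ e : OpenPartialHomeomorph M S, q ∈ e.source ∧ EqOn π e e.source) →
    ∀ (γ : ℝ → S) (b : ℝ) (q₀ : M), 0 ≤ b → ContinuousOn γ (Icc 0 b) → q₀ ∈ K → π q₀ = γ 0 →
    (∀ s ∈ Icc 0 b, ∀ f : ℝ → M, ContinuousOn f (Icc 0 s) → f 0 = q₀ →
      (∀ r ∈ Icc 0 s, f r ∈ K ∧ π (f r) = γ r) → ∀ᶠ q in 𝓝 (f s), q ∈ K) →
    ∃ f : ℝ → M, ContinuousOn f (Icc 0 b) ∧ f 0 = q₀ ∧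
      ∀ r ∈ Icc 0 b, f r ∈ K ∧ π (f r) = γ r

/-- DIN. A growth lemma.

Proof. For every `η > 0` `‖f s - f a‖ ≤ (K+η)(s-a)` on `[a,b]`: the mean value inequality with a one-sided bound on the
difference quotients (`image_norm_le_of_liminf_right_slope_norm_lt_deriv_boundary` or a direct sup argument);
`η → 0`. -/
def StDIN : Prop := ∀ (V : Type) [NormedAddCommGroup V] [NormedSpace ℝ V] (f : ℝ → V)
    (a b K : ℝ), a ≤ b → 0 ≤ K → ContinuousOn f (Icc a b) →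
    (∀ s ∈ Ico a b, ∀ η : ℝ, 0 < η → ∀ᶠ r in 𝓝[>] s, ‖f r - f s‖ ≤ (K + η) * (r - s)) →
    ‖f b - f a‖ ≤ K * (b - a)

/-- STY (hPIE : StPIE)(hDRB : StDRB)(hLPG : StLPG)(hDIN : StDIN). Lifts of great circles stay in the interior of the
good set.

Proof. `γ s = cos s p₀ + sin s ξ` has unit speed: `‖γ r - γ s‖ ≤ |r - s|`. Let `r ∈ [0,s)`, `q = f r ∈ K2`, `2kH ≥ l`. For
`u = kH, cF, tlt` DRB gives `‖cd u h‖ ≤ B‖cd F h‖` with `B = εl², 4ε, 4Nεl`; PIE `(l/2)‖cd F h‖ ≤ ‖cd prj h‖`. LPG: for small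
`η`, `p` near `q`: `(l/2 - η)‖ΔF‖ ≤ ‖Δprj‖`, `‖Δu‖ ≤ (B+η)‖ΔF‖`. With `p = f r'`, `r' > r` near `r` (`f` continuous):
`‖u(f r') - u(f r)‖ ≤ ((B+η)/(l/2-η))(r'-r)`, and the quotient tends to `2B/l` as `η → 0`. DIN on `[0,s]`, `s ≤ π < 22/7`:
`‖u(f s) - u(q₀)‖ ≤ 2πB/l`. `36Nε ≤ δ² ≤ δ/20`, `N ≥ 1`: `2πεl < δl`, `8πε/l < δ/l`, `8πNε < δ²` (`8π < 36`, and `δ > 0` if
`ε = 0`). So at `f s` the three inequalities of `K2` are strict; the functions are continuous (DRB). -/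
def StSTY : Prop := ∀ (n N : ℕ), 2 ≤ n → ∀ (M : Type) [TopologicalSpace M]
    [ChartedSpace (EE n) M] [IsManifold (𝓡 n) ∞ M] (J : Set ℝ) (F : M → ℝ → EE N)
    (t l ε : ℝ) (q₀ : M), SLd n J F t l ε q₀ → ∀ (L : EE (n + 1) →ₗᵢ[ℝ] EE N)
    (δ : ℝ), 0 < δ → δ ≤ 1 / 20 → 36 * N * ε ≤ δ ^ 2 → tlt n F L q₀ t = 0 →
    ∀ ξ : EE (n + 1), ‖ξ‖ = 1 → (inner ℝ ξ (prj L (cF n F q₀ t) F t q₀) : ℝ) = 0 →
    ∀ s ∈ Icc 0 Real.pi, ∀ f : ℝ → M, ContinuousOn f (Icc 0 s) → f 0 = q₀ →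
    (∀ r ∈ Icc 0 s, f r ∈ K2 n F L (cF n F q₀ t) t l δ ∧
      prj L (cF n F q₀ t) F t (f r)
        = Real.cos r • prj L (cF n F q₀ t) F t q₀ + Real.sin r • ξ) →
    ∀ᶠ q in 𝓝 (f s), q ∈ K2 n F L (cF n F q₀ t) t l δ

/-- GCE (hCDG : StCDG)(hI3J)(hNR). The linear space at `q₀`.

Proof. `TS F q₀ t` has dimension `n` (LI), `HH q₀ ≠ 0` is orthogonal to it (NR; `HH` is a sum of normal vectors): an
orthonormal basis `b_1..b_n` of `TS` and `b_0 = Ĥ` give `L : EE (n+1) →ₗᵢ EE N`. `Q e_i ⟂ range L ∋ Ĥ`, `⊇ TS`, so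
`⟨HH,Q e_i⟩ = 0` and `gdM ⟨F,Q e_i⟩ q₀ = 0` (it is in `TS` and its product with `v = cd F q₀ h` is `⟨v,Q e_i⟩ = 0`, CDG). -/
def StGCE : Prop := ∀ (n N : ℕ), 2 ≤ n → ∀ (M : Type) [TopologicalSpace M]
    [ChartedSpace (EE n) M] [IsManifold (𝓡 n) ∞ M] (J : Set ℝ) (F : M → ℝ → EE N)
    (t l ε : ℝ) (q₀ : M), SLd n J F t l ε q₀ →
    1 ≤ N ∧ ∃ L : EE (n + 1) →ₗᵢ[ℝ] EE N, tlt n F L q₀ t = 0

/-- SEA. Lifts of all great circles from `π q₀` (topology).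

Proof. `A = {ξ : ‖ξ‖ = 1, ⟨ξ,π q₀⟩ = 0}` (subtype): the unit sphere of the orthogonal complement of `π q₀`, of dimension
`n ≥ 2`, so `A` is preconnected (`isConnected_sphere`). Let `U` be the union of the sources of the `e`'s for `q ∈ K`:
open, `π|U : U → S` is an `IsLocalHomeomorph`, `U` is T2. `f(s,ξ) = cos(πs)π q₀ + sin(πs)ξ : I × A → S` (unit vectors),
`g'(s,ξ) = f_ξ(πs) ∈ U`: continuous in `s` for each `ξ`, constant at `s = 0`, so continuous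
(`IsLocalHomeomorph.continuous_lift`, `IsSeparatedMap` since `U` is T2). At `s = 1`: `ξ ↦ g'(1,ξ)` and the constant map
`g'(1,ξ₀)` are continuous lifts of the same constant map `-π q₀`, equal at `ξ₀`, `A` preconnected: equal
(`IsSeparatedMap.eq_of_comp_eq`, local injectivity). `q₁ = g'(1,ξ₀)`. `g(s,ξ) = g'(s/π,ξ)`. -/
def StSEA : Prop := ∀ (n : ℕ), 2 ≤ n → ∀ (M : Type) [TopologicalSpace M] [T2Space M]
    (K : Set M) (π : M → Metric.sphere (0 : EE (n + 1)) 1) (q₀ : M), q₀ ∈ K →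
    (∀ q ∈ K, ∃ e : OpenPartialHomeomorph M (Metric.sphere (0 : EE (n + 1)) 1),
      q ∈ e.source ∧ EqOn π e e.source) →
    (∀ ξ : EE (n + 1), ‖ξ‖ = 1 → (inner ℝ ξ (π q₀ : EE (n + 1)) : ℝ) = 0 →
      ∃ f : ℝ → M, ContinuousOn f (Icc 0 Real.pi) ∧ f 0 = q₀ ∧
        ∀ s ∈ Icc 0 Real.pi, f s ∈ K ∧
          (π (f s) : EE (n + 1)) = Real.cos s • (π q₀ : EE (n + 1)) + Real.sin s • ξ) →
    ∃ (g : ℝ × EE (n + 1) → M) (q₁ : M), q₁ ∈ K ∧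
      ContinuousOn g (Icc 0 Real.pi ×ˢ
        {ξ : EE (n + 1) | ‖ξ‖ = 1 ∧ (inner ℝ ξ (π q₀ : EE (n + 1)) : ℝ) = 0}) ∧
      ∀ ξ : EE (n + 1), ‖ξ‖ = 1 → (inner ℝ ξ (π q₀ : EE (n + 1)) : ℝ) = 0 →
        g (0, ξ) = q₀ ∧ g (Real.pi, ξ) = q₁ ∧ ∀ s ∈ Icc 0 Real.pi, g (s, ξ) ∈ K ∧
          (π (g (s, ξ)) : EE (n + 1)) = Real.cos s • (π q₀ : EE (n + 1)) + Real.sin s • ξ

/-- SEB. The section of `π` (topology).

Proof. `A` as in SEA. `Q(s,ξ) = cos s π q₀ + sin s ξ` is a continuous surjective map from the compact space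
`[0,π] × A` to the sphere `S` (T2): a closed map, a quotient map. If `Q(s,ξ) = Q(s',ξ')` then `cos s = cos s'`, `s = s'`; if
`0 < s < π` also `ξ = ξ'`; if `s = 0` or `s = π`, `g(s,ξ) = g(s,ξ')` (`q₀` or `q₁`). So `g = σ ∘ Q` with a continuous
`σ : S → M`, `σ(S) ⊆ K`, `π ∘ σ = id`. `σ(S)` is open: let `q = σ x ∈ K`, `e` at `q`; for `y` near `x`, `σ y ∈ e.source`, so
`e(σ y) = π(σ y) = y`, `σ y = e.symm y`, and `e.symm` maps neighbourhoods of `x` in `e.target` to neighbourhoods of `q`. It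
is compact, closed, nonempty: `σ(S) = M`. So `K = M`; `π(σ x) = x` gives bijectivity. -/
def StSEB : Prop := ∀ (n : ℕ), 2 ≤ n → ∀ (M : Type) [TopologicalSpace M] [T2Space M]
    [ConnectedSpace M]
    (K : Set M) (π : M → Metric.sphere (0 : EE (n + 1)) 1) (q₀ q₁ : M), q₀ ∈ K →
    (∀ q ∈ K, ∃ e : OpenPartialHomeomorph M (Metric.sphere (0 : EE (n + 1)) 1),
      q ∈ e.source ∧ EqOn π e e.source) →
    ∀ g : ℝ × EE (n + 1) → M, ContinuousOn g (Icc 0 Real.pi ×ˢ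
        {ξ : EE (n + 1) | ‖ξ‖ = 1 ∧ (inner ℝ ξ (π q₀ : EE (n + 1)) : ℝ) = 0}) →
    (∀ ξ : EE (n + 1), ‖ξ‖ = 1 → (inner ℝ ξ (π q₀ : EE (n + 1)) : ℝ) = 0 →
        g (0, ξ) = q₀ ∧ g (Real.pi, ξ) = q₁ ∧ ∀ s ∈ Icc 0 Real.pi, g (s, ξ) ∈ K ∧
          (π (g (s, ξ)) : EE (n + 1)) = Real.cos s • (π q₀ : EE (n + 1)) + Real.sin s • ξ) →
    K = univ ∧ Function.Bijective π

/-- SPF (hGCE : StGCE)(hPIL : StPIL)(hLFT : StLFT)(hSTY : StSTY)(hSEA : StSEA)(hSEB : StSEB)(hPIE : StPIE)(hDRB : StDRB).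
Almost umbilical submanifolds are close to round spheres.

Proof. `L` from GCE, `c₀ = cF q₀ t`, `K = K2 n F L c₀ t l δ ∋ q₀` (`kH q₀ = l`), closed (DRB: continuous functions). `π` from
PIL. For every unit `ξ ⟂ π q₀ = prj q₀`: LFT with `S` the unit sphere, `γ s = cos s π q₀ + sin s ξ`, `b = π`, the
hypothesis is STY. SEA, SEB: `K = M`, `π` bijective. `π` is a bijective local diffeomorphism:
`IsLocalDiffeomorph.diffeomorphOfBijective`. `kH ≥ (1-δ)l` everywhere. Injectivity: `F q t = F q' t` gives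
`π q = π q'`. Closeness: PIE (4) with `y = π q`, and `π` is surjective. -/
def StSPF : Prop := ∀ (n N : ℕ), 2 ≤ n → ∀ (M : Type) [TopologicalSpace M] [T2Space M]
    [CompactSpace M] [ConnectedSpace M] [ChartedSpace (EE n) M] [IsManifold (𝓡 n) ∞ M]
    (J : Set ℝ) (F : M → ℝ → EE N)
    (t l ε : ℝ) (q₀ : M), SLd n J F t l ε q₀ → ∀ δ : ℝ, 0 < δ → δ ≤ 1 / 20 →
    36 * N * ε ≤ δ ^ 2 →
    (∀ q, (1 - δ) * (n * l) ≤ ‖HH (n := n) F q t‖) ∧ Function.Injective (fun q => F q t) ∧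
    Nonempty (M ≃ₘ⟮𝓡 n, 𝓡 n⟯ (Metric.sphere (0 : EE (n + 1)) 1)) ∧
    ∃ (L : EE (n + 1) →ₗᵢ[ℝ] EE N) (c₀ : EE N), (∀ q, ‖cF n F q t - c₀‖ ≤ δ / l) ∧
      (∀ q, ∃ y : EE (n + 1), ‖y‖ = 1 ∧ ‖F q t - c₀ - (1 / l) • L y‖ ≤ 6 * δ / l) ∧
      ∀ y : EE (n + 1), ‖y‖ = 1 → ∃ q, ‖F q t - c₀ - (1 / l) • L y‖ ≤ 6 * δ / l

end Helper35.HC
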