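import Mathlib
import Pool.Agent.Helper35.HC.StE

/-!
Project HC (MP_925021_gt), module statements, part F: rates of convergence in `ℝ^N`, the limit point, the limit of the
rescaled flow.

Every module proves `theorem hX : StX` from the listed hypotheses (any statements of PI, PI2, CL, MS, HSF may be
used as well).  COMPLETE proofs in the docstrings.  `Y = ‖HH‖²`, `θ = thN`, `e = eH`, `s = T - t`,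
`K₂ = n(n+2)/(2(n-1))`, `Z̃ = Y - K₂θ`.
-/

set_option autoImplicit false

namespace Helper35.HC

open Helper35.PI Helper35.PI2 Helper32.CL Helper35.MS Helper35.HSF
open scoped ContDiff Manifold Topology ENNReal BigOperators
open MeasureTheory Set Filter

section DefsF

variable {N : ℕ} {M : Type} [TopologicalSpace M]

/-- `Z̃ = Y - K₂θ` -/
noncomputable def ZT (n : ℕ) [ChartedSpace (EE n) M] (F : M → ℝ → EE N) (q : M) (t : ℝ) : ℝ :=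
  ‖HH (n := n) F q t‖ ^ 2 - n * (n + 2) / (2 * ((n : ℝ) - 1)) * thN n F q t

end DefsF

/-- the rates -/
structure PD3 (n : ℕ) {N : ℕ} {M : Type} [TopologicalSpace M] [ChartedSpace (EE n) M] (T : ℝ)
    (F : M → ℝ → EE N) (t₄ C α : ℝ) : Prop where
  fl : IsMCFJ (n := n) (Ioo 0 T) F
  T1 : T ≤ 1
  t4 : t₄ ∈ Ioo 0 T
  C1 : 1 ≤ C
  α0 : 0 < α
  α1 : α < 1
  Y1 : ∀ t ∈ Ioo 0 T, ∀ q, 1 ≤ ‖HH (n := n) F q t‖ ^ 2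
  yy : ∀ t ∈ Ico t₄ T, ∀ q,
    |2 / n * ((T - t) * ‖HH (n := n) F q t‖ ^ 2) - 1| ≤ C * (T - t) ^ α
  th : ∀ t ∈ Ico t₄ T, ∀ q, thN n F q t ≤ C * (T - t) ^ (α - 1)
  eh : ∀ t ∈ Ico t₄ T, ∀ q, eH n F q t ≤ C * (T - t) ^ (α - 2)
  sm : C * (T - t₄) ^ α ≤ 1 / 2

/-- MNP (hPKD : StPKD)(hFZP : StFZP)(hHTR : StHTR)(hSMF)(hI4J). Minimum principle for `Z̃`. Compare
`Helper8/HSF/M_TYI.lean`.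

Proof. PKD: `htN Z̃ = -2e + 2wY - K₂(-2G + 2R) ≥ 2(wY - K₂R)` (`e ≤ K₂G`). Where `Y ≥ κ₀`: `R ≤ θw - δYa`, so
`wY - K₂R ≥ wZ̃ ≥ (Y/n)Z̃`, and if `Z̃ > 0` this is `≥ Z̃²/n` (`Y ≥ Z̃` as `θ ≥ 0`). Let `η ∈ (0,1)` with `(1-η)z₀ > κ₀`,
`y(t) = (((1-η)z₀)⁻¹ - (1-η)(2/n)(t-t₀))⁻¹`: `y' = (1-η)(2/n)y²`, increasing, `y(t₀) = (1-η)z₀`, blow-up at
`tb = t₀ + n/(2(1-η)²z₀)`. For `t' < min T tb` FZP on `[t₀,t']` (on an open set of times where `y` is smooth) for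
`u = y - Z̃`: `u(·,t₀) < 0`; where `u = 0`: `Z̃ = y > 0`, `Y ≥ Z̃ = y > κ₀`, `htN u ≤ (1-η)(2/n)y² - (2/n)y² < 0`. So `Z̃ > y`
on `[t₀,min T tb)`. If `tb < T`, `Z̃` would be unbounded on the compact `M × [t₀,tb]` (`M` nonempty). So `tb ≥ T`, i.e.
`(2/n)(1-η)²z₀(T-t₀) ≤ 1`, and `Z̃ ≥ (1-η)z₀` on `[t₀,T)`; `η → 0`. -/
def StMNP : Prop := ∀ (n : ℕ), 2 ≤ n → ∀ (N : ℕ) (M : Type) [TopologicalSpace M] [T2Space M]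
    [CompactSpace M] [Nonempty M] [ChartedSpace (EE n) M] [IsManifold (𝓡 n) ∞ M]
    (T : ℝ) (F : M → ℝ → EE N) (ts κ₀ δ : ℝ), PDat n T F ts κ₀ δ →
    ∀ t₀ ∈ Ico ts T, ∀ z₀ : ℝ, 0 < z₀ → κ₀ < z₀ → (∀ q, z₀ ≤ ZT n F q t₀) →
    2 / n * (z₀ * (T - t₀)) ≤ 1 ∧ ∀ t ∈ Ico t₀ T, ∀ q, z₀ ≤ ZT n F q t

/-- RCM (hSPF : StSPF)(hPKD : StPKD). Record times.

Proof. Let `l = √Λ/n`, `‖HH q₀‖ = √Λ = n l`, `‖HH q‖ ≤ n l`. PD2 with `Λ`: `θ ≤ CΛ^(1-σ)`, `e ≤ CΛ^(2-σ)`.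
`ε = √C n² Λ^(-σ/2)`: `ε²l² = Cn²Λ^(1-σ) ≥ θ`, `ε²l⁴ = CΛ^(2-σ) ≥ e`. So `SLd n (Ioo 0 T) F t₀ l ε q₀` (`HH ≠ 0` by
`PDat.Y1`). `δ' = √(36Nε) = 6√N C^(1/4) n Λ^(-σ/4)`, `≤ 1/20` for `Λ ≥ Λ₁` (`N ≥ 1`, as `TS` has dimension `n`; or
take `δ' = 6√(N+1) ...`). SPF: `‖HH‖ ≥ (1-δ')√Λ`, `Y ≥ (1-2δ')Λ`. `K₂θ ≤ K₂CΛ^(1-σ) ≤ K₂CΛ^(1-σ/4)`. `σ' = σ/4`,
`C' = 12√(N+1) C^(1/4) n + K₂C`. -/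
def StRCM : Prop := ∀ (n : ℕ), 2 ≤ n → ∀ (N : ℕ) (M : Type) [TopologicalSpace M] [T2Space M]
    [CompactSpace M] [ConnectedSpace M] [ChartedSpace (EE n) M] [IsManifold (𝓡 n) ∞ M]
    (T : ℝ) (F : M → ℝ → EE N) (ts κ₀ δ t₂ C σ Λ₀ : ℝ), PD2 n T F ts κ₀ δ t₂ C σ Λ₀ →
    ∃ C' σ' Λ₁ : ℝ, 0 < C' ∧ 0 < σ' ∧ σ' ≤ σ ∧ Λ₀ ≤ Λ₁ ∧
    (∀ Λ : ℝ, Λ₁ ≤ Λ → C' * Λ ^ (-σ') ≤ 1 / 2) ∧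
    ∀ t₀ ∈ Ico t₂ T, ∀ (q₀ : M) (Λ : ℝ), Λ = ‖HH (n := n) F q₀ t₀‖ ^ 2 → Λ₁ ≤ Λ →
      (∀ t ∈ Icc ts t₀, ∀ q, ‖HH (n := n) F q t‖ ^ 2 ≤ Λ) →
      ∀ q, (1 - C' * Λ ^ (-σ')) * Λ ≤ ZT n F q t₀

/-- CMP (hRCM : StRCM)(hMNP : StMNP)(hSMF)(hI4J). The running maximum and the minimum are comparable.

Proof. RCM: `C', σ', Λ₁`; enlarge `Λ₁` such that `Λ₁ > 2|κ₀| + 2`. Let `B` be the maximum of `Y` on `M × [ts,t₂]`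
(compact). `unb`: `Y(q,t') > max B Λ₁` for some `t' ∈ (t₂,T)`. `(q₃,t₃)`: a maximum point of `Y` on `M × [ts,t']`, so
`t₃ > t₂`, `Y(q₃,t₃) ≥ Λ₁`. Let `t ∈ [t₃,T)`, `(q*,t*)` a maximum point of `Y` on `M × [ts,t]`; if `t* < t₃` then
`Y(q*,t*) ≤ Y(q₃,t₃)` and `(q₃,t₃)` is also a maximum point: take it. So `t* ∈ [t₃,t]`, `Λ = Y(q*,t*) ≥ Λ₁`. RCM at `t*`:
`Z̃(·,t*) ≥ z₀ = (1 - C'Λ^(-σ'))Λ ≥ Λ/2 > |κ₀|`. MNP from `t*`: `Z̃(·,t) ≥ z₀`, `(2/n)z₀(T-t) ≤ (2/n)z₀(T-t*) ≤ 1`. The last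
two: `PD2.th`, `PD2.eh` (`Λ ≥ Λ₀`). -/
def StCMP : Prop := ∀ (n : ℕ), 2 ≤ n → ∀ (N : ℕ) (M : Type) [TopologicalSpace M] [T2Space M]
    [CompactSpace M] [ConnectedSpace M] [ChartedSpace (EE n) M] [IsManifold (𝓡 n) ∞ M]
    (T : ℝ) (F : M → ℝ → EE N) (ts κ₀ δ t₂ C σ Λ₀ : ℝ), PD2 n T F ts κ₀ δ t₂ C σ Λ₀ →
    ∃ C' σ' t₃ : ℝ, 0 < C' ∧ 0 < σ' ∧ σ' ≤ σ ∧ t₃ ∈ Ico t₂ T ∧
    ∀ t ∈ Ico t₃ T, ∃ Λ : ℝ, 1 ≤ Λ ∧ C' * Λ ^ (-σ') ≤ 1 / 2 ∧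
      (∀ q, ‖HH (n := n) F q t‖ ^ 2 ≤ Λ) ∧ 2 / n * ((1 - C' * Λ ^ (-σ')) * Λ * (T - t)) ≤ 1 ∧
      ∀ q, (1 - C' * Λ ^ (-σ')) * Λ ≤ ‖HH (n := n) F q t‖ ^ 2 ∧
        thN n F q t ≤ C * Λ ^ (1 - σ) ∧ eH n F q t ≤ C * Λ ^ (2 - σ)

/-- LOB (hCMP : StCMP)(hPKD : StPKD)(hFZP : StFZP)(hHTR : StHTR)(hSMF)(hI4J). Lower bound for the maximum.

Proof. CMP: `Λ/2·(2/n)(T-t) ≤ 1`: `Λ ≤ n/(T-t)`, `θ ≤ CΛ^(1-σ) ≤ Cn(T-t)^(σ-1)` on `[t₃,T)`. PKD (`w ≤ θ + Y/n`):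
`htN Y ≤ 2wY ≤ (2/n)Y² + K(T-t)^(σ-1)Y`, `K = 2Cn`. `ψ(t) = exp((K/σ)(T-t)^σ) ≥ 1`, `ψ' = -K(T-t)^(σ-1)ψ`; `Ỹ = ψY`:
`htN Ỹ ≤ ψ(2/n)Y² ≤ (2/n)Ỹ²` (HTR). Let `t₀ ∈ [t₃,T)` and suppose `(2/n)(T-t₀)Ỹ(q,t₀) < 1` for all `q`. `M` compact: there are
`y₀ > max Ỹ(·,t₀)`, `η > 0` with `(1+η)(2/n)(T-t₀)y₀ < 1`. `y(t) = (1/y₀ - (1+η)(2/n)(t-t₀))⁻¹` is smooth and positive on
a neighbourhood of `(0,T]`, `y' = (1+η)(2/n)y²`. FZP for `u = Ỹ - y` on `[t₀,t']`, `t' < T`: where `u = 0`,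
`htN u ≤ (2/n)y² - (1+η)(2/n)y² < 0`. So `Y ≤ Ỹ < y ≤ y(T)` on `[t₀,T)`: contradiction to `unb`. So there is `q` with
`(2/n)(T-t₀)Y(q,t₀) ≥ 1/ψ(t₀) ≥ 1 - (K/σ)(T-t₀)^σ`. -/
def StLOB : Prop := ∀ (n : ℕ), 2 ≤ n → ∀ (N : ℕ) (M : Type) [TopologicalSpace M] [T2Space M]
    [CompactSpace M] [ConnectedSpace M] [ChartedSpace (EE n) M] [IsManifold (𝓡 n) ∞ M]
    (T : ℝ) (F : M → ℝ → EE N) (ts κ₀ δ t₂ C σ Λ₀ : ℝ), PD2 n T F ts κ₀ δ t₂ C σ Λ₀ →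
    ∃ C₂ t₃ : ℝ, 0 < C₂ ∧ t₃ ∈ Ico t₂ T ∧ ∀ t ∈ Ico t₃ T, ∃ q,
      1 - C₂ * (T - t) ^ σ ≤ 2 / n * ((T - t) * ‖HH (n := n) F q t‖ ^ 2)

/-- RTE (hGRB : StGRB)(hCMP : StCMP)(hLOB : StLOB). The rates.

Proof. GRB: `PD2`. CMP, LOB, the larger `t₃`; `s = T-t ≤ 1`. The point `q*` of LOB: `Λ ≥ Y(q*)`, `(2/n)sΛ ≥ 1 - C₂s^σ ≥ 1/2`
for `t` near `T`: `Λ ≥ n/(4s) ≥ 1/(2s)`, `Λ^(-σ') ≤ 2s^σ'`. Lower bound: `(2/n)sY ≥ (2/n)s(1-C'Λ^(-σ'))Λ ≥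
(1 - 2C's^σ')(1 - C₂s^σ)`. Upper bound: `(2/n)sY ≤ (2/n)sΛ ≤ 1/(1-C'Λ^(-σ')) ≤ 1 + 2C'Λ^(-σ') ≤ 1 + 4C's^σ'`. `Λ ≤ n/s`:
`θ ≤ CΛ^(1-σ) ≤ Cn s^(σ-1)`, `e ≤ CΛ^(2-σ) ≤ Cn²s^(σ-2)`. `α = min σ σ'` (`= σ'`), `s^σ ≤ s^α`; `t₄` so near to `T` that `sm`
holds for the final constant. -/
def StRTE : Prop := ∀ (n : ℕ), 2 ≤ n → ∀ (N : ℕ) (M : Type) [TopologicalSpace M] [T2Space M]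
    [CompactSpace M] [ConnectedSpace M] [ChartedSpace (EE n) M] [IsManifold (𝓡 n) ∞ M]
    (T : ℝ) (F : M → ℝ → EE N) (ts κ₀ δ : ℝ), PDat n T F ts κ₀ δ →
    ∃ t₄ C α : ℝ, ts ≤ t₄ ∧ PD3 n T F t₄ C α

/-- SPT (hSPF : StSPF). The sphere lemma at every late time.

Proof. `q₀` a maximum point of `Y(·,t)` (compact `M`), `l = ‖HH q₀‖/n`, `s = T-t`, `2nsl² = 1 + ω`, `|ω| ≤ Cs^α ≤ 1/2` (`yy`):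
`1/s ≤ 4nl²`, `1/l ≤ 2√(ns)`. `θ ≤ Cs^(α-1) ≤ 4nCs^α l²`, `e ≤ Cs^(α-2) ≤ 16n²Cs^α l⁴`: `ε = 4n√C s^(α/2)`,
`SLd n (Ioo 0 T) F t l ε q₀`. `δ = √(36(N+1)ε)`, `= C₁s^(α/4)`, `≤ 1/20` for `t ≥ t₅`. SPF. `δ/l ≤ C₂s^(1/2+α/4)`;
`1/l = √(2ns)/√(1+ω)`, `|1/√(1+ω) - 1| ≤ |ω|` for `|ω| ≤ 1/2`: `|1/l - √(2ns)| ≤ √(2ns)Cs^α`, and `‖(1/l)L y - √(2ns)L y‖`
is this number. -/
def StSPT : Prop := ∀ (n : ℕ), 2 ≤ n → ∀ (N : ℕ) (M : Type) [TopologicalSpace M] [T2Space M]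
    [CompactSpace M] [ConnectedSpace M] [ChartedSpace (EE n) M] [IsManifold (𝓡 n) ∞ M]
    (T : ℝ) (F : M → ℝ → EE N) (t₄ C α : ℝ), PD3 n T F t₄ C α →
    ∃ t₅ C' : ℝ, t₅ ∈ Ico t₄ T ∧ 0 < C' ∧ ∀ t ∈ Ico t₅ T,
      Function.Injective (fun q => F q t) ∧
      Nonempty (M ≃ₘ⟮𝓡 n, 𝓡 n⟯ (Metric.sphere (0 : EE (n + 1)) 1)) ∧
      ∃ (L : EE (n + 1) →ₗᵢ[ℝ] EE N) (c₀ : EE N),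
        (∀ q, ‖cF n F q t - c₀‖ ≤ C' * (T - t) ^ (1 / 2 + α / 4)) ∧
        (∀ q, ∃ y : EE (n + 1), ‖y‖ = 1 ∧
          ‖F q t - c₀ - Real.sqrt (2 * n * (T - t)) • L y‖ ≤ C' * (T - t) ^ (1 / 2 + α / 4)) ∧
        ∀ y : EE (n + 1), ‖y‖ = 1 → ∃ q,
          ‖F q t - c₀ - Real.sqrt (2 * n * (T - t)) • L y‖ ≤ C' * (T - t) ^ (1 / 2 + α / 4)

/-- HFP (hGCX : StGCX)(hC1)(hSMF)(hG1)(hG7). Heat operator of `|F - p|²`.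

Proof. Smooth: SMF. Chart of GCX at `(q,t)`: `φ(z) = ‖grf - p‖²`, `grf = x₀ + L z.1 + u z`; at the centre `u = 0`, `jg u = 0`,
`jt u = Σ_kjgg u k k` (`pde`, the Gram matrix is `1`): `jt φ = 2⟨x₀-p,jt u⟩`, `jgg φ k k = 2⟨L e_k,L e_k⟩ + 2⟨x₀-p,jgg u k k⟩`
(`= 2 + ..`): `jh φ = -2n`. -/
def StHFP : Prop := ∀ (n N : ℕ), 1 ≤ n → ∀ (M : Type) [TopologicalSpace M]
    [ChartedSpace (EE n) M] [IsManifold (𝓡 n) ∞ M] (J : Set ℝ) (F : M → ℝ → EE N),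
    IsMCFJ (n := n) J F → ∀ (p : EE N), SmJ n J (fun q t => ‖F q t - p‖ ^ 2) ∧
    ∀ q, ∀ t ∈ J, htN n F (fun q t => ‖F q t - p‖ ^ 2) q t = -2 * n

/-- LIM (hSPT : StSPT)(hHFP : StHFP)(hFZP : StFZP)(hHTR : StHTR)(hSMF). The limit point. Compare
`Helper72/HSF/M_FLM.lean`.

Proof. `s = T-t`, `‖HH‖² ≤ (n/(2s))(3/2) ≤ n/s` (`yy`, `sm`), `∂_tF = HH`: `‖F(q,t') - F(q,t)‖ ≤ 2√n√s` for `t₄ ≤ t ≤ t' < T`,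
so `F(q,t) → X q`, `‖F(q,t) - X q‖ ≤ 2√n√s`. SPT: `‖F q t - F p t‖ ≤ 2√(2ns) + 2C's^(1/2+α/4) → 0`, so `X` is constant, `= x`.
Let `t ∈ [t₅,T)`, `c₀ = c₀(t)` of SPT: `‖F q t - c₀‖ ≤ √(2ns) + C's^(1/2+α/4)`, squared `≤ 2ns + C₁s^(1+α/4)`. FZP on
`[t,t']`, `t' < T`, for `u = ‖F-c₀‖² + 2n(τ-t) - 2ns - C₁s^(1+α/4) - ω(1+τ-t)`, `ω > 0` (HFP, HTR: `htN u = -ω`):
`‖F(q,t')-c₀‖² + 2n(t'-t) ≤ 2ns + C₁s^(1+α/4) + 2ω`; `ω → 0`, `t' → T`: `‖x-c₀‖² ≤ C₁s^(1+α/4)`,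
`‖x-c₀‖ ≤ √C₁ s^(1/2+α/8)`. Triangle inequality with SPT (`s^(α/4) ≤ s^(α/8)`). -/
def StLIM : Prop := ∀ (n : ℕ), 2 ≤ n → ∀ (N : ℕ) (M : Type) [TopologicalSpace M] [T2Space M]
    [CompactSpace M] [ConnectedSpace M] [ChartedSpace (EE n) M] [IsManifold (𝓡 n) ∞ M]
    (T : ℝ) (F : M → ℝ → EE N) (t₄ C α : ℝ), PD3 n T F t₄ C α →
    ∃ (x : EE N) (t₅ C' : ℝ), t₅ ∈ Ico t₄ T ∧ 0 < C' ∧ ∀ t ∈ Ico t₅ T,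
      Function.Injective (fun q => F q t) ∧
      Nonempty (M ≃ₘ⟮𝓡 n, 𝓡 n⟯ (Metric.sphere (0 : EE (n + 1)) 1)) ∧
      (∀ q, ‖F q t - x‖ ≤ C' * Real.sqrt (T - t) ∧
        ‖cF n F q t - x‖ ≤ C' * (T - t) ^ (1 / 2 + α / 8)) ∧
      ∃ L : EE (n + 1) →ₗᵢ[ℝ] EE N,
        (∀ q, ∃ y : EE (n + 1), ‖y‖ = 1 ∧
          ‖F q t - x - Real.sqrt (2 * n * (T - t)) • L y‖ ≤ C' * (T - t) ^ (1 / 2 + α / 8)) ∧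
        ∀ y : EE (n + 1), ‖y‖ = 1 → ∃ q,
          ‖F q t - x - Real.sqrt (2 * n * (T - t)) • L y‖ ≤ C' * (T - t) ^ (1 / 2 + α / 8)

/-- LMN. The rescaled flow converges. As `Helper31/MS/M_LMK.lean` (`StLMK`, `n = 2`).

Proof. `Φ = (F-x)/√(2ns)`, `∂_tΦ = (1/√(2ns))(HH + (F-x)/(2s))`, `‖∂_tΦ‖ ≤ (C/√(2n))s^(β-1)`; `Γ(t) = -(C/(√(2n)β))s^β` has
this derivative: `‖Φ(q,t') - Φ(q,t)‖ ≤ Γ(t') - Γ(t)`, `Φ` is uniformly Cauchy, the limit is continuous, and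
`‖Φ(q,t) - G q‖ ≤ (C/(√(2n)β))s^β`. -/
def StLMN : Prop := ∀ (n : ℕ), 1 ≤ n → ∀ (N : ℕ) (M : Type) [TopologicalSpace M]
    [ChartedSpace (EE n) M] [IsManifold (𝓡 n) ∞ M]
    (T : ℝ) (F : M → ℝ → EE N), IsMCFJ (n := n) (Ioo 0 T) F →
    ∀ (x : EE N) (C β ts : ℝ), 0 < C → 0 < β → ts ∈ Ioo 0 T →
    (∀ t ∈ Ico ts T, ∀ q, ‖HH (n := n) F q t + (1 / (2 * (T - t))) • (F q t - x)‖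
      ≤ C * (T - t) ^ (β - 1 / 2)) →
    ∃ (G : M → EE N) (C' : ℝ), Continuous G ∧ 0 < C' ∧ ∀ t ∈ Ico ts T, ∀ q,
      ‖(1 / Real.sqrt (2 * n * (T - t))) • (F q t - x) - G q‖ ≤ C' * (T - t) ^ β

/-- LSN. The limit is a round sphere. As `Helper31/MS/M_LMS.lean` (`StLMS`, `n = 2`), `3` replaced by `n + 1`. -/
def StLSN : Prop := ∀ (n N : ℕ) (M : Type) [TopologicalSpace M] [CompactSpace M] [Nonempty M]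
    (G : M → EE N), Continuous G →
    (∀ η : ℝ, 0 < η → ∃ (Φ : M → EE N) (L : EE (n + 1) →ₗᵢ[ℝ] EE N),
      (∀ q, ‖Φ q - G q‖ ≤ η) ∧
      (∀ q, ∃ y : EE (n + 1), ‖y‖ = 1 ∧ ‖Φ q - L y‖ ≤ η) ∧
      ∀ y : EE (n + 1), ‖y‖ = 1 → ∃ q, ‖Φ q - L y‖ ≤ η) →
    ∃ L : EE (n + 1) →ₗᵢ[ℝ] EE N, range G = L '' Metric.sphere (0 : EE (n + 1)) 1

/-- RNT (hRTE : StRTE)(hLIM : StLIM)(hLMN : StLMN)(hLSN : StLSN). Convergence in `ℝ^N`.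

Proof. RTE: `PD3`; LIM: `x`. `s = T-t`. `cF - F = (n/Y)HH`, so `HH + (F-x)/(2s) = (Y/n)(cF - x) - (Y/n - 1/(2s))(F - x)`;
`Y/n ≤ 1/s` (`yy`, `sm`), `|Y/n - 1/(2s)| = (1/(2s))|(2/n)sY - 1| ≤ (C/2)s^(α-1)`: the norm is
`≤ C's^(α/8-1/2) + (C/2)C's^(α-1/2) ≤ C₁s^(α/8-1/2)`. LMN (`β = α/8`): `G`. LSN with `Φ q = (1/√(2ns))(F q t - x)`, `t` near
`T`: `‖Φ - G‖ ≤ C s^β`, `‖Φ q - L y‖ ≤ C's^(1/2+α/8)/√(2ns)`, small. The rates: `sθ ≤ Cs^α`, `yy`; exponent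
`α/8`, `s ≤ 1`. -/
def StRNT : Prop := ∀ (n : ℕ), 2 ≤ n → ∀ (N : ℕ) (M : Type) [TopologicalSpace M] [T2Space M]
    [CompactSpace M] [ConnectedSpace M] [ChartedSpace (EE n) M] [IsManifold (𝓡 n) ∞ M]
    (T : ℝ) (F : M → ℝ → EE N) (ts κ₀ δ : ℝ), PDat n T F ts κ₀ δ →
    Nonempty (M ≃ₘ⟮𝓡 n, 𝓡 n⟯ (Metric.sphere (0 : EE (n + 1)) 1)) ∧
    ∃ (x : EE N) (G : M → EE N) (L : EE (n + 1) →ₗᵢ[ℝ] EE N) (C α t' : ℝ), Continuous G ∧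
      range G = L '' Metric.sphere (0 : EE (n + 1)) 1 ∧ 0 < C ∧ 0 < α ∧ α < 1 ∧
      t' ∈ Ico ts T ∧
      ∀ t ∈ Ico t' T, Function.Injective (fun q => F q t) ∧ ∀ q,
        ‖F q t - x‖ ≤ C * Real.sqrt (T - t) ∧
        ‖(1 / Real.sqrt (2 * n * (T - t))) • (F q t - x) - G q‖ ≤ C * (T - t) ^ α ∧
        (T - t) * thN n F q t ≤ C * (T - t) ^ α ∧
        |2 / n * ((T - t) * ‖HH (n := n) F q t‖ ^ 2) - 1| ≤ C * (T - t) ^ α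

end Helper35.HC
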