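import Mathlib
import Pool.Agent.Helper35.HC.StF

/-!
Project HC (MP_925021_gt), module statements, part G: from flows in the unit sphere `S^(n+2)` to flows in
`ℝ^(n+3)`, initial time, conclusion.

Every module proves `theorem hX : StX` from the listed hypotheses (any statements of PI, PI2, CL, MS, HSF may be
used as well).  COMPLETE proofs in the docstrings.  `rr n τ = 1 - 2nτ = e^(-2nt)`, `τ = sgN n t`, `t = tmN n τ`,
`FEN n F q τ = √(rr n τ) F(q,t)` (`Helper35/HSF/StH.lean`).  `SMCF, gM, hM, HS, hS2, Pinch3`: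
`Helper35/MS/Flow.lean`.
-/

set_option autoImplicit false

namespace Helper35.HC

open Helper35.PI Helper35.PI2 Helper32.CL Helper35.MS Helper35.HSF
open scoped ContDiff Manifold Topology ENNReal BigOperators
open MeasureTheory Set Filter

/-- CN3 (hSCL : StSCL)(hHSN : StHSN)(hCTN : StCTN). The rescaled flow. As `StCNN` (HSF StH, `Helper22/HSF/M_CNN.lean`),
without the unit normal and in `ℝ^(n+3)`.

Proof. As CNN: `sgN n (tmN n τ) = τ`; `FEN n F` is smooth on `M × (0,TE)`, immersion (SCL), and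
`∂_τ(r F(q,tmN τ)) = HH (FEN n F)` (`r = √(rr n τ)`; HSN and CTN for the frozen family). In a chart
`loc (FEN n F) q τ = r • loc F q t`, so `dv1`, `dv2`, `sff` are multiplied by `r`, `gram` by `r²`, `mcv` by `1/r`, `nsq` by
`1/r²`; `tv = r tv`, `An = r An`. `‖FEN‖² = r²`. -/
def StCN3 : Prop := ∀ (n : ℕ), 1 ≤ n → ∀ (M : Type) [TopologicalSpace M]
    [ChartedSpace (EE n) M] [IsManifold (𝓡 n) ∞ M] (F : M → ℝ → EE (n + 3)) (TE : ℝ),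
    0 < TE → 2 * n * TE ≤ 1 → SMCF n (ISN n TE) F →
    SFl n (Ioo 0 TE) (FEN n F) ∧
    ∀ τ ∈ Ico 0 TE, tmN n τ ∈ ISN n TE ∧ sgN n (tmN n τ) = τ ∧ 0 < rr n τ ∧ ∀ q,
      AA (n := n) (FEN n F) q τ = AA (n := n) F q (tmN n τ) / rr n τ ∧
      ‖HH (n := n) (FEN n F) q τ‖ ^ 2 = ‖HH (n := n) F q (tmN n τ)‖ ^ 2 / rr n τ ∧
      thN n (FEN n F) q τ = thN n F q (tmN n τ) / rr n τ ∧
      ∀ c : Fin n → ℝ, gn (FEN n F) q τ c = rr n τ * gn F q (tmN n τ) c ∧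
        An (FEN n F) q τ c = Real.sqrt (rr n τ) • An F q (tmN n τ) c

/-- P3H (hCTN : StCTN)(hI3J)(hI2J)(hFR)(hNR). The pinching for a short time. As `StPIH` (HSF StH,
`Helper42/HSF/M_PIH.lean`).

Proof. For `gn F q t c = 1` the vector `Σc_ic_j hM_ij` is `An F q t c + F q t` (`hM_ij = sff_ij + g_ijF`), so `Pinch3` is
`‖An F q 0 c + F q 0‖² < 1/3` for all `gn F q 0 c = 1`. Otherwise there are `t_j → 0` in `I`, `t_j ≥ 0`, points `q_j` and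
`c_j` with `gn = 1`, `‖An + F‖² > 1/3 - 1/j`; `M` is compact and first countable: `q_j → q` for a subsequence. In the
chart at `q` the tangent vector has coordinates `c'_j` (transition map), `An` is `Σc'c' sff` in this chart
(compare CPZ, `Helper14/HSF/M_CPZ.lean`); `g`, `sff` are continuous on `target ×ˢ I` (CTN's proof) and `g` is
positive definite at the limit, so `c'_j` is bounded; a limit `c'` gives a contradiction at `(q,0)`. -/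
def StP3H : Prop := ∀ (n N : ℕ), 1 ≤ n → ∀ (M : Type) [TopologicalSpace M] [T2Space M]
    [CompactSpace M] [ChartedSpace (EE n) M] [IsManifold (𝓡 n) ∞ M] (I : Set ℝ)
    (F : M → ℝ → EE N), UniqueDiffOn ℝ I → (0 : ℝ) ∈ I → SMCF n I F → Pinch3 n F 0 →
    ∃ τ δ : ℝ, 0 < τ ∧ τ < 1 / 3 ∧ 0 < δ ∧ ∀ t ∈ I, 0 ≤ t → t < δ → ∀ q, ∀ c : Fin n → ℝ,
      gn F q t c = 1 → ‖An F q t c + F q t‖ ^ 2 ≤ τ

/-- RIN (hCN3 : StCN3)(hP3H : StP3H)(hINT : StINT). The region at a small time.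

Proof. `ISN n TE` is an interval `[0,b)` or `[0,∞)` (`UniqueDiffOn`). P3H: `τ₀, δ`. `tmN` is continuous, `tmN 0 = 0`: take
`t₁ ∈ (0,TE)` with `tmN n t₁ < δ` (`0 ≤ tmN n t₁`). For `gn (FEN) q t₁ c = 1`, `r = √(rr n t₁)`, `c' = rc` has
`gn F q t c' = r²gn F q t c = 1` (`gn`, `An` are quadratic), `An (FEN) c + (1/r²)FEN = r An F c + (1/r)F =
(1/r)(An F c' + F)`, so `r²‖..‖² ≤ τ₀`. INT: `RgN n .. (1/3+2τ₀)`, `1/3 + 2τ₀ < 1`. The constants: first case of `HK` if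
`n ≤ 6`, second if `7 ≤ n`. -/
def StRIN : Prop := ∀ (n : ℕ), 3 ≤ n → ∀ (M : Type) [TopologicalSpace M] [T2Space M]
    [CompactSpace M] [ChartedSpace (EE n) M] [IsManifold (𝓡 n) ∞ M] (F : M → ℝ → EE (n + 3))
    (TE : ℝ), 0 < TE → 2 * n * TE ≤ 1 → SMCF n (ISN n TE) F → Pinch3 n F 0 →
    ∃ (cK E D B c l₁ t₁ : ℝ), HK n cK E D B c ∧ t₁ ∈ Ioo 0 TE ∧ 0 < l₁ ∧ l₁ < 1 ∧
      RgN n cK E D B c l₁ (FEN n F) t₁

/-- FT3 (hCN3 : StCN3)(hRIN : StRIN)(hRPD : StRPD)(hRNT : StRNT)(hHSN : StHSN)(hCTN : StCTN). Finite time, in the sphere.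
Compare `Helper31/MS/M_FIN2.lean` (`n = 2`) and `Helper97/HSF/M_HFI.lean`.

Proof. `TE = sgN n T`, `2nTE = 1 - e^(-2nT) < 1`, `ISN n TE = [0,T)`. RIN, RPD (unboundedness: `AA (FEN) = AA F/rr ≥ AA F =
hS2 + n` (HSN for the frozen family), `AA F` is bounded on the compact `M × [0,t']` (CTN), so there are times `t > t'`
with large `hS2`): `PDat n TE (FEN n F) ts κ₀ δ`. RNT: `x_E, G, L, C, α, t'`. `‖x_E‖² = lim ‖FEN‖² = rr n TE = e^(-2nT)`,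
`x = e^(nT)x_E`, `‖x‖ = 1`. Let `u = T-t`, `r = e^(-nt)`, `τ = sgN n t`, `m = (1-e^(-2nu))/(2n)`: `TE - τ = r²m`,
`u(1-nu) ≤ m ≤ u`. `F = FEN/r`, `F - x = (1/r)(FEN - x_E) + (e^(nt) - e^(nT))x_E`, the last norm is `1 - e^(-nu) ≤ nu`. So
`(1/√(2nu))(F-x) = √(m/u)·(1/√(2n(TE-τ)))(FEN-x_E) + O(√u)`, `|√(m/u) - 1| ≤ nu`, and `(1/√(2n(TE-τ)))(FEN-x_E)` is
bounded and within `C(TE-τ)^α ≤ Cu^α` of `G`: rate `min α (1/2)`. `hS2 - ‖HS‖²/n = AA - ‖HH‖²/n = thN F = r²thN (FEN)`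
(HSN: `hS2 = AA - n`, `‖HS‖² = ‖HH‖² - n²`), `u r²thN (FEN) = (u/m)(TE-τ)thN (FEN)`. `(2/n)u‖HS‖² = (2/n)u(r²Y - n²) =
(u/m)(2/n)(TE-τ)Y - 2nu`, `|u/m - 1| ≤ 2nu` near `T`. -/
def StFT3 : Prop := ∀ (n : ℕ), 3 ≤ n → ∀ (M : Type) [TopologicalSpace M] [T2Space M]
    [CompactSpace M] [ConnectedSpace M] [ChartedSpace (EE n) M] [IsManifold (𝓡 n) ∞ M]
    (F : M → ℝ → EE (n + 3)) (T : ℝ), 0 < T → SMCF n (Ico 0 T) F → Pinch3 n F 0 →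
    (∀ C : ℝ, ∃ t ∈ Ico 0 T, ∃ q, C < hS2 (n := n) F q t) →
    Nonempty (M ≃ₘ⟮𝓡 n, 𝓡 n⟯ (Metric.sphere (0 : EE (n + 1)) 1)) ∧
    ∃ (x : EE (n + 3)) (G : M → EE (n + 3)) (L : EE (n + 1) →ₗᵢ[ℝ] EE (n + 3)) (C α ts : ℝ),
      ‖x‖ = 1 ∧ Continuous G ∧ range G = L '' Metric.sphere (0 : EE (n + 1)) 1 ∧ 0 < α ∧
      ts ∈ Ico 0 T ∧
      ∀ t ∈ Ico ts T, Function.Injective (fun q => F q t) ∧ ∀ q,
        ‖(1 / Real.sqrt (2 * n * (T - t))) • (F q t - x) - G q‖ ≤ C * (T - t) ^ α ∧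
        (T - t) * (hS2 (n := n) F q t - ‖HS (n := n) F q t‖ ^ 2 / n) ≤ C * (T - t) ^ α ∧
        |2 / n * ((T - t) * ‖HS (n := n) F q t‖ ^ 2) - 1| ≤ C * (T - t) ^ α

/-- IT3 (hCN3 : StCN3)(hRIN : StRIN)(hRPD : StRPD)(hRNT : StRNT)(hHSN : StHSN)(hCTN : StCTN). Infinite time, in the
sphere.

Proof. `TE = 1/(2n)`, `ISN n TE = [0,∞)`, `2nTE = 1`. RIN, RPD (first alternative), RNT: `x, G, L, C, α, t'`. `‖FEN‖² =
rr n τ = 2n(TE-τ) → 0` and `FEN → x`: `x = 0`. `τ = sgN n t`: `rr n τ = e^(-2nt)`, `TE - τ = e^(-2nt)/(2n)`;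
`F q t = FEN q τ/√rr = (1/√(2n(TE-τ)))(FEN - x)`, so `‖F - G‖ ≤ C(e^(-2nt)/(2n))^α ≤ Ce^(-2nαt)`. `hS2 = AA F - n` (HSN),
`AA F = rr AA (FEN) = rr(thN + Y/n)` (`thN = AA - Y/n`), `rr thN = 2n(TE-τ)thN ≤ 2nC(TE-τ)^α`,
`rr Y/n - n = n((2/n)(TE-τ)Y - 1) ≤ nC(TE-τ)^α`. This is for `t ≥ tmN n t'`; on `[0,tmN n t']` `‖F - G‖ ≤ 2` (`‖G‖ = 1`) and
`hS2` is bounded (CTN, compact `M × [0,t'']`): a larger `C`. Injectivity: that of `FEN`. -/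
def StIT3 : Prop := ∀ (n : ℕ), 3 ≤ n → ∀ (M : Type) [TopologicalSpace M] [T2Space M]
    [CompactSpace M] [ConnectedSpace M] [ChartedSpace (EE n) M] [IsManifold (𝓡 n) ∞ M]
    (F : M → ℝ → EE (n + 3)), SMCF n (Ici 0) F → Pinch3 n F 0 →
    Nonempty (M ≃ₘ⟮𝓡 n, 𝓡 n⟯ (Metric.sphere (0 : EE (n + 1)) 1)) ∧
    ∃ (G : M → EE (n + 3)) (L : EE (n + 1) →ₗᵢ[ℝ] EE (n + 3)) (C α ts : ℝ), Continuous G ∧
      range G = L '' Metric.sphere (0 : EE (n + 1)) 1 ∧ 0 < α ∧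
      (∀ t : ℝ, ts ≤ t → Function.Injective (fun q => F q t)) ∧ ∀ t : ℝ, 0 ≤ t → ∀ q,
      ‖F q t - G q‖ ≤ C * Real.exp (-α * t) ∧ hS2 (n := n) F q t ≤ C * Real.exp (-α * t)

end Helper35.HC
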