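import Mathlib
import Pool.Agent.Helper35.HC.ScC

/-!
Project HC (MP_925021_gt): further scalar inequalities for the constants of the region.
-/

set_option autoImplicit false
set_option maxHeartbeats 4000000

namespace Helper35.HC

/-- gradient condition -/
theorem sGR {n : ℕ} {K E D B c : ℝ} (hn : 3 ≤ n) (hK : HK n K E D B c) (x : ℝ) (hx : 0 ≤ x) :
    Gd K D B x + 2 * x * Gdd D B x ≤ 2 * E * ((n : ℝ) - 1) / (n + 2) := by
  obtain ⟨hK0, hE0, hD0, hB0, hc0, hKE⟩ := hK.pos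
  have hn3 : (3 : ℝ) ≤ n := by exact_mod_cast hn
  have hw : 0 < 1 + B * x := by positivity
  have h1 : Gd K D B x + 2 * x * Gdd D B x ≤ K + D * B / 4 := by
    unfold Gd Gdd
    have hid : K + D * B / 4 - (K - D * B / (1 + B * x) ^ 2
        + 2 * x * (2 * D * B ^ 2 / (1 + B * x) ^ 3))
        = D * B * ((1 + B * x - 2) ^ 2 * (1 + B * x + 4)) / (4 * (1 + B * x) ^ 3) := by
      field_simp
      ring
    have : 0 ≤ D * B * ((1 + B * x - 2) ^ 2 * (1 + B * x + 4)) / (4 * (1 + B * x) ^ 3) := by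
      positivity
    linarith
  refine le_trans h1 ?_
  rw [le_div_iff₀ (by positivity)]
  rcases hK with ⟨_, rfl, rfl, rfl, rfl, rfl⟩ | ⟨h7, rfl, rfl, rfl, rfl, rfl⟩
  · nlinarith
  · have h7' : (7 : ℝ) ≤ n := by exact_mod_cast h7
    nlinarith

/-- initial values -/
theorem sINI {n : ℕ} {K E D B c : ℝ} (hK : HK n K E D B c) (x τ : ℝ) (hx : 0 ≤ x) (hxτ : x ≤ τ)
    (hτ : τ < 1 / 3) : τ + 2 * E * (τ - x) < (1 / 3 + 2 * τ) * Gx K D B c x := by
  have hx3 : x < 1 / 3 := lt_of_le_of_lt hxτ hτ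
  rcases hK with ⟨_, rfl, rfl, rfl, rfl, rfl⟩ | ⟨h7, rfl, rfl, rfl, rfl, rfl⟩
  · unfold Gx
    have hw : (0 : ℝ) < 1 + 5 * x := by positivity
    -- G ≥ 1.2 - 2.6 x and G ≤ 1.2
    have h1 : 6 / 5 - 13 / 5 * x ≤ 77 / 100 + 1 / 2 * x + 43 / 100 / (1 + 5 * x) := by
      rw [← sub_nonneg]
      have : 77 / 100 + 1 / 2 * x + 43 / 100 / (1 + 5 * x) - (6 / 5 - 13 / 5 * x)
          = (x * (95 / 100 + 155 / 10 * x)) / (1 + 5 * x) := by
        field_simp
        ring
      rw [this]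
      positivity
    have h2 : 77 / 100 + 1 / 2 * x + 43 / 100 / (1 + 5 * x) ≤ 6 / 5 := by
      rw [← sub_nonneg]
      have : 6 / 5 - (77 / 100 + 1 / 2 * x + 43 / 100 / (1 + 5 * x))
          = (x * (165 / 100 - 5 / 2 * x)) / (1 + 5 * x) := by
        field_simp
        ring
      rw [this]
      apply div_nonneg _ hw.le
      apply mul_nonneg hx
      linarith
    nlinarith
  · unfold Gx
    have hw : (0 : ℝ) < 1 + 6 * x := by positivity
    have h1 : 22 / 30 - 6 / 5 * x ≤ 39 / 100 + 1 / 4 * x + 9 / 25 / (1 + 6 * x) := by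
      rw [← sub_nonneg]
      have : 39 / 100 + 1 / 4 * x + 9 / 25 / (1 + 6 * x) - (22 / 30 - 6 / 5 * x)
          = (8700 * x ^ 2 - 610 * x + 1000 / 60) / (1000 * (1 + 6 * x)) := by
        field_simp
        ring
      rw [this]
      apply div_nonneg _ (by positivity)
      nlinarith [sq_nonneg (x - 61 / 1740)]
    have h2 : 39 / 100 + 1 / 4 * x + 9 / 25 / (1 + 6 * x) ≤ 3 / 4 := by
      rw [← sub_nonneg]
      have : 3 / 4 - (39 / 100 + 1 / 4 * x + 9 / 25 / (1 + 6 * x))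
          = (x * (191 / 100 - 3 / 2 * x)) / (1 + 6 * x) := by
        field_simp
        ring
      rw [this]
      apply div_nonneg _ hw.le
      apply mul_nonneg hx
      linarith
    nlinarith

/-- for P1 -/
theorem sP1 {n : ℕ} {K E D B c : ℝ} (hn : 3 ≤ n) (hK : HK n K E D B c) (x : ℝ) (hx : 0 ≤ x) :
    Gx K D B c x / (1 + 2 * E) ≤ 9 / 10 * (((n : ℝ) - 1) / (n + 2)) * (1 + x) := by
  have hn3 : (3 : ℝ) ≤ n := by exact_mod_cast hn
  obtain ⟨hK0, hE0, hD0, hB0, hc0, hKE⟩ := hK.pos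
  have hfr : 2 / 5 ≤ ((n : ℝ) - 1) / (n + 2) := by
    rw [div_le_div_iff₀ (by norm_num) (by positivity)]; nlinarith
  have hD : D / (1 + B * x) ≤ D := by
    apply div_le_self hD0.le
    have : 0 ≤ B * x := by positivity
    linarith
  have h1 : Gx K D B c x ≤ c + D + K * x := by unfold Gx; linarith
  have h2 : 9 / 10 * (2 / 5) * (1 + x) ≤ 9 / 10 * (((n : ℝ) - 1) / (n + 2)) * (1 + x) := by
    apply mul_le_mul_of_nonneg_right _ (by linarith)
    linarith
  refine le_trans ?_ h2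
  rw [div_le_iff₀ (by positivity)]
  rcases hK with ⟨_, rfl, rfl, rfl, rfl, rfl⟩ | ⟨h7, rfl, rfl, rfl, rfl, rfl⟩ <;> nlinarith

/-- for P3 -/
theorem sP3 {n : ℕ} {K E D B c : ℝ} (hn : 3 ≤ n) (hK : HK n K E D B c) : ∃ ε : ℝ, 0 < ε ∧ ε ≤ 1 ∧
    ∀ x : ℝ, 0 ≤ x → x * Gx K D B c x
      ≤ (1 - ε) ^ 2 * ((n : ℝ) ^ 2 / (4 * (n - 1) ^ 2) + E / (n - 1)) * (1 + x) ^ 2 := by
  have hn3 : (3 : ℝ) ≤ n := by exact_mod_cast hn
  set c₃ : ℝ := (n : ℝ) ^ 2 / (4 * (n - 1) ^ 2) + E / (n - 1) with hc3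
  have hkey : ∃ k : ℝ, 0 < k ∧ k < c₃ ∧ ∀ x : ℝ, 0 ≤ x → x * Gx K D B c x ≤ k * (1 + x) ^ 2 := by
    rcases hK with ⟨h6, rfl, rfl, rfl, rfl, rfl⟩ | ⟨h7, rfl, rfl, rfl, rfl, rfl⟩
    · refine ⟨1 / 2, by norm_num, ?_, ?_⟩
      · have h6' : (n : ℝ) ≤ 6 := by exact_mod_cast h6
        have hn1 : 0 < (n : ℝ) - 1 := by linarith
        have e1 : 13 / 50 ≤ 13 / 10 / ((n : ℝ) - 1) := by
          rw [le_div_iff₀ hn1]; nlinarith
        have e2 : 9 / 25 ≤ (n : ℝ) ^ 2 / (4 * (n - 1) ^ 2) := by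
          rw [le_div_iff₀ (by positivity)]; nlinarith
        rw [hc3]; linarith
      · intro x hx
        unfold Gx
        have hw : (0 : ℝ) < 1 + 5 * x := by positivity
        have h1 : x * (43 / 100 / (1 + 5 * x)) ≤ 43 / 500 := by
          rw [show x * (43 / 100 / (1 + 5 * x)) = (43 / 100 * x) / (1 + 5 * x) by ring,
            div_le_iff₀ hw]
          linarith
        nlinarith
    · refine ⟨1 / 4, by norm_num, ?_, ?_⟩
      · have hn1 : 0 < (n : ℝ) - 1 := by linarith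
        have e1 : 0 < 3 / 5 / ((n : ℝ) - 1) := by positivity
        have e2 : 1 / 4 ≤ (n : ℝ) ^ 2 / (4 * (n - 1) ^ 2) := by
          rw [le_div_iff₀ (by positivity)]; nlinarith
        rw [hc3]; linarith
      · intro x hx
        unfold Gx
        have hw : (0 : ℝ) < 1 + 6 * x := by positivity
        have h1 : x * (9 / 25 / (1 + 6 * x)) ≤ 3 / 50 := by
          rw [show x * (9 / 25 / (1 + 6 * x)) = (9 / 25 * x) / (1 + 6 * x) by ring,
            div_le_iff₀ hw]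
          linarith
        nlinarith
  obtain ⟨k, hk0, hkc, hk⟩ := hkey
  have hc0 : 0 < c₃ := lt_trans hk0 hkc
  -- choose ε = 1 - sqrt (k/c₃)
  refine ⟨1 - Real.sqrt (k / c₃), ?_, ?_, ?_⟩
  · have : Real.sqrt (k / c₃) < 1 := by
      rw [show (1 : ℝ) = Real.sqrt 1 by simp]
      apply Real.sqrt_lt_sqrt (by positivity)
      rw [div_lt_one hc0]; exact hkc
    linarith
  · have := Real.sqrt_nonneg (k / c₃)
    linarith
  · intro x hx
    have : (1 - (1 - Real.sqrt (k / c₃))) ^ 2 * c₃ = k := by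
      rw [show 1 - (1 - Real.sqrt (k / c₃)) = Real.sqrt (k / c₃) by ring,
        Real.sq_sqrt (by positivity)]
      field_simp
    rw [this]
    exact hk x hx

/-- for P2 -/
theorem sP2 {n : ℕ} {K E D B c : ℝ} (hn : 3 ≤ n) (hK : HK n K E D B c) :
    ∃ δ X₀ l₀ : ℝ, 0 < δ ∧ δ < 1 ∧ 0 ≤ X₀ ∧ 0 < l₀ ∧
      (∀ x : ℝ, X₀ ≤ x → max (10 / (1 + 2 * E / n)) ((8 + 2 * n) / (1 + 2 * E)) * Gx K D B c x
        ≤ (n - δ) * (1 + x)) ∧
      ∀ x l : ℝ, 0 ≤ x → 0 ≤ l → l ≤ l₀ →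
        max (10 / (1 + 2 * E / n)) ((8 + 2 * n) / (1 + 2 * E)) * (l * Gx K D B c x)
          ≤ (n - δ) * (1 + x) := by
  have hn3 : (3 : ℝ) ≤ n := by exact_mod_cast hn
  obtain ⟨hK0, hE0, hD0, hB0, hc0, hKE⟩ := hK.pos
  set m : ℝ := max (10 / (1 + 2 * E / n)) ((8 + 2 * n) / (1 + 2 * E)) with hm
  have hm0 : 0 < m := lt_of_lt_of_le (by positivity) (le_max_left _ _)
  have hmK : m * K ≤ n - 1 / 5 := by
    have hn0 : (0 : ℝ) < n := by linarith
    have h1 : 10 / (1 + 2 * E / n) * K ≤ n - 1 / 5 := by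
      rw [div_mul_eq_mul_div, div_le_iff₀ (by positivity)]
      have e : (n - 1 / 5) * (1 + 2 * E / n) = n - 1 / 5 + 2 * E * ((n - 1 / 5) / n) := by
        field_simp
      rw [e]
      rcases hK with ⟨h6, rfl, rfl, rfl, rfl, rfl⟩ | ⟨h7, rfl, rfl, rfl, rfl, rfl⟩
      · have e3 : 14 / 15 ≤ ((n : ℝ) - 1 / 5) / n := by
          rw [le_div_iff₀ hn0]; linarith
        nlinarith
      · have h7' : (7 : ℝ) ≤ n := by exact_mod_cast h7
        have e3 : 14 / 15 ≤ ((n : ℝ) - 1 / 5) / n := by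
          rw [le_div_iff₀ hn0]; linarith
        nlinarith
    have h2 : (8 + 2 * n) / (1 + 2 * E) * K ≤ n - 1 / 5 := by
      rw [div_mul_eq_mul_div, div_le_iff₀ (by positivity)]
      rcases hK with ⟨h6, rfl, rfl, rfl, rfl, rfl⟩ | ⟨h7, rfl, rfl, rfl, rfl, rfl⟩
      · nlinarith
      · nlinarith
    rw [hm]
    rcases le_total (10 / (1 + 2 * E / (n : ℝ))) ((8 + 2 * n) / (1 + 2 * E)) with h | h
    · rw [max_eq_right h]; exact h2
    · rw [max_eq_left h]; exact h1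
  have hGle : ∀ x : ℝ, 0 ≤ x → Gx K D B c x ≤ c + D + K * x := by
    intro x hx
    have hD : D / (1 + B * x) ≤ D := by
      apply div_le_self hD0.le
      have : 0 ≤ B * x := by positivity
      linarith
    unfold Gx; linarith
  refine ⟨1 / 10, 10 * m * (c + D), min 1 (1 / (m * (c + D + K))), by norm_num, by norm_num,
    by positivity, by positivity, ?_, ?_⟩
  · intro x hx
    have hx0 : 0 ≤ x := le_trans (by positivity) hx
    have h1 : m * Gx K D B c x ≤ m * (c + D + K * x) :=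
      mul_le_mul_of_nonneg_left (hGle x hx0) hm0.le
    have h2 : m * (c + D + K * x) = m * (c + D) + (m * K) * x := by ring
    have h3 : (m * K) * x ≤ (n - 1 / 5) * x := mul_le_mul_of_nonneg_right hmK hx0
    have h4 : m * (c + D) ≤ x / 10 := by linarith
    nlinarith
  · intro x l hx hl0 hl
    have h1 : l ≤ 1 / (m * (c + D + K)) := le_trans hl (min_le_right _ _)
    have h2 : l * (m * (c + D + K)) ≤ 1 := by
      rw [le_div_iff₀ (by positivity)] at h1
      exact h1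
    have h3 : m * (l * Gx K D B c x) ≤ l * (m * (c + D + K)) * (1 + x) := by
      have : m * (l * Gx K D B c x) = (l * m) * Gx K D B c x := by ring
      rw [this]
      have hG := hGle x hx
      have hlm : 0 ≤ l * m := by positivity
      calc (l * m) * Gx K D B c x ≤ (l * m) * (c + D + K * x) :=
            mul_le_mul_of_nonneg_left hG hlm
        _ ≤ (l * m) * ((c + D + K) * (1 + x)) := by
            apply mul_le_mul_of_nonneg_left _ hlm
            nlinarith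
        _ = l * (m * (c + D + K)) * (1 + x) := by ring
    have h4 : l * (m * (c + D + K)) * (1 + x) ≤ 1 * (1 + x) :=
      mul_le_mul_of_nonneg_right h2 (by linarith)
    nlinarith

end Helper35.HC
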