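import Mathlib
import Pool.Agent.Helper35.HC.StE

/-!
Project HC, module SPF.
-/

set_option autoImplicit false

namespace Helper35.HC

open Helper35.PI Helper35.PI2 Helper32.CL Helper35.MS Helper35.HSF
open scoped ContDiff Manifold Topology ENNReal BigOperators
open MeasureTheory Set Filter

theorem hSPF (hGCE : StGCE) (hPIL : StPIL) (hLFT : StLFT) (hSTY : StSTY) (hSEA : StSEA)
    (hSEB : StSEB) (hPIE : StPIE) (hDRB : StDRB) : StSPF := by
  intro n N h2n M _ _ _ _ _ _ J F t l ε q₀ hS δ hδ0 hδ1 hε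
  obtain ⟨hN1, L, hL⟩ := hGCE n N h2n M J F t l ε q₀ hS
  have hl0 := hS.l0
  have hn0 : (0 : ℝ) < n := by
    have : (2 : ℝ) ≤ n := by exact_mod_cast h2n
    linarith
  set c₀ : EE N := cF n F q₀ t with hc₀
  set K : Set M := K2 n F L c₀ t l δ with hK
  obtain ⟨hc1, hc2, hc3, -⟩ := hDRB n N h2n M J F t l ε q₀ hS L
  have hkq₀ : kH n F q₀ t = l := by
    unfold kH
    rw [hS.eq]
    field_simp
  have hq₀K : q₀ ∈ K := by
    refine ⟨?_, ?_, ?_⟩
    · rw [hkq₀]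
      nlinarith
    · rw [hc₀, sub_self, norm_zero]
      positivity
    · rw [hL]
      positivity
  have hKc : IsClosed K := by
    have e1 : IsClosed {q : M | (1 - δ) * l ≤ kH n F q t} := isClosed_le continuous_const hc1
    have e2 : IsClosed {q : M | ‖cF n F q t - c₀‖ ≤ δ / l} :=
      isClosed_le (hc2.sub continuous_const).norm continuous_const
    have e3 : IsClosed {q : M | tlt n F L q t ≤ δ ^ 2} := isClosed_le hc3 continuous_const
    have : K = {q : M | (1 - δ) * l ≤ kH n F q t} ∩ ({q : M | ‖cF n F q t - c₀‖ ≤ δ / l} ∩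
        {q : M | tlt n F L q t ≤ δ ^ 2}) := by
      ext q
      rfl
    rw [this]
    exact e1.inter (e2.inter e3)
  obtain ⟨π, hπ⟩ := hPIL n N h2n M J F t l ε q₀ hS L c₀ δ hδ0 hδ1
  have hπe : ∀ q ∈ K, ∃ e : OpenPartialHomeomorph M (Metric.sphere (0 : EE (n + 1)) 1),
      q ∈ e.source ∧ EqOn π e e.source := fun q hq => (hπ q hq).2.2.2
  have hpq : ∀ q ∈ K, (π q : EE (n + 1)) = prj L c₀ F t q := fun q hq => (hπ q hq).1
  -- lifts of great circles
  have hlift : ∀ ξ : EE (n + 1), ‖ξ‖ = 1 → (inner ℝ ξ (π q₀ : EE (n + 1)) : ℝ) = 0 →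
      ∃ f : ℝ → M, ContinuousOn f (Icc 0 Real.pi) ∧ f 0 = q₀ ∧
        ∀ s ∈ Icc 0 Real.pi, f s ∈ K ∧
          (π (f s) : EE (n + 1)) = Real.cos s • (π q₀ : EE (n + 1)) + Real.sin s • ξ := by
    intro ξ hξ hξ0
    have hp1 : ‖(π q₀ : EE (n + 1))‖ = 1 := by
      have := (π q₀).2
      rwa [mem_sphere_zero_iff_norm] at this
    have hγn : ∀ s : ℝ, ‖Real.cos s • (π q₀ : EE (n + 1)) + Real.sin s • ξ‖ = 1 := by
      intro s
      have h1 : ‖Real.cos s • (π q₀ : EE (n + 1)) + Real.sin s • ξ‖ ^ 2 = 1 := by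
        rw [norm_add_sq_real, norm_smul, norm_smul, inner_smul_left, inner_smul_right,
          real_inner_comm, hξ0, hξ, hp1]
        simp only [Real.norm_eq_abs, mul_one, mul_zero, sq_abs, add_zero]
        exact Real.cos_sq_add_sin_sq s
      have h2 : 0 ≤ ‖Real.cos s • (π q₀ : EE (n + 1)) + Real.sin s • ξ‖ := norm_nonneg _
      nlinarith
    set γ : ℝ → Metric.sphere (0 : EE (n + 1)) 1 := fun s =>
      ⟨Real.cos s • (π q₀ : EE (n + 1)) + Real.sin s • ξ, by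
        rw [mem_sphere_zero_iff_norm]; exact hγn s⟩ with hγ
    have hγc : Continuous γ := by
      refine Continuous.subtype_mk ?_ _
      exact (Real.continuous_cos.smul continuous_const).add
        (Real.continuous_sin.smul continuous_const)
    have hγ0 : π q₀ = γ 0 := by
      apply Subtype.ext
      simp [hγ]
    obtain ⟨f, hf1, hf2, hf3⟩ := hLFT M (Metric.sphere (0 : EE (n + 1)) 1) K π hKc hπe γ Real.pi
      q₀ Real.pi_pos.le hγc.continuousOn hq₀K hγ0 (by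
        intro s hs f hf1 hf2 hf3
        have hprj0 : (π q₀ : EE (n + 1)) = prj L c₀ F t q₀ := hpq q₀ hq₀K
        refine hSTY n N h2n M J F t l ε q₀ hS L δ hδ0 hδ1 hε hL ξ hξ ?_ s hs f hf1 hf2 ?_
        · rw [← hprj0]; exact hξ0
        · intro r hr
          refine ⟨(hf3 r hr).1, ?_⟩
          rw [← hpq _ (hf3 r hr).1, (hf3 r hr).2, ← hprj0])
    refine ⟨f, hf1, hf2, fun s hs => ⟨(hf3 s hs).1, ?_⟩⟩
    rw [(hf3 s hs).2]
  obtain ⟨g, q₁, hq₁, hg1, hg2⟩ := hSEA n h2n M K π q₀ hq₀K hπe hlift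
  have hg3 : ∀ ξ : EE (n + 1), ‖ξ‖ = 1 → (inner ℝ ξ (π q₀ : EE (n + 1)) : ℝ) = 0 →
        g (0, ξ) = q₀ ∧ g (Real.pi, ξ) = q₁ ∧ ∀ s ∈ Icc 0 Real.pi, g (s, ξ) ∈ K ∧
          (π (g (s, ξ)) : EE (n + 1)) = Real.cos s • (π q₀ : EE (n + 1)) + Real.sin s • ξ := hg2
  obtain ⟨hKu, hbij⟩ := hSEB n h2n M K π q₀ q₁ hq₀K hπe g hg1 hg3
  have hall : ∀ q, q ∈ K := fun q => by rw [hKu]; exact mem_univ q
  have hkall : ∀ q, (1 - δ) * l ≤ kH n F q t := fun q => (hall q).1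
  have hclose : ∀ q, ‖F q t - c₀ - (1 / l) • L (prj L c₀ F t q)‖ ≤ 6 * δ / l := fun q =>
    (hPIE n N h2n M J F t l ε q₀ hS L c₀ δ hδ0 hδ1 q (hall q)).2.2.2.1
  have hπn : ∀ q, ‖(π q : EE (n + 1))‖ = 1 := fun q => by
    have := (π q).2
    rwa [mem_sphere_zero_iff_norm] at this
  refine ⟨?_, ?_, ?_, L, c₀, fun q => (hall q).2.1, ?_, ?_⟩
  · intro q
    have h1 := hkall q
    unfold kH at h1
    rw [le_div_iff₀ hn0] at h1
    linarith
  · intro q q' hqq
    apply hbij.1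
    apply Subtype.ext
    rw [hpq q (hall q), hpq q' (hall q')]
    unfold prj
    simp only at hqq
    rw [hqq]
  · have hloc : IsLocalDiffeomorph (𝓡 n) (𝓡 n) ∞ π := fun q => (hπ q (hall q)).2.2.1
    exact ⟨hloc.diffeomorphOfBijective hbij⟩
  · intro q
    refine ⟨(π q : EE (n + 1)), hπn q, ?_⟩
    rw [hpq q (hall q)]
    exact hclose q
  · intro y hy
    obtain ⟨q, hq⟩ := hbij.2 ⟨y, by rw [mem_sphere_zero_iff_norm]; exact hy⟩
    refine ⟨q, ?_⟩
    have : (π q : EE (n + 1)) = y := by rw [hq]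
    rw [← this, hpq q (hall q)]
    exact hclose q

end Helper35.HC
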