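import Pool.Agent.Helper35.HSF.All
import Pool.Agent.Helper35.HC.StG
import Pool.Agent.Helper3.HC.M_SPR
import Pool.Agent.Helper10.HC.M_SPL
import Pool.Agent.Helper78.HC.M_PXE
import Pool.Agent.Helper32.HC.M_PXR
import Pool.Agent.Helper36.HC.M_SQG
import Pool.Agent.Helper94.HC.M_SQB
import Pool.Agent.Helper70.HC.M_GRM
import Pool.Agent.Helper33.HC.M_RCT
import Pool.Agent.Helper22.HC.M_TRV
import Pool.Agent.Helper16.HC.M_TPA
import Pool.Agent.Helper86.HC.M_INA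
import Pool.Agent.Helper87.HC.M_MXE
import Pool.Agent.Helper8.HC.M_PI1
import Pool.Agent.Helper62.HC.M_PI2
import Pool.Agent.Helper89.HC.M_PI3
import Pool.Agent.Helper28.HC.M_PIA
import Pool.Agent.Helper99.HC.M_GCP
import Pool.Agent.Helper10.HC.M_GSJ
import Pool.Agent.Helper53.HC.M_PBR
import Pool.Agent.Helper41.HC.M_SPJ
import Pool.Agent.Helper61.HC.M_TPR
import Pool.Agent.Helper2.HC.M_CPP
import Pool.Agent.Helper47.HC.M_PRG
import Pool.Agent.Helper2.HC.M_RPD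
import Pool.Agent.Helper88.HC.M_INT
import Pool.Agent.Helper28.HC.M_GIT
import Pool.Agent.Helper34.HC.M_JHW
import Pool.Agent.Helper64.HC.M_VMJ
import Pool.Agent.Helper40.HC.M_DIJ
import Pool.Agent.Helper82.HC.M_HSJ
import Pool.Agent.Helper36.HC.M_HSI
import Pool.Agent.Helper78.HC.M_HSM
import Pool.Agent.Helper60.HC.M_GCX
import Pool.Agent.Helper8.HC.M_JPK
import Pool.Agent.Helper94.HC.M_PKD
import Pool.Agent.Helper30.HC.M_EA2
import Pool.Agent.Helper5.HC.M_LPH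
import Pool.Agent.Helper78.HC.M_THL
import Pool.Agent.Helper22.HC.M_GRB
import Pool.Agent.Helper65.HC.M_CDG
import Pool.Agent.Helper87.HC.M_LPG
import Pool.Agent.Helper99.HC.M_DR0
import Pool.Agent.Helper21.HC.M_DRV
import Pool.Agent.Helper97.HC.M_DRB
import Pool.Agent.Helper62.HC.M_PIE
import Pool.Agent.Helper28.HC.M_KLP
import Pool.Agent.Helper53.HC.M_PIL
import Pool.Agent.Helper41.HC.M_LFT
import Pool.Agent.Helper80.HC.M_DIN
import Pool.Agent.Helper34.HC.M_STY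
import Pool.Agent.Helper45.HC.M_GCE
import Pool.Agent.Helper90.HC.M_SEA
import Pool.Agent.Helper9.HC.M_SEB
import Pool.Agent.Helper35.HC.M_SPF
import Pool.Agent.Helper34.HC.M_MNP
import Pool.Agent.Helper3.HC.M_RCM
import Pool.Agent.Helper62.HC.M_CMP
import Pool.Agent.Helper42.HC.M_LOB
import Pool.Agent.Helper81.HC.M_RTE
import Pool.Agent.Helper6.HC.M_SPT
import Pool.Agent.Helper2.HC.M_HFP
import Pool.Agent.Helper85.HC.M_LIM
import Pool.Agent.Helper64.HC.M_LMN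
import Pool.Agent.Helper24.HC.M_LSN
import Pool.Agent.Helper11.HC.M_RNT
import Pool.Agent.Helper41.HC.M_CN3
import Pool.Agent.Helper28.HC.M_P3H
import Pool.Agent.Helper99.HC.M_RIN
import Pool.Agent.Helper29.HC.M_FT3
import Pool.Agent.Helper91.HC.M_IT3

/-!
Project HC (MP_925021_gt): assembly of the modules.
-/

set_option autoImplicit false

namespace Helper35.HC

open Helper35.PI Helper35.PI.All Helper35.PI2 Helper35.PI2.All Helper32.CL
open Pool.Agent.Helper35.CL Pool.Agent.Helper35.CL.All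

theorem kSPR : StSPR := Helper3.HC.hSPR 
theorem kSPL : StSPL := Helper10.HC.hSPL kSPR
theorem kPXE : StPXE := Helper78.HC.hPXE kSPL
theorem kPXR : StPXR := Helper32.HC.hPXR kPXE kSPL
theorem kSQG : StSQG := Helper36.HC.hSQG 
theorem kSQB : StSQB := Helper94.HC.hSQB kSQG
theorem kGRM : StGRM := Pool.Agent.Helper70.HC.hGRM 
theorem kRCT : StRCT := Pool.Agent.Helper33.HC.hRCT kPXR kPXE kSPL kSQB kGRM
theorem kTRV : StTRV := Helper22.HC.hTRV 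
theorem kTPA : StTPA := Helper16.HC.hTPA kRCT kTRV kSQB kSPL Helper13.PI.hT3
theorem kINA : StINA := Helper86.HC.hINA kTRV kSQB
theorem kMXE : StMXE := Helper87.HC.hMXE 
theorem kPI1 : StPI1 := Helper8.HC.hPI1 kSPL kSQB kGRM
theorem kPI2 : StPI2 := Pool.Agent.Helper62.HC.hPI2 kSPL kSQB
theorem kPI3 : StPI3 := Pool.Agent.Helper89.HC.hPI3 Helper35.HSF.kALK
theorem kPIA : StPIA := Pool.Agent.Helper28.HC.hPIA kPI1 kPI2 kPI3 kMXE kTRV kSQB kPXE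
theorem kGCP : StGCP := Helper99.HC.hGCP Helper35.MS.jI2J
theorem kGSJ : StGSJ := Helper10.HC.hGSJ tG2 tG3 tG6 tJA tJB tJD
theorem kPBR : StPBR := Helper53.HC.hPBR kGCP kGSJ tG1 tG2
theorem kSPJ : StSPJ := Pool.Agent.Helper41.HC.hSPJ tG1 tG2 tG7 tG8 tG9 tG10 tSM
theorem kTPR : StTPR := Helper61.HC.hTPR kPBR kSPJ kTPA Helper35.HSF.kGCH tG7 tG8 tMP tJA tJB tJD tC1
theorem kCPP : StCPP := Helper2.HC.hCPP Helper35.MS.jI2J tSM tNR
theorem kPRG : StPRG := Helper47.HC.hPRG kTPR kCPP Helper35.HSF.kSMF kSPJ Helper35.HSF.kGCH tC1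
theorem kRPD : StRPD := Helper2.HC.hRPD kPRG kPIA kPBR kSPJ Helper35.HSF.kGCH tC1
theorem kINT : StINT := Helper88.HC.hINT kINA kPBR kSPJ Helper35.HSF.kGCH tC1
theorem kGIT : StGIT := Pool.Agent.Helper28.HC.hGIT tG0 tG1 tG2 tSM
theorem kJHW : StJHW := Helper34.HC.hJHW kGIT tG0 tG1
theorem kVMJ : StVMJ := Pool.Agent.Helper64.HC.hVMJ kJHW tG0 tG1 tG3 tJA tJB
theorem kDIJ : StDIJ := Helper40.HC.hDIJ kVMJ kJHW tG2 tJA tJB
theorem kHSJ : StHSJ := Helper82.HC.hHSJ kDIJ kJHW tG0 tG1 tG2 tG5 tNR tFR tJA tJB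
theorem kHSI : StHSI := Helper36.HC.hHSI tI1 tFR tNR tSM
theorem kHSM : StHSM := Helper78.HC.hHSM kHSI Helper35.MS.jI2J tSM
theorem kGCX : StGCX := Helper60.HC.hGCX tSM tI1 Helper35.MS.jI2J Helper35.MS.jI3J tC3 tMT tG0 tG1 tG2 tNR kHSI kHSM tIB Helper35.MS.jMAJ
theorem kJPK : StJPK := Helper8.HC.hJPK kGCX kHSJ kHSM tG1 tG7 tG8 tG9 tG10 tGV Helper35.MS.jMAJ Helper35.HSF.kSMR Helper35.HSF.kSMF Helper35.HSF.kHTR tC1 kSQG tJA
theorem kPKD : StPKD := Helper94.HC.hPKD kJPK kSQG Helper13.PI.hT3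
theorem kEA2 : StEA2 := Pool.Agent.Helper30.HC.hEA2 
theorem kLPH : StLPH := Pool.Agent.Helper5.HC.hLPH kEA2 kPKD kJPK Helper35.HSF.kEPW Helper35.HSF.kHTR Helper35.MS.jTDJ Helper35.MS.jFVJ Helper35.MS.jPRJ Helper35.MS.jMUJ Helper35.HSF.kSMR Helper35.HSF.kSMF
theorem kTHL : StTHL := Helper78.HC.hTHL kLPH Helper35.HSF.kMVN kPKD Helper35.HSF.kHTR Helper35.MS.jMUJ tV5 Helper35.HSF.kSMF
theorem kGRB : StGRB := Helper22.HC.hGRB kTHL kPKD Helper35.HSF.kFZP Helper35.HSF.kHTR kHSM Helper35.HSF.kSMF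
theorem kCDG : StCDG := Helper65.HC.hCDG Helper35.MS.jI2J Helper35.MS.jI3J tFR tNR
theorem kLPG : StLPG := Helper87.HC.hLPG kCDG
theorem kDR0 : StDR0 := Helper99.HC.hDR0 kGCX tGH tG1 tG2 tG3 tG5 tG7 tG8 tSM tNR tC1 Helper35.MS.jI2J Helper35.MS.jI3J Helper35.HSF.kSMF kHSJ
theorem kDRV : StDRV := Pool.Agent.Helper21.HC.hDRV kDR0 Helper35.HSF.kEPW Helper35.HSF.kHTR Helper35.HSF.kSMF
theorem kDRB : StDRB := Pool.Agent.Helper97.HC.hDRB kDRV kCDG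
theorem kPIE : StPIE := Pool.Agent.Helper62.HC.hPIE kCDG tNR
theorem kKLP : StKLP := Helper28.HC.hKLP 
theorem kPIL : StPIL := Helper53.HC.hPIL kPIE kKLP kCDG
theorem kLFT : StLFT := Pool.Agent.Helper41.HC.hLFT 
theorem kDIN : StDIN := Helper80.HC.hDIN 
theorem kSTY : StSTY := Helper34.HC.hSTY kPIE kDRB kLPG kDIN
theorem kGCE : StGCE := Pool.Agent.Helper45.HC.hGCE kCDG Helper35.MS.jI3J tNR
theorem kSEA : StSEA := Pool.Agent.Helper90.HC.hSEA 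
theorem kSEB : StSEB := Pool.Agent.Helper9.HC.hSEB 
theorem kSPF : StSPF := Helper35.HC.hSPF kGCE kPIL kLFT kSTY kSEA kSEB kPIE kDRB
theorem kMNP : StMNP := Helper34.HC.hMNP kPKD Helper35.HSF.kFZP Helper35.HSF.kHTR Helper35.HSF.kSMF
theorem kRCM : StRCM := Helper3.HC.hRCM kSPF kPKD
theorem kCMP : StCMP := Pool.Agent.Helper62.HC.hCMP kRCM kMNP kPKD Helper35.MS.jI4J
theorem kLOB : StLOB := Helper42.HC.hLOB kCMP kPKD Helper35.HSF.kFZP Helper35.HSF.kHTR Helper35.HSF.kSMF Helper35.MS.jI4J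
theorem kRTE : StRTE := Helper81.HC.hRTE kGRB kCMP kLOB
theorem kSPT : StSPT := Helper6.HC.hSPT kSPF Helper35.HSF.kSMF
theorem kHFP : StHFP := Helper2.HC.hHFP kGCX tC1 Helper35.HSF.kSMF tG0 tJA tJB
theorem kLIM : StLIM := Helper85.HC.hLIM kSPT kHFP Helper35.HSF.kFZP Helper35.HSF.kHTR Helper35.HSF.kSMF
theorem kLMN : StLMN := Pool.Agent.Helper64.HC.hLMN 
theorem kLSN : StLSN := Helper24.HC.hLSN 
theorem kRNT : StRNT := Helper11.HC.hRNT kRTE kLIM kLMN kLSN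
theorem kCN3 : StCN3 := Helper41.HC.hCN3 Helper35.MS.jSCL Helper35.HSF.kHSN Helper35.HSF.kCTN
theorem kP3H : StP3H := Helper28.HC.hP3H tNR
theorem kRIN : StRIN := Helper99.HC.hRIN kCN3 kP3H kINT
theorem kFT3 : StFT3 := Helper29.HC.hFT3 kCN3 kRIN kRPD kRNT Helper35.HSF.kHSN Helper35.HSF.kCTN
theorem kIT3 : StIT3 := Helper91.HC.hIT3 kCN3 kRIN kRPD kRNT Helper35.HSF.kHSN Helper35.HSF.kCTN

end Helper35.HC
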